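import Mathlib

/-!
# Counting the irreducible factors of a polynomial in two variables
-/

set_option autoImplicit false
set_option linter.unusedSectionVars false
set_option maxHeartbeats 1000000

namespace Pool.Agent.U172.SM

open Polynomial

section symm

variable {K : Type*} [Field K] [CharZero K]

/-- finite symmetric sets -/
theorem card_symm (Λ : Finset K) (h0 : (0 : K) ∉ Λ) (hs : ∀ a ∈ Λ, -a ∈ Λ) {r : ℕ}
    (c : Fin r → K) (hc : LinearIndependent ℚ c)
    (hcm : ∀ j, c j ∈ Submodule.span ℚ (Λ : Set K)) : 2 * r ≤ Λ.card := by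
  classical
  obtain ⟨b, hb, hspan, hli⟩ := exists_linearIndependent ℚ (Λ : Set K)
  have hbf : b.Finite := Λ.finite_toSet.subset hb
  set B : Finset K := hbf.toFinset with hB
  have hBm : ∀ x, x ∈ B ↔ x ∈ b := fun x => hbf.mem_toFinset
  have hr : r ≤ B.card := by
    have h1 : Module.finrank ℚ (Submodule.span ℚ (Set.range c)) = r := by
      rw [finrank_span_eq_card hc, Fintype.card_fin]
    have h2 : Submodule.span ℚ (Set.range c) ≤ Submodule.span ℚ (B : Set K) := by
      rw [Submodule.span_le]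
      rintro _ ⟨j, rfl⟩
      have h3 := hcm j
      rw [← hspan] at h3
      have h4 : (B : Set K) = b := hbf.coe_toFinset
      rw [h4]
      exact h3
    have h3 := Submodule.finrank_mono h2
    rw [h1] at h3
    exact h3.trans (finrank_span_finset_le_card B)
  have hdis : Disjoint B (B.image fun x => -x) := by
    rw [Finset.disjoint_left]
    intro x hx hx'
    obtain ⟨y, hy, hyx⟩ := Finset.mem_image.1 hx'
    have hxb := (hBm x).1 hx
    have hyb := (hBm y).1 hy
    have hx0 : x ≠ 0 := fun h => h0 (h ▸ hb hxb)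
    by_cases hxy : x = y
    · subst hxy
      have h2 : (2 : K) * x = 0 := by linear_combination -hyx
      exact hx0 ((mul_eq_zero.1 h2).resolve_left two_ne_zero)
    · rw [linearIndependent_iff] at hli
      have h1 := hli (Finsupp.single ⟨x, hxb⟩ 1 + Finsupp.single ⟨y, hyb⟩ 1) (by
        rw [map_add, Finsupp.linearCombination_single, Finsupp.linearCombination_single,
          one_smul, one_smul]
        change x + y = 0
        rw [← hyx]
        ring)
      have h2 := DFunLike.congr_fun h1 ⟨x, hxb⟩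
      rw [Finsupp.add_apply, Finsupp.single_eq_same, Finsupp.single_eq_of_ne (by
        intro h
        exact hxy (Subtype.ext_iff.1 h)), Finsupp.zero_apply] at h2
      norm_num at h2
  have hsub : B ∪ B.image (fun x => -x) ⊆ Λ := by
    intro x hx
    rcases Finset.mem_union.1 hx with h | h
    · exact hb ((hBm x).1 h)
    · obtain ⟨y, hy, rfl⟩ := Finset.mem_image.1 h
      exact hs y (hb ((hBm y).1 hy))
  have h1 := Finset.card_le_card hsub
  rw [Finset.card_union_of_disjoint hdis, Finset.card_image_of_injective _ neg_injective] at h1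
  omega

end symm

section two

variable {K : Type*} [Field K] [CharZero K]

theorem swap_coeff (p : K[X][X]) (i j : ℕ) :
    ((Bivariate.swap p).coeff j).coeff i = (p.coeff i).coeff j := by
  induction p using Polynomial.induction_on' with
  | add p q hp hq => rw [map_add, coeff_add, coeff_add, coeff_add, coeff_add, hp, hq]
  | monomial n a =>
    rw [Bivariate.swap_monomial, coeff_mul_C, coeff_map, coeff_C_mul, coeff_X_pow, coeff_monomial]
    by_cases h : i = n
    · rw [if_pos h, if_pos h.symm, mul_one]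
    · rw [if_neg h, if_neg (fun h' => h h'.symm), mul_zero, coeff_zero]

/-- the involution of the variable -/
noncomputable def sg (K : Type*) [Field K] : K[X] →+* K[X] := compRingHom (-X)

theorem sg_coeff_one (a : K[X]) : (sg K a).coeff 1 = - a.coeff 1 := by
  change (a.comp (-X)).coeff 1 = _
  have h1 : (-X : K[X]) = C (-1) * X := by rw [C_neg, C_1, neg_one_mul]
  rw [h1, comp_C_mul_X_coeff]
  ring

theorem sg_sg (a : K[X]) : sg K (sg K a) = a := by
  change (a.comp (-X)).comp (-X) = a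
  rw [comp_assoc, neg_comp, X_comp, neg_neg, comp_X]

/-- the normalized coefficient -/
noncomputable def el (g : K[X][X]) : K :=
  (g.coeff (g.natDegree - 1)).coeff 1 / (g.natDegree : K)

theorem el_sg {g : K[X][X]} (hg : g.Monic) : el (g.map (sg K)) = - el g := by
  rw [el, el, hg.natDegree_map, coeff_map, sg_coeff_one, neg_div]

theorem coeff_comp {g : K[X][X]} (hg : g.Monic) (hd : 0 < g.natDegree) (μ : K[X]) :
    (g.comp (X + C μ)).coeff (g.natDegree - 1) =
      g.coeff (g.natDegree - 1) + (g.natDegree : K[X]) * μ := by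
  rw [← taylor_apply, taylor_coeff]
  have h1 : (hasseDeriv (g.natDegree - 1) g).natDegree < 2 := by
    have := natDegree_hasseDeriv_le g (g.natDegree - 1)
    omega
  rw [eval_eq_sum_range' h1, Finset.sum_range_succ, Finset.sum_range_one, hasseDeriv_coeff,
    hasseDeriv_coeff, pow_zero, mul_one, pow_one, zero_add, Nat.choose_self, Nat.cast_one, one_mul]
  have h2 : 1 + (g.natDegree - 1) = g.natDegree := by omega
  rw [h2, show g.coeff g.natDegree = 1 from hg, mul_one]
  have h3 : g.natDegree.choose (g.natDegree - 1) = g.natDegree := by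
    rw [Nat.choose_symm_of_eq_add (b := 1) (by omega), Nat.choose_one_right]
  rw [h3]

theorem natDegree_comp_add {g : K[X][X]} (μ : K[X]) :
    (g.comp (X + C μ)).natDegree = g.natDegree := by
  rw [natDegree_comp, natDegree_X_add_C, mul_one]

theorem el_comp {g : K[X][X]} (hg : g.Monic) (hd : 0 < g.natDegree) (c : K) :
    el (g.comp (X + C (C c * X))) = el g + c := by
  have hd' : (g.natDegree : K) ≠ 0 := Nat.cast_ne_zero.2 hd.ne'
  rw [el, el, natDegree_comp_add, coeff_comp hg hd, coeff_add]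
  have h1 : ((g.natDegree : K[X]) * (C c * X)).coeff 1 = (g.natDegree : K) * c := by
    rw [← C_eq_natCast, coeff_C_mul, coeff_C_mul, coeff_X_one, mul_one]
  rw [h1]
  field_simp

theorem pos_of_el {g : K[X][X]} (h : el g ≠ 0) : 1 ≤ (Bivariate.swap g).natDegree := by
  by_contra hcon
  have h1 : (Bivariate.swap g).natDegree = 0 := by omega
  apply h
  have h2 : (Bivariate.swap g).coeff 1 = 0 := coeff_eq_zero_of_natDegree_lt (by omega)
  rw [el, ← swap_coeff, h2, coeff_zero, zero_div]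

theorem prod_dvd {p : K[X][X]} (S : Finset K[X][X]) (hS : ∀ g ∈ S, g.Monic ∧ Irreducible g ∧ g ∣ p) :
    ∏ g ∈ S, g ∣ p := by
  classical
  refine Finset.prod_dvd_of_isRelPrime (s := fun g : K[X][X] => g) ?_ fun g hg => (hS g hg).2.2
  intro g hg h hh hne
  obtain ⟨hg1, hg2, -⟩ := hS g hg
  obtain ⟨hh1, hh2, -⟩ := hS h hh
  refine (hg2.isRelPrime_iff_not_dvd).2 fun hd => hne ?_
  have h2 : Associated g h := hg2.associated_of_dvd hh2 hd
  exact eq_of_monic_of_associated hg1 hh1 h2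

theorem irr_sg {g : K[X][X]} (hg : Irreducible g) : Irreducible (g.map (sg K)) := by
  let e : K[X] ≃+* K[X] := RingEquiv.ofRingHom (sg K) (sg K)
    (RingHom.ext fun a => sg_sg a) (RingHom.ext fun a => sg_sg a)
  have h1 := (MulEquiv.irreducible_iff (Polynomial.mapEquiv e)).2 hg
  exact h1

theorem irr_comp {g : K[X][X]} (hg : Irreducible g) (μ : K[X]) :
    Irreducible (g.comp (X + C μ)) := by
  have h1 := (MulEquiv.irreducible_iff (Polynomial.algEquivAevalXAddC μ)).2 hg
  rw [algEquivAevalXAddC_apply] at h1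
  exact h1

theorem swap_ne {p : K[X][X]} (hp : p ≠ 0) : Bivariate.swap p ≠ 0 := by
  intro h
  apply hp
  have h1 : Bivariate.swap p = Bivariate.swap 0 := by rw [h, map_zero]
  exact (Bivariate.swap (R := K)).injective h1

theorem card_le {p : K[X][X]} (hp : p ≠ 0) (S : Finset K[X][X])
    (hS : ∀ g ∈ S, g.Monic ∧ Irreducible g ∧ g ∣ p) (hS0 : ∀ g ∈ S, el g ≠ 0) :
    S.card ≤ (Bivariate.swap p).natDegree := by
  obtain ⟨q, hq⟩ := prod_dvd S hS
  have h4 : Bivariate.swap p = (∏ f ∈ S, Bivariate.swap f) * Bivariate.swap q := by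
    rw [hq, map_mul, map_prod]
  have h5 : ∀ f ∈ S, Bivariate.swap f ≠ 0 := fun f hf => swap_ne (hS f hf).1.ne_zero
  have h6 : Bivariate.swap q ≠ 0 := swap_ne (by rintro rfl; exact hp (by rw [hq, mul_zero]))
  rw [h4, natDegree_mul (Finset.prod_ne_zero_iff.2 h5) h6, natDegree_prod _ _ h5,
    Finset.card_eq_sum_ones]
  exact (Finset.sum_le_sum fun f hf => pos_of_el (hS0 f hf)).trans (Nat.le_add_right _ _)

theorem card_le' {p : K[X][X]} (hp : p ≠ 0) (S : Finset K[X][X])
    (hS : ∀ g ∈ S, g.Monic ∧ Irreducible g ∧ g ∣ p) : S.card ≤ p.natDegree := by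
  obtain ⟨q, hq⟩ := prod_dvd S hS
  have h6 : q ≠ 0 := by
    rintro rfl
    exact hp (by rw [hq, mul_zero])
  have h5 : ∀ f ∈ S, f ≠ 0 := fun f hf => (hS f hf).1.ne_zero
  rw [hq, natDegree_mul (Finset.prod_ne_zero_iff.2 h5) h6, natDegree_prod _ _ h5,
    Finset.card_eq_sum_ones]
  refine (Finset.sum_le_sum fun f hf => ?_).trans (Nat.le_add_right _ _)
  refine Nat.pos_of_ne_zero fun h0 => (hS f hf).2.1.not_isUnit ?_
  rw [(hS f hf).1.natDegree_eq_zero.1 h0]
  exact isUnit_one

/-- **The number of the factors.** -/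
theorem count_card {p : K[X][X]} (hev : p.map (sg K) = p) {r : ℕ}
    (c : Fin r → K) (hc : LinearIndependent ℚ c)
    (hcom : ∀ j, ∃ g : K[X][X], g.Monic ∧ Irreducible g ∧ g ∣ p ∧
      g.comp (X + C (C (c j) * X)) ∣ p) : ∃ S : Finset K[X][X],
      (∀ g ∈ S, g.Monic ∧ Irreducible g ∧ g ∣ p) ∧ (∀ g ∈ S, el g ≠ 0) ∧ 2 * r ≤ S.card := by
  classical
  choose g hg hgi hgp hgc using hcom
  obtain ⟨h, hh⟩ : ∃ h : Fin r → K[X][X], ∀ j, h j = (g j).comp (X + C (C (c j) * X)) :=
    ⟨_, fun _ => rfl⟩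
  have hmon : ∀ j, (h j).Monic := fun j => by
    rw [hh]
    exact (hg j).comp_X_add_C _
  have hirr : ∀ j, Irreducible (h j) := fun j => by
    rw [hh]
    exact irr_comp (hgi j) _
  have hhp : ∀ j, h j ∣ p := fun j => by
    rw [hh]
    exact hgc j
  have hpos : ∀ j, 0 < (g j).natDegree := by
    intro j
    refine Nat.pos_of_ne_zero fun h0 => (hgi j).not_isUnit ?_
    rw [(hg j).natDegree_eq_zero.1 h0]
    exact isUnit_one
  obtain ⟨S0, hS0⟩ : ∃ S0 : Finset K[X][X], ∀ f, f ∈ S0 ↔ (∃ j, g j = f) ∨ ∃ j, h j = f := by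
    refine ⟨Finset.univ.image g ∪ Finset.univ.image h, fun f => ?_⟩
    rw [Finset.mem_union, Finset.mem_image, Finset.mem_image]
    simp only [Finset.mem_univ, true_and]
  obtain ⟨S1, hS1⟩ : ∃ S1 : Finset K[X][X], ∀ f, f ∈ S1 ↔ f ∈ S0 ∨ ∃ f' ∈ S0, f'.map (sg K) = f := by
    refine ⟨S0 ∪ S0.image (fun f => f.map (sg K)), fun f => ?_⟩
    rw [Finset.mem_union, Finset.mem_image]
  obtain ⟨S, hS⟩ : ∃ S : Finset K[X][X], ∀ f, f ∈ S ↔ f ∈ S1 ∧ el f ≠ 0 :=
    ⟨S1.filter fun f => el f ≠ 0, fun f => Finset.mem_filter⟩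
  have hS0m : ∀ f ∈ S0, f.Monic ∧ Irreducible f ∧ f ∣ p := by
    intro f hf
    rcases (hS0 f).1 hf with ⟨j, rfl⟩ | ⟨j, rfl⟩
    · exact ⟨hg j, hgi j, hgp j⟩
    · exact ⟨hmon j, hirr j, hhp j⟩
  have hS1m : ∀ f ∈ S1, f.Monic ∧ Irreducible f ∧ f ∣ p := by
    intro f hf
    rcases (hS1 f).1 hf with hf | ⟨f', hf', rfl⟩
    · exact hS0m f hf
    · obtain ⟨h1, h2, h3⟩ := hS0m f' hf'
      refine ⟨h1.map _, irr_sg h2, ?_⟩
      rw [← hev]
      exact Polynomial.map_dvd _ h3
  have hsym1 : ∀ f ∈ S1, f.map (sg K) ∈ S1 := by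
    intro f hf
    rcases (hS1 f).1 hf with hf | ⟨f', hf', rfl⟩
    · exact (hS1 _).2 (Or.inr ⟨f, hf, rfl⟩)
    · refine (hS1 _).2 (Or.inl ?_)
      have h1 : (f'.map (sg K)).map (sg K) = f' := by
        rw [Polynomial.map_map]
        have : (sg K).comp (sg K) = RingHom.id _ := RingHom.ext fun a => sg_sg a
        rw [this, Polynomial.map_id]
      rw [h1]
      exact hf'
  obtain ⟨Λ, hΛ, hΛc⟩ : ∃ Λ : Finset K, (∀ a, a ∈ Λ ↔ ∃ f ∈ S, el f = a) ∧ Λ.card ≤ S.card :=
    ⟨S.image el, fun a => Finset.mem_image, Finset.card_image_le⟩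
  have h0 : (0 : K) ∉ Λ := by
    intro h0
    obtain ⟨f, hf, hf0⟩ := (hΛ 0).1 h0
    exact ((hS f).1 hf).2 hf0
  have hs : ∀ a ∈ Λ, -a ∈ Λ := by
    intro a ha
    obtain ⟨f, hf, rfl⟩ := (hΛ a).1 ha
    obtain ⟨hf1, hf2⟩ := (hS f).1 hf
    have h1 := el_sg (hS1m f hf1).1
    refine (hΛ _).2 ⟨f.map (sg K), (hS _).2 ⟨hsym1 f hf1, ?_⟩, h1⟩
    rw [h1]
    exact neg_ne_zero.2 hf2
  have hmemS : ∀ f ∈ S1, el f ∈ Submodule.span ℚ (Λ : Set K) := by
    intro f hf
    by_cases hf0 : el f = 0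
    · rw [hf0]
      exact Submodule.zero_mem _
    · exact Submodule.subset_span (Finset.mem_coe.2 ((hΛ _).2 ⟨f, (hS f).2 ⟨hf, hf0⟩, rfl⟩))
  have hcm : ∀ j, c j ∈ Submodule.span ℚ (Λ : Set K) := by
    intro j
    have h1 := el_comp (hg j) (hpos j) (c j)
    rw [← hh] at h1
    have h2 : c j = el (h j) - el (g j) := by
      rw [h1]
      ring
    rw [h2]
    exact Submodule.sub_mem _ (hmemS _ ((hS1 _).2 (Or.inl ((hS0 _).2 (Or.inr ⟨j, rfl⟩)))))
      (hmemS _ ((hS1 _).2 (Or.inl ((hS0 _).2 (Or.inl ⟨j, rfl⟩)))))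
  have h1 := card_symm Λ h0 hs c hc hcm
  exact ⟨S, fun f hf => hS1m f ((hS f).1 hf).1, fun f hf => ((hS f).1 hf).2, h1.trans hΛc⟩

/-- **The number of the factors and the degree in the second variable.** -/
theorem count {p : K[X][X]} (hp : p.Monic) (hev : p.map (sg K) = p) {r : ℕ}
    (c : Fin r → K) (hc : LinearIndependent ℚ c)
    (hcom : ∀ j, ∃ g : K[X][X], g.Monic ∧ Irreducible g ∧ g ∣ p ∧
      g.comp (X + C (C (c j) * X)) ∣ p) : 2 * r ≤ (Bivariate.swap p).natDegree := by
  obtain ⟨S, h1, h2, h3⟩ := count_card hev c hc hcom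
  exact h3.trans (card_le hp.ne_zero S h1 h2)

/-- **The number of the factors and the degree.** -/
theorem count' {p : K[X][X]} (hp : p.Monic) (hev : p.map (sg K) = p) {r : ℕ}
    (c : Fin r → K) (hc : LinearIndependent ℚ c)
    (hcom : ∀ j, ∃ g : K[X][X], g.Monic ∧ Irreducible g ∧ g ∣ p ∧
      g.comp (X + C (C (c j) * X)) ∣ p) : 2 * r ≤ p.natDegree := by
  obtain ⟨S, h1, h2, h3⟩ := count_card hev c hc hcom
  exact h3.trans (card_le' hp.ne_zero S h1)

end two

end Pool.Agent.U172.SM
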