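import Mathlib
import Pool.Agent.U172.SM.Cnt

/-!
# Eigenvalues of the commutator with a pencil of matrices, and the degree of the characteristic polynomial
-/

set_option autoImplicit false
set_option linter.unusedSectionVars false

namespace Pool.Agent.U172.SM

open Polynomial Matrix

section eig

variable {K : Type*} [Field K] [CharZero K] {n : Type*} [Fintype n] [DecidableEq n]

/-- the pencil -/
noncomputable def Am (f m : Matrix n n K) : Matrix n n K[X] :=
  Matrix.of fun i j => C (f i j) + X ^ 2 * C (m i j)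

theorem Am_eval (f m : Matrix n n K) (a : K) :
    (Am f m).map (evalRingHom a) = f + (a ^ 2) • m := by
  ext i j
  rw [Matrix.map_apply, Am, Matrix.of_apply, coe_evalRingHom, eval_add, eval_mul, eval_C, eval_pow,
    eval_X, eval_C, Matrix.add_apply, Matrix.smul_apply, smul_eq_mul]

theorem Am_sg (f m : Matrix n n K) : (Am f m).map (sg K) = Am f m := by
  ext1 i j
  rw [Matrix.map_apply, Am, Matrix.of_apply, map_add, map_mul, map_pow]
  have h1 : ∀ c : K, sg K (C c) = C c := fun c => by
    change (C c).comp (-X) = C c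
    rw [C_comp]
  have h2 : sg K X = -X := by
    change (X : K[X]).comp (-X) = -X
    rw [X_comp]
  rw [h1, h1, h2, neg_sq]

theorem charpoly_sg (f m : Matrix n n K) : (Am f m).charpoly.map (sg K) = (Am f m).charpoly := by
  rw [← Matrix.charpoly_map, Am_sg]

theorem semi {A Y : Matrix n n K} {μ : K} (h : A * Y - Y * A = μ • Y) (q : K[X]) :
    aeval A q * Y = Y * aeval A (q.comp (X + C μ)) := by
  have hs : SemiconjBy Y (A + algebraMap K _ μ) A := by
    change Y * (A + algebraMap K _ μ) = A * Y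
    rw [mul_add, ← Algebra.commutes, ← Algebra.smul_def, ← h]
    abel
  induction q using Polynomial.induction_on' with
  | add p q hp hq => rw [map_add, add_mul, hp, hq, add_comp, map_add, mul_add]
  | monomial k a =>
    rw [aeval_monomial, monomial_comp, map_mul, aeval_C, map_pow, map_add, aeval_X, aeval_C,
      mul_assoc, ← (hs.pow_right k).eq, ← mul_assoc, ← mul_assoc, Algebra.commutes]

theorem exists_eval_ne {d : K[X]} (hd : d ≠ 0) : ∃ a : K, d.eval a ≠ 0 := by
  by_contra hcon
  push Not at hcon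
  apply hd
  exact Polynomial.funext fun a => by rw [hcon a, eval_zero]

theorem not_coprime (f m : Matrix n n K) (μ : K[X])
    (h : ∀ a : K, ∃ Y : Matrix n n K, Y ≠ 0 ∧
      (f + (a ^ 2) • m) * Y - Y * (f + (a ^ 2) • m) = (μ.eval a) • Y) :
    ¬ IsCoprime ((Am f m).charpoly.map (algebraMap K[X] (FractionRing K[X])))
      (((Am f m).charpoly.comp (X + C μ)).map (algebraMap K[X] (FractionRing K[X]))) := by
  rintro ⟨u, v, huv⟩
  obtain ⟨b1, hb1, hu⟩ := IsLocalization.integerNormalization_spec (nonZeroDivisors K[X]) u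
  obtain ⟨b2, hb2, hv⟩ := IsLocalization.integerNormalization_spec (nonZeroDivisors K[X]) v
  obtain ⟨U, hU⟩ : ∃ U, U = IsLocalization.integerNormalization (nonZeroDivisors K[X]) u := ⟨_, rfl⟩
  obtain ⟨V, hV⟩ : ∃ V, V = IsLocalization.integerNormalization (nonZeroDivisors K[X]) v := ⟨_, rfl⟩
  rw [← hU] at hu
  rw [← hV] at hv
  have hb10 : b1 ≠ 0 := nonZeroDivisors.ne_zero hb1
  have hb20 : b2 ≠ 0 := nonZeroDivisors.ne_zero hb2
  obtain ⟨P, hP⟩ : ∃ P, P = (Am f m).charpoly := ⟨_, rfl⟩
  rw [← hP] at huv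
  have h1 : C b2 * U * P + C b1 * V * (P.comp (X + C μ)) = C (b1 * b2) := by
    apply Polynomial.map_injective (algebraMap K[X] (FractionRing K[X]))
      (IsFractionRing.injective K[X] (FractionRing K[X]))
    rw [Polynomial.map_add, Polynomial.map_mul, Polynomial.map_mul, Polynomial.map_mul,
      Polynomial.map_mul, hu, hv, map_C, map_C, map_C]
    have e1 : ∀ (b : K[X]) (w : (FractionRing K[X])[X]), b • w =
        C (algebraMap K[X] (FractionRing K[X]) b) * w := by
      intro b w
      rw [← smul_eq_C_mul, algebraMap_smul]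
    have e2 : C (algebraMap K[X] (FractionRing K[X]) (b1 * b2)) =
        C (algebraMap K[X] (FractionRing K[X]) b1) * C (algebraMap K[X] (FractionRing K[X]) b2) := by
      rw [map_mul, C_mul]
    rw [e1, e1, e2]
    linear_combination (C (algebraMap K[X] (FractionRing K[X]) b1) *
      C (algebraMap K[X] (FractionRing K[X]) b2)) * huv
  obtain ⟨a, ha⟩ := exists_eval_ne (mul_ne_zero hb10 hb20)
  obtain ⟨Y, hY0, hY⟩ := h a
  obtain ⟨A, hA⟩ : ∃ A, A = f + (a ^ 2) • m := ⟨_, rfl⟩
  rw [← hA] at hY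
  have h2 : aeval A ((C b2 * U * P + C b1 * V * (P.comp (X + C μ))).map (evalRingHom a)) =
      aeval A ((C (b1 * b2)).map (evalRingHom a)) := by rw [h1]
  have h3 : P.map (evalRingHom a) = A.charpoly := by
    rw [hP, ← Matrix.charpoly_map, Am_eval, hA]
  rw [Polynomial.map_add, Polynomial.map_mul, Polynomial.map_mul, Polynomial.map_mul,
    Polynomial.map_mul, Polynomial.map_comp, h3, Polynomial.map_add, map_X, map_C, map_C, map_C,
    map_C, map_add, map_mul (aeval A), aeval_self_charpoly, mul_zero, zero_add, map_mul (aeval A)]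
    at h2
  have h4 := semi hY A.charpoly
  rw [aeval_self_charpoly, zero_mul] at h4
  have h5 : ∀ Q Q' : Matrix n n K, Q = Q' → Y * Q = Y * Q' := fun Q Q' h => by rw [h]
  have h5 := h5 _ _ h2
  rw [← map_mul (aeval A), mul_comm, map_mul (aeval A), ← mul_assoc] at h5
  change Y * (aeval A (A.charpoly.comp (X + C (eval a μ)))) * _ = _ at h5
  rw [← h4, zero_mul, aeval_C, ← Algebra.commutes, ← Algebra.smul_def] at h5
  rcases smul_eq_zero.1 h5.symm with h6 | h6
  · exact ha h6
  · exact hY0 h6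

theorem exists_factor (f m : Matrix n n K) (c : K)
    (h : ∀ a : K, ∃ Y : Matrix n n K, Y ≠ 0 ∧
      (f + (a ^ 2) • m) * Y - Y * (f + (a ^ 2) • m) = (c * a) • Y) :
    ∃ g : K[X][X], g.Monic ∧ Irreducible g ∧ g ∣ (Am f m).charpoly ∧
      g.comp (X + C (C c * X)) ∣ (Am f m).charpoly := by
  classical
  have h' : ∀ a : K, ∃ Y : Matrix n n K, Y ≠ 0 ∧
      (f + (a ^ 2) • m) * Y - Y * (f + (a ^ 2) • m) = ((-(C c * X) : K[X]).eval a) • Y := by
    intro a
    obtain ⟨Y, h1, h2⟩ := h (-a)
    refine ⟨Y, h1, ?_⟩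
    rw [neg_sq] at h2
    rw [h2, eval_neg, eval_mul, eval_C, eval_X, mul_neg]
  have h1 := not_coprime f m _ h'
  obtain ⟨P, hP⟩ : ∃ P, P = (Am f m).charpoly := ⟨_, rfl⟩
  have hPm : P.Monic := by
    rw [hP]
    exact Matrix.charpoly_monic _
  rw [← hP] at h1 ⊢
  obtain ⟨φ, hφ⟩ : ∃ φ, φ = algebraMap K[X] (FractionRing K[X]) := ⟨_, rfl⟩
  have hinj : Function.Injective φ := by
    rw [hφ]
    exact IsFractionRing.injective K[X] (FractionRing K[X])
  rw [← hφ] at h1
  have hP0 : P.map φ ≠ 0 := (hPm.map φ).ne_zero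
  rw [← EuclideanDomain.gcd_isUnit_iff] at h1
  obtain ⟨i, hi, hid⟩ := WfDvdMonoid.exists_irreducible_factor h1 (by
    intro h0
    exact hP0 (EuclideanDomain.gcd_eq_zero_iff.1 h0).1)
  have hi1 : i ∣ P.map φ := hid.trans (EuclideanDomain.gcd_dvd_left _ _)
  have hi2 : i ∣ (P.comp (X + C (-(C c * X)))).map φ := hid.trans (EuclideanDomain.gcd_dvd_right _ _)
  have hi1' : i ∣ P.map (algebraMap K[X] (FractionRing K[X])) := by
    rw [← hφ]
    exact hi1
  obtain ⟨g, hg⟩ := IsIntegrallyClosed.eq_map_mul_C_of_dvd (FractionRing K[X]) hPm hi1'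
  rw [← hφ] at hg
  have hl : i.leadingCoeff ≠ 0 := leadingCoeff_ne_zero.2 hi.ne_zero
  have hu : IsUnit (C i.leadingCoeff) := isUnit_C.2 hl.isUnit
  have hass : Associated (g.map φ) i := by
    obtain ⟨w, hw⟩ := hu
    exact ⟨w, by rw [hw, hg]⟩
  have hgm : g.Monic := by
    refine monic_of_injective hinj ?_
    have h3 := congrArg leadingCoeff hg
    rw [leadingCoeff_mul, leadingCoeff_C] at h3
    exact mul_right_cancel₀ hl (by rw [h3, one_mul])
  have hgi : Irreducible g := Monic.irreducible_of_irreducible_map φ g hgm (hass.irreducible_iff.2 hi)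
  have hg1 : g ∣ P := (Polynomial.map_dvd_map φ hinj hgm).1 (hass.dvd.trans hi1)
  have hg2 : g ∣ P.comp (X + C (-(C c * X))) :=
    (Polynomial.map_dvd_map φ hinj hgm).1 (hass.dvd.trans hi2)
  refine ⟨g, hgm, hgi, hg1, ?_⟩
  obtain ⟨q, hq⟩ := hg2
  refine ⟨q.comp (X + C (C c * X)), ?_⟩
  rw [← mul_comp, ← hq, comp_assoc]
  have h6 : (X + C (-(C c * X)) : K[X][X]).comp (X + C (C c * X)) = X := by
    rw [add_comp, X_comp, C_comp, C_neg]
    ring
  rw [h6, comp_X]

/-- the degree in the parameter -/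
theorem degree_le {s t : ℕ} (f m : Matrix (Fin s ⊕ Fin t) (Fin s ⊕ Fin t) K)
    (hm : ∀ i j, m (Sum.inr i) j = 0) : (Bivariate.swap (Am f m).charpoly).natDegree ≤ 2 * s := by
  classical
  have h1 : Bivariate.swap (Am f m).charpoly =
      ((Bivariate.swap (R := K)).toRingEquiv.toRingHom.mapMatrix (charmatrix (Am f m))).det := by
    rw [← RingHom.map_det]
    rfl
  rw [h1, Matrix.det_apply]
  have hdeg : ∀ i j, ((Bivariate.swap (R := K)).toRingEquiv.toRingHom.mapMatrix
      (charmatrix (Am f m)) i j).natDegree ≤ Sum.elim (fun _ => 2) (fun _ => 0) i := by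
    intro i j
    have h2 : (Bivariate.swap (R := K)).toRingEquiv.toRingHom.mapMatrix (charmatrix (Am f m)) i j =
        C (if i = j then X else 0) - C (C (f i j)) - X ^ 2 * C (C (m i j)) := by
      change Bivariate.swap (charmatrix (Am f m) i j) = _
      rw [charmatrix_apply, Am, Matrix.of_apply, map_sub, Bivariate.swap_C, Polynomial.map_add,
        Polynomial.map_mul, Polynomial.map_pow, map_X, map_C, map_C]
      rw [Matrix.diagonal_apply]
      by_cases hij : i = j
      · rw [if_pos hij, if_pos hij, Bivariate.swap_Y]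
        ring
      · rw [if_neg hij, if_neg hij, map_zero, map_zero]
        ring
    rw [h2]
    rcases i with i | i
    · rw [Sum.elim_inl]
      refine (natDegree_sub_le_of_le (natDegree_sub_le_of_le (m := 0) (n := 0) ?_ ?_)
        (n := 2) ?_).trans ?_
      · rw [natDegree_C]
      · rw [natDegree_C]
      · refine (natDegree_mul_C_le _ _).trans ?_
        rw [natDegree_X_pow]
      · simp
    · rw [Sum.elim_inr, hm, C_0, C_0, mul_zero, sub_zero, ← C_sub, natDegree_C]
  have hsum : ∑ i : Fin s ⊕ Fin t, (Sum.elim (fun _ => 2) (fun _ => 0) i : ℕ) = 2 * s := by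
    rw [Fintype.sum_sum_type]
    simp [mul_comm]
  refine natDegree_sum_le_of_forall_le _ _ fun σ _ => ?_
  refine (natDegree_smul_le _ _).trans ((natDegree_prod_le _ _).trans ?_)
  rw [← hsum, ← Equiv.sum_comp σ (fun i => (Sum.elim (fun _ => 2) (fun _ => 0) i : ℕ))]
  exact Finset.sum_le_sum fun i _ => hdeg (σ i) i

end eig

end Pool.Agent.U172.SM
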