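import Mathlib
import Pool.Agent.U172.SM.Eig
import Pool.Agent.V11219.GkSp

/-!
# Comparison of ranks for a symplectic quotient of a Lie algebra of operators
-/

set_option autoImplicit false
set_option linter.unusedSectionVars false

namespace Pool.Agent.U172.SM

open Module Pool.Agent.V11219.Gk
open Pool.Agent.H204R3.SP (SS SS_apply SS_comm)

section numbers

variable {K : Type*} [Field K] [CharZero K] [IsAlgClosed K]

theorem exists_linInd (r : ℕ) : ∃ c : Fin r → K, LinearIndependent ℚ c := by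
  obtain ⟨p, hp, hpp⟩ := Nat.exists_infinite_primes (r + 2)
  have : NeZero (p : K) := ⟨Nat.cast_ne_zero.2 hpp.ne_zero⟩
  have hdeg : (Polynomial.cyclotomic p K).degree ≠ 0 := by
    rw [Polynomial.degree_cyclotomic, Nat.totient_prime hpp]
    intro h
    have h2 : p - 1 = 0 := by exact_mod_cast h
    omega
  obtain ⟨x, hx⟩ := IsAlgClosed.exists_root (Polynomial.cyclotomic p K) hdeg
  have hprim : IsPrimitiveRoot x p := Polynomial.isRoot_cyclotomic_iff.1 hx
  have h1 := Polynomial.cyclotomic_eq_minpoly_rat hprim hpp.pos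
  have h2 : r ≤ (minpoly ℚ x).natDegree := by
    rw [← h1, Polynomial.natDegree_cyclotomic, Nat.totient_prime hpp]
    omega
  exact ⟨fun i => x ^ (i : ℕ), (linearIndependent_pow (K := ℚ) x).comp (Fin.castLE h2)
    (Fin.castLE_injective h2)⟩

end numbers

section lin

variable {K : Type*} [Field K] [CharZero K] {E : Type*} [AddCommGroup E] [Module K E]
  [FiniteDimensional K E]

/-- a basis adapted to the range -/
theorem exists_adapted (m : End K E) : ∃ (t : ℕ) (b : Basis (Fin (finrank K (LinearMap.range m)) ⊕ Fin t) K E),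
    ∀ i x, b.repr (m x) (Sum.inr i) = 0 := by
  obtain ⟨C, hC⟩ := Submodule.exists_isCompl (LinearMap.range m)
  refine ⟨finrank K C, ((finBasis K (LinearMap.range m)).prod (finBasis K C)).map
    (Submodule.prodEquivOfIsCompl _ _ hC), fun i x => ?_⟩
  rw [Basis.map_repr, LinearEquiv.trans_apply]
  have h1 : (Submodule.prodEquivOfIsCompl _ _ hC).symm (m x) =
      ((⟨m x, LinearMap.mem_range_self m x⟩ : LinearMap.range m), (0 : C)) :=
    Submodule.prodEquivOfIsCompl_symm_apply_left _ _ hC ⟨m x, LinearMap.mem_range_self m x⟩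
  rw [h1, Basis.prod_repr_inr, map_zero, Finsupp.zero_apply]

/-- **The eigenvalues of the commutators with a pencil bound the rank.** -/
theorem rank_of_eigen (f m : End K E) {r : ℕ} (c : Fin r → K) (hc : LinearIndependent ℚ c)
    (h : ∀ j (a : K), ∃ Y : End K E, Y ≠ 0 ∧
      (f + (a ^ 2) • m) * Y - Y * (f + (a ^ 2) • m) = (c j * a) • Y) :
    r ≤ finrank K (LinearMap.range m) := by
  classical
  obtain ⟨t, b, hb⟩ := exists_adapted m
  obtain ⟨φ, hφ⟩ : ∃ φ, φ = LinearMap.toMatrixAlgEquiv b := ⟨_, rfl⟩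
  have hm : ∀ i j, φ m (Sum.inr i) j = 0 := by
    intro i j
    rw [hφ, LinearMap.toMatrixAlgEquiv_apply]
    exact hb i _
  have h' : ∀ j (a : K), ∃ Y, Y ≠ 0 ∧
      (φ f + (a ^ 2) • φ m) * Y - Y * (φ f + (a ^ 2) • φ m) = (c j * a) • Y := by
    intro j a
    obtain ⟨Y, hY, h1⟩ := h j a
    refine ⟨φ Y, fun h0 => hY ((map_eq_zero_iff φ φ.injective).1 h0), ?_⟩
    rw [← map_smul, ← map_add, ← map_mul, ← map_mul, ← map_sub, h1, map_smul]
  have h1 := count (Matrix.charpoly_monic (Am (φ f) (φ m))) (charpoly_sg _ _) c hc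
    (fun j => exists_factor (φ f) (φ m) (c j) (h' j))
  have h2 := degree_le (φ f) (φ m) hm
  omega

/-- **The eigenvalues of the commutators with a pencil bound the dimension.** -/
theorem dim_of_eigen (f m : End K E) {r : ℕ} (c : Fin r → K) (hc : LinearIndependent ℚ c)
    (h : ∀ j (a : K), ∃ Y : End K E, Y ≠ 0 ∧
      (f + (a ^ 2) • m) * Y - Y * (f + (a ^ 2) • m) = (c j * a) • Y) :
    2 * r ≤ finrank K E := by
  classical
  obtain ⟨φ, hφ⟩ : ∃ φ, φ = LinearMap.toMatrixAlgEquiv (finBasis K E) := ⟨_, rfl⟩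
  have h' : ∀ j (a : K), ∃ Y, Y ≠ 0 ∧
      (φ f + (a ^ 2) • φ m) * Y - Y * (φ f + (a ^ 2) • φ m) = (c j * a) • Y := by
    intro j a
    obtain ⟨Y, hY, h1⟩ := h j a
    refine ⟨φ Y, fun h0 => hY ((map_eq_zero_iff φ φ.injective).1 h0), ?_⟩
    rw [← map_smul, ← map_add, ← map_mul, ← map_mul, ← map_sub, h1, map_smul]
  have h1 := count' (Matrix.charpoly_monic (Am (φ f) (φ m))) (charpoly_sg _ _) c hc
    (fun j => exists_factor (φ f) (φ m) (c j) (h' j))
  rwa [Matrix.charpoly_natDegree_eq_dim, Fintype.card_fin] at h1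

variable {T : Type*} [AddCommGroup T] [Module K T] [FiniteDimensional K T] [IsAlgClosed K]
  {B : T →ₗ[K] T →ₗ[K] K}

/-- a Lagrangian frame -/
theorem exists_frame (halt : ∀ v, B v v = 0) (hnd : ∀ u, (∀ v, B u v = 0) → u = 0) {n : End K T}
    (hn : ∀ x y, B (n x) y + B x (n y) = 0) (hn2 : n * n = 0) : ∃ e : Fin (finrank K (LinearMap.range n)) → T,
      (∀ i j, B (e i) (n (e j)) = if i = j then 1 else 0) ∧ ∀ i j, B (e i) (e j) = 0 := by
  classical
  have hsw : ∀ x y, B x y = - B y x := fun x y => by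
    have h1 := halt (x + y)
    rw [map_add, map_add, LinearMap.add_apply, LinearMap.add_apply, halt, halt, zero_add,
      add_zero] at h1
    exact eq_neg_of_add_eq_zero_right h1
  have hnn : ∀ x, n (n x) = 0 := fun x => by
    rw [← Module.End.mul_apply, hn2, LinearMap.zero_apply]
  have huu : ∀ x y, B (n x) (n y) = 0 := fun x y => by
    have h1 := hn x (n y)
    rw [hnn, map_zero, add_zero] at h1
    exact h1
  -- the quadratic form
  let q : LinearMap.BilinForm K T := B.compl₂ n
  have hq : ∀ x y, q x y = B x (n y) := fun x y => rfl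
  have hsym : LinearMap.IsSymm q := ⟨fun x y => by
    rw [RingHom.id_apply, hq, hq, hsw y (n x)]
    exact eq_neg_of_add_eq_zero_right (hn x y)⟩
  have : Invertible (2 : K) := invertibleOfNonzero two_ne_zero
  obtain ⟨v, hv⟩ := LinearMap.BilinForm.exists_orthogonal_basis hsym
  have hvo : ∀ i j, i ≠ j → B (v i) (n (v j)) = 0 := fun i j hij => hv hij
  -- the indices
  obtain ⟨J, hJ⟩ : ∃ J : Finset (Fin (finrank K T)), ∀ i, i ∈ J ↔ B (v i) (n (v i)) ≠ 0 :=
    ⟨Finset.univ.filter fun i => B (v i) (n (v i)) ≠ 0, fun i => by simp⟩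
  have hzero : ∀ j, j ∉ J → n (v j) = 0 := by
    intro j hj
    have h0 : B (v j) (n (v j)) = 0 := by
      by_contra h
      exact hj ((hJ j).2 h)
    refine hnd _ fun w => ?_
    rw [hsw, neg_eq_zero]
    have h1 : B.flip (n (v j)) = 0 := by
      refine v.ext fun i => ?_
      rw [LinearMap.flip_apply, LinearMap.zero_apply]
      by_cases hij : i = j
      · rw [hij, h0]
      · exact hvo i j hij
    exact LinearMap.congr_fun h1 w
  have hcard : finrank K (LinearMap.range n) ≤ J.card := by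
    have h1 : LinearMap.range n ≤ Submodule.span K ((J.image fun j => n (v j) : Finset T) : Set T) := by
      rintro _ ⟨x, rfl⟩
      rw [← v.sum_repr x, map_sum]
      refine Submodule.sum_mem _ fun j _ => ?_
      rw [map_smul]
      refine Submodule.smul_mem _ _ ?_
      by_cases hj : j ∈ J
      · exact Submodule.subset_span (Finset.mem_coe.2 (Finset.mem_image_of_mem _ hj))
      · rw [hzero j hj]
        exact Submodule.zero_mem _
    exact (Submodule.finrank_mono h1).trans ((finrank_span_finset_le_card _).trans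
      Finset.card_image_le)
  obtain ⟨ι⟩ : Nonempty (Fin (finrank K (LinearMap.range n)) ↪ J) := by
    refine Function.Embedding.nonempty_of_card_le ?_
    rw [Fintype.card_fin, Fintype.card_coe]
    exact hcard
  have hsq : ∀ i : Fin (finrank K (LinearMap.range n)), ∃ s : K, s ≠ 0 ∧
      s * s * B (v (ι i)) (n (v (ι i))) = 1 := by
    intro i
    have h0 : B (v (ι i)) (n (v (ι i))) ≠ 0 := (hJ _).1 (ι i).2
    obtain ⟨s, hs⟩ := IsAlgClosed.exists_pow_nat_eq (B (v (ι i)) (n (v (ι i))))⁻¹ (n := 2) (by norm_num)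
    refine ⟨s, ?_, ?_⟩
    · rintro rfl
      rw [zero_pow two_ne_zero] at hs
      exact inv_ne_zero h0 hs.symm
    · rw [← pow_two, hs, inv_mul_cancel₀ h0]
  choose s hs0 hs using hsq
  -- the first frame
  obtain ⟨e, he⟩ : ∃ e : Fin (finrank K (LinearMap.range n)) → T, ∀ i, e i = s i • v (ι i) :=
    ⟨_, fun _ => rfl⟩
  have heo : ∀ i j, B (e i) (n (e j)) = if i = j then 1 else 0 := by
    intro i j
    rw [he, he, map_smul, map_smul, map_smul, LinearMap.smul_apply, smul_eq_mul, smul_eq_mul]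
    by_cases hij : i = j
    · subst hij
      rw [if_pos rfl, ← mul_assoc, hs]
    · rw [if_neg hij, hvo _ _ (fun h => hij (ι.injective (Subtype.ext h))), mul_zero, mul_zero]
  obtain ⟨d, hd⟩ : ∃ d : Fin (finrank K (LinearMap.range n)) → T,
      ∀ i, d i = ∑ l, (2⁻¹ * B (e i) (e l)) • n (e l) := ⟨_, fun _ => rfl⟩
  have hnd' : ∀ i, n (d i) = 0 := by
    intro i
    rw [hd, map_sum]
    refine Finset.sum_eq_zero fun l _ => ?_
    rw [map_smul, hnn, smul_zero]
  have hed : ∀ i j, B (e i) (d j) = 2⁻¹ * B (e j) (e i) := by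
    intro i j
    rw [hd, map_sum, Finset.sum_eq_single i]
    · rw [map_smul, heo, if_pos rfl, smul_eq_mul, mul_one]
    · intro l _ hl
      rw [map_smul, heo, if_neg (fun h => hl h.symm), smul_zero]
    · intro h
      exact absurd (Finset.mem_univ i) h
  have hdn : ∀ i x, B (d i) (n x) = 0 := by
    intro i x
    rw [hd, map_sum, LinearMap.sum_apply]
    refine Finset.sum_eq_zero fun l _ => ?_
    rw [map_smul, LinearMap.smul_apply, huu, smul_zero]
  have hdd : ∀ i j, B (d i) (d j) = 0 := by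
    intro i j
    rw [hd j, map_sum]
    refine Finset.sum_eq_zero fun l _ => ?_
    rw [map_smul, hdn, smul_zero]
  refine ⟨fun i => e i + d i, fun i j => ?_, fun i j => ?_⟩
  · rw [map_add, map_add, hnd', add_zero, LinearMap.add_apply, heo, hdn, add_zero]
  · rw [map_add, map_add, LinearMap.add_apply, LinearMap.add_apply, hdd, add_zero, hed,
      hsw (d i) (e j), hed, hsw (e j) (e i)]
    ring

end lin

section main

variable {K : Type} [Field K] [CharZero K] {T : Type} [AddCommGroup T] [Module K T]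
  [FiniteDimensional K T] {E : Type} [AddCommGroup E] [Module K E] [FiniteDimensional K E]
  {B : T →ₗ[K] T →ₗ[K] K}

/-- eigenvalues of a quotient are eigenvalues -/
theorem lift_eigen (P : Submodule K (End K T × End K E)) (G : End K T × End K E)
    (hG : ∀ X ∈ P, G * X - X * G ∈ P) (h2 : ∀ X ∈ P, X.2 = 0 → X = 0)
    {μ : K} {x : End K T} (hx0 : x ≠ 0) (hx : ∃ y, (x, y) ∈ P)
    (hxe : G.1 * x - x * G.1 = μ • x) :
    ∃ Y : End K E, Y ≠ 0 ∧ G.2 * Y - Y * G.2 = μ • Y := by
  obtain ⟨Φ0, hΦ0⟩ : ∃ Φ0 : (End K T × End K E) →ₗ[K] (End K T × End K E),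
      ∀ X, Φ0 X = G * X - X * G - μ • X :=
    ⟨LinearMap.mulLeft K G - LinearMap.mulRight K G - μ • LinearMap.id, fun X => rfl⟩
  obtain ⟨φ0, hφ0⟩ : ∃ φ0 : End K T →ₗ[K] End K T, ∀ X, φ0 X = G.1 * X - X * G.1 - μ • X :=
    ⟨LinearMap.mulLeft K G.1 - LinearMap.mulRight K G.1 - μ • LinearMap.id, fun X => rfl⟩
  have hP : ∀ X ∈ P, Φ0 X ∈ P := fun X hX => by
    rw [hΦ0]
    exact P.sub_mem (hG X hX) (P.smul_mem _ hX)
  have h12 : ∀ X, (Φ0 X).1 = φ0 X.1 := fun X => by
    rw [hΦ0, hφ0]
    rfl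
  obtain ⟨R, hR⟩ : ∃ R : Submodule K (End K T), R = P.map (LinearMap.fst K _ _) := ⟨_, rfl⟩
  have hR' : ∀ z ∈ R, φ0 z ∈ R := by
    rw [hR]
    rintro _ ⟨X, hX, rfl⟩
    exact ⟨Φ0 X, hP X hX, h12 X⟩
  by_cases hinj : Function.Injective (Φ0.restrict hP)
  · exfalso
    have hsurj := LinearMap.injective_iff_surjective.1 hinj
    have hsurj' : Function.Surjective (φ0.restrict hR') := by
      rintro ⟨z, hz⟩
      have hz' := hz
      rw [hR] at hz'
      obtain ⟨X, hX, hXz⟩ := hz'
      obtain ⟨⟨X', hX'⟩, hX1⟩ := hsurj ⟨X, hX⟩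
      have hX'R : X'.1 ∈ R := by
        rw [hR]
        exact ⟨X', hX', rfl⟩
      refine ⟨⟨X'.1, hX'R⟩, Subtype.ext ?_⟩
      have h5 : Φ0 X' = X := congrArg Subtype.val hX1
      change φ0 X'.1 = z
      rw [← h12, h5]
      exact hXz
    have hinj' := LinearMap.injective_iff_surjective.2 hsurj'
    obtain ⟨y, hy⟩ := hx
    have hxR : x ∈ R := by
      rw [hR]
      exact ⟨(x, y), hy, rfl⟩
    have h6 : (φ0.restrict hR') ⟨x, hxR⟩ = (φ0.restrict hR') 0 := by
      rw [map_zero]
      refine Subtype.ext ?_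
      change φ0 x = 0
      rw [hφ0, hxe, sub_self]
    exact hx0 (congrArg Subtype.val (hinj' h6))
  · rw [← LinearMap.ker_eq_bot] at hinj
    obtain ⟨⟨X, hX⟩, hXk, hX0⟩ := Submodule.exists_mem_ne_zero_of_ne_bot hinj
    have h5 : Φ0 X = 0 := congrArg Subtype.val (LinearMap.mem_ker.1 hXk)
    rw [hΦ0] at h5
    refine ⟨X.2, fun h0 => hX0 (Subtype.ext (h2 X hX h0)), ?_⟩
    exact congrArg Prod.snd (sub_eq_zero.1 h5)

/-- the eigenvalues -/
theorem exists_eigen [IsAlgClosed K] (halt : ∀ v, B v v = 0) (hnd : ∀ u, (∀ v, B u v = 0) → u = 0)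
    (P : Submodule K (End K T × End K E)) (hbr : ∀ X ∈ P, ∀ Y ∈ P, X * Y - Y * X ∈ P)
    {n : End K T} {m : End K E} (hn : Sk B n) (hn2 : n * n = 0)
    (hN : ∀ X ∈ P, (n, m) * X - X * (n, m) ∈ P) (h2 : ∀ X ∈ P, X.2 = 0 → X = 0)
    (h3 : ∀ u v, ∃ y, (SS B u v, y) ∈ P) :
    ∃ (f : End K E) (c : Fin (finrank K (LinearMap.range n)) → K), LinearIndependent ℚ c ∧
      ∀ j (a : K), ∃ Y : End K E, Y ≠ 0 ∧
        (f + (a ^ 2) • m) * Y - Y * (f + (a ^ 2) • m) = (c j * a) • Y := by
  classical
  obtain ⟨e, he1, he2⟩ := exists_frame halt hnd hn hn2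
  obtain ⟨c, hc⟩ := exists_linInd (K := K) (finrank K (LinearMap.range n))
  choose y hy using h3
  have hnn : ∀ x, n (n x) = 0 := fun x => by
    rw [← Module.End.mul_apply, hn2, LinearMap.zero_apply]
  obtain ⟨f, hf⟩ : ∃ f : End K T, f = ∑ j, (2⁻¹ * (c j / 2) ^ 2) • SS B (e j) (e j) := ⟨_, rfl⟩
  obtain ⟨f', hf'⟩ : ∃ f' : End K E, f' = ∑ j, (2⁻¹ * (c j / 2) ^ 2) • y (e j) (e j) := ⟨_, rfl⟩
  have hfP : (f, f') ∈ P := by
    have h4 : (f, f') = ∑ j, (2⁻¹ * (c j / 2) ^ 2) • (SS B (e j) (e j), y (e j) (e j)) := by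
      rw [hf, hf', Prod.ext_iff, Prod.fst_sum, Prod.snd_sum]
      exact ⟨rfl, rfl⟩
    rw [h4]
    exact P.sum_mem fun j _ => P.smul_mem _ (hy _ _)
  have hfe : ∀ i, f (e i) = 0 := by
    intro i
    rw [hf, LinearMap.sum_apply]
    refine Finset.sum_eq_zero fun l _ => ?_
    rw [LinearMap.smul_apply, SS_apply, he2, zero_smul, add_zero, smul_zero]
  have hfu : ∀ i, f (n (e i)) = (c i / 2) ^ 2 • e i := by
    intro i
    rw [hf, LinearMap.sum_apply, Finset.sum_eq_single i]
    · rw [LinearMap.smul_apply, SS_apply, he1, if_pos rfl, one_smul, ← two_smul K, smul_smul]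
      congr 1
      field_simp
    · intro l _ hl
      rw [LinearMap.smul_apply, SS_apply, he1, if_neg hl, zero_smul, add_zero, smul_zero]
    · intro h
      exact absurd (Finset.mem_univ i) h
  have hfs : Sk B f := by
    intro x z
    rw [hf, LinearMap.sum_apply, LinearMap.sum_apply, map_sum, map_sum, LinearMap.sum_apply,
      ← Finset.sum_add_distrib]
    refine Finset.sum_eq_zero fun l _ => ?_
    have h5 := SS_sk halt (e l) (e l) x z
    rw [LinearMap.smul_apply, LinearMap.smul_apply, map_smul, map_smul, LinearMap.smul_apply,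
      ← smul_add, h5, smul_zero]
  refine ⟨f', c, hc, fun j a => ?_⟩
  obtain ⟨w, hw⟩ : ∃ w : T, w = (c j / 2) • e j + a • n (e j) := ⟨_, rfl⟩
  have hw0 : w ≠ 0 := by
    intro h0
    have h5 : B w (n (e j)) = 0 := by rw [h0, map_zero, LinearMap.zero_apply]
    have h6 : B (n (e j)) (n (e j)) = 0 := halt _
    rw [hw, map_add, map_smul, map_smul, LinearMap.add_apply, LinearMap.smul_apply,
      LinearMap.smul_apply, he1, if_pos rfl, h6, smul_zero, add_zero, smul_eq_mul, mul_one] at h5
    have h7 : c j = 0 := by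
      rcases div_eq_zero_iff.1 h5 with h | h
      · exact h
      · exact absurd h two_ne_zero
    exact hc.ne_zero j h7
  have hGw : (f + (a ^ 2) • n) w = (c j / 2 * a) • w := by
    rw [hw, map_add, map_smul, map_smul, LinearMap.add_apply, LinearMap.add_apply,
      LinearMap.smul_apply, LinearMap.smul_apply, hfe, hfu, hnn]
    module
  have hGs : Sk B (f + (a ^ 2) • n) := by
    intro x z
    have h5 := hfs x z
    have h6 := hn x z
    simp only [LinearMap.add_apply, LinearMap.smul_apply, map_add, map_smul, smul_eq_mul]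
    linear_combination h5 + a ^ 2 * h6
  have hkey := lift_eigen P ((f, f') + (a ^ 2) • (n, m)) (μ := c j * a) (x := SS B w w)
    (fun X hX => by
      have h5 : ((f, f') + (a ^ 2) • (n, m)) * X - X * ((f, f') + (a ^ 2) • (n, m)) =
          ((f, f') * X - X * (f, f')) + (a ^ 2) • ((n, m) * X - X * (n, m)) := by
        rw [add_mul, mul_add, smul_mul_assoc, mul_smul_comm, smul_sub]
        abel
      rw [h5]
      exact P.add_mem (hbr _ hfP _ hX) (P.smul_mem _ (hN X hX))) h2
    (fun h0 => hw0 (SS_inj halt hnd hw0 h0)) ⟨_, hy w w⟩ (by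
      change (f + (a ^ 2) • n) * SS B w w - SS B w w * (f + (a ^ 2) • n) = _
      rw [br_SS hGs, hGw, SS_smul_left, SS_smul_right, ← add_smul]
      congr 1
      ring)
  exact hkey

/-- **Comparison of the ranks.** -/
theorem rank_le [IsAlgClosed K] (halt : ∀ v, B v v = 0) (hnd : ∀ u, (∀ v, B u v = 0) → u = 0)
    (P : Submodule K (End K T × End K E)) (hbr : ∀ X ∈ P, ∀ Y ∈ P, X * Y - Y * X ∈ P)
    {n : End K T} {m : End K E} (hn : Sk B n) (hn2 : n * n = 0)
    (hN : ∀ X ∈ P, (n, m) * X - X * (n, m) ∈ P) (h2 : ∀ X ∈ P, X.2 = 0 → X = 0)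
    (h3 : ∀ u v, ∃ y, (SS B u v, y) ∈ P) :
    finrank K (LinearMap.range n) ≤ finrank K (LinearMap.range m) := by
  obtain ⟨f, c, hc, h⟩ := exists_eigen halt hnd P hbr hn hn2 hN h2 h3
  exact rank_of_eigen f m c hc h

/-- **A Lagrangian operator.** -/
theorem exists_lagrangian (halt : ∀ v, B v v = 0) (hnd : ∀ u, (∀ v, B u v = 0) → u = 0) :
    ∃ n : End K T, Sk B n ∧ n * n = 0 ∧ finrank K T ≤ 2 * finrank K (LinearMap.range n) := by
  classical
  obtain ⟨n, ⟨hn, hn2⟩, hmax⟩ : ∃ n : End K T, (Sk B n ∧ n * n = 0) ∧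
      ∀ n' : End K T, Sk B n' → n' * n' = 0 →
        finrank K (LinearMap.range n') ≤ finrank K (LinearMap.range n) := by
    by_contra hcon
    push Not at hcon
    have key : ∀ r : ℕ, ∃ n : End K T, (Sk B n ∧ n * n = 0) ∧
        r ≤ finrank K (LinearMap.range n) := by
      intro r
      induction r with
      | zero =>
        refine ⟨0, ⟨fun x y => ?_, zero_mul _⟩, Nat.zero_le _⟩
        rw [LinearMap.zero_apply, LinearMap.zero_apply, map_zero, map_zero, LinearMap.zero_apply,
          add_zero]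
      | succ r ih =>
        obtain ⟨n, hn, hr⟩ := ih
        obtain ⟨n', h1, h2, h3⟩ := hcon n hn
        exact ⟨n', ⟨h1, h2⟩, by omega⟩
    obtain ⟨n, -, h⟩ := key (finrank K T + 1)
    have := Submodule.finrank_le (LinearMap.range n)
    omega
  refine ⟨n, hn, hn2, ?_⟩
  have hsurj : Function.Surjective B := by
    have hinj : Function.Injective B := by
      rw [← LinearMap.ker_eq_bot, LinearMap.ker_eq_bot']
      intro u hu
      exact hnd u fun v => by rw [hu, LinearMap.zero_apply]
    exact (LinearMap.injective_iff_surjective_of_finrank_eq_finrank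
      (Subspace.dual_finrank_eq (K := K) (V := T)).symm).1 hinj
  have hker : LinearMap.ker n ≤ LinearMap.range n := by
    intro u hu
    rw [LinearMap.mem_ker] at hu
    by_contra hur
    obtain ⟨z, hz, hz1⟩ : ∃ z, n z = 0 ∧ B u z ≠ 0 := by
      by_contra hcon
      push Not at hcon
      have h1 : B u ∈ (LinearMap.ker n).dualAnnihilator := by
        rw [Submodule.mem_dualAnnihilator]
        exact fun z hz => hcon z (LinearMap.mem_ker.1 hz)
      rw [← LinearMap.range_dualMap_eq_dualAnnihilator_ker] at h1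
      obtain ⟨φ, hφ⟩ := h1
      obtain ⟨w, rfl⟩ := hsurj φ
      apply hur
      refine ⟨-w, ?_⟩
      have h2 : u + n w = 0 := hnd _ fun v => by
        have h3 : B w (n v) = B u v := LinearMap.congr_fun hφ v
        have h4 := hn w v
        rw [map_add, LinearMap.add_apply]
        linear_combination h4 - h3
      rw [map_neg]
      exact (eq_neg_of_add_eq_zero_left h2).symm
    have hs : ∀ x, SS B u u x = (2 * B u x) • u := fun x => by
      rw [SS_apply, ← add_smul, ← two_mul]
    have hun : ∀ x, B u (n x) = 0 := fun x => by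
      have h1 := hn u x
      rw [hu, map_zero, LinearMap.zero_apply, zero_add] at h1
      exact h1
    have h1 := hmax (n + SS B u u) (fun x y => by
      have h2 := hn x y
      have h3 := SS_sk halt u u x y
      rw [LinearMap.add_apply, LinearMap.add_apply, map_add, map_add, LinearMap.add_apply]
      linear_combination h2 + h3) (by
      apply LinearMap.ext
      intro x
      have h2 : n (n x) = 0 := by rw [← Module.End.mul_apply, hn2, LinearMap.zero_apply]
      rw [Module.End.mul_apply, LinearMap.add_apply, LinearMap.add_apply, hs, hs, map_add, map_smul,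
        h2, hu, map_add, hun, map_smul, halt]
      simp)
    have h2 : LinearMap.ker (n + SS B u u) < LinearMap.ker n := by
      refine lt_of_le_of_ne (fun x hx => ?_) fun heq => ?_
      · rw [LinearMap.mem_ker, LinearMap.add_apply, hs] at hx
        rw [LinearMap.mem_ker]
        by_cases hx0 : B u x = 0
        · rw [hx0, mul_zero, zero_smul, add_zero] at hx
          exact hx
        · exfalso
          apply hur
          refine ⟨(-(2 * B u x)⁻¹) • x, ?_⟩
          have h3 : n x = -((2 * B u x) • u) := eq_neg_of_add_eq_zero_left hx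
          rw [map_smul, h3, smul_neg, neg_smul, neg_neg, smul_smul, inv_mul_cancel₀
            (mul_ne_zero two_ne_zero hx0), one_smul]
      · have h3 : z ∈ LinearMap.ker (n + SS B u u) := by
          rw [heq]
          exact hz
        rw [LinearMap.mem_ker, LinearMap.add_apply, hz, zero_add, hs] at h3
        rcases smul_eq_zero.1 h3 with h4 | h4
        · exact hz1 ((mul_eq_zero.1 h4).resolve_left two_ne_zero)
        · exact hz1 (by rw [h4, map_zero, LinearMap.zero_apply])
    have h3 := Submodule.finrank_lt_finrank_of_lt h2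
    have h4 := LinearMap.finrank_range_add_finrank_ker n
    have h5 := LinearMap.finrank_range_add_finrank_ker (n + SS B u u)
    omega
  have h1 := LinearMap.finrank_range_add_finrank_ker n
  have h2 := Submodule.finrank_mono hker
  omega

/-- **Comparison of the dimensions.** -/
theorem dim_le [IsAlgClosed K] (halt : ∀ v, B v v = 0) (hnd : ∀ u, (∀ v, B u v = 0) → u = 0)
    (P : Submodule K (End K T × End K E)) (hbr : ∀ X ∈ P, ∀ Y ∈ P, X * Y - Y * X ∈ P)
    (h2 : ∀ X ∈ P, X.2 = 0 → X = 0) (h3 : ∀ u v, ∃ y, (SS B u v, y) ∈ P) :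
    finrank K T ≤ finrank K E := by
  obtain ⟨n, hn, hn2, hdim⟩ := exists_lagrangian halt hnd
  have hmem : n ∈ P.map (LinearMap.fst K _ _) := sk_mem halt hnd (fun a b => by
    obtain ⟨y, hy⟩ := h3 a b
    exact ⟨_, hy, rfl⟩) hn
  obtain ⟨⟨n', m⟩, hX, rfl⟩ := hmem
  obtain ⟨f, c, hc, h⟩ := exists_eigen halt hnd P hbr hn hn2 (fun X hX' => hbr _ hX _ hX') h2 h3
  exact hdim.trans (dim_of_eigen f _ c hc h)

end main

end Pool.Agent.U172.SM
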