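import Mathlib
import Pool.Agent.U172.SM.Rk
import Pool.Agent.V11219.GkLie
import Pool.Agent.V11219.GkDefs
import Pool.Agent.Y126.JB.Log

/-!
# Operators which act in the same way on the source and on the target of equivariant multilinear maps
-/

set_option autoImplicit false
set_option linter.unusedSectionVars false

namespace Pool.Agent.U172.SM

open Module Function Finset Pool.Agent.TH125.Gal Pool.Agent.V11219 Pool.Agent.V11219.Gk
  Pool.Agent.Y126.JB
open Pool.Agent.H204R3.SP (SS SS_apply SS_comm)

section same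

variable {K : Type} [Field K] {T : Type} [AddCommGroup T] [Module K T]
  {E : Type} [AddCommGroup E] [Module K E] {S : Type} [Fintype S] [DecidableEq S]

/-- `X` on the source and `x` on the target act in the same way on `h`. -/
def Same (X : T →ₗ[K] T) (x : E →ₗ[K] E) (h : MultilinearMap K (fun _ : S => T) E) : Prop :=
  ∀ v : S → T, ∑ j, h (update v j (X (v j))) = x (h v)

theorem Same.double {X Y : T →ₗ[K] T} {x y : E →ₗ[K] E} {h : MultilinearMap K (fun _ : S => T) E}
    (hX : Same X x h) (hY : Same Y y h) (v : S → T) :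
    ∑ i, (h (update v i (X (Y (v i)))) +
      ∑ j ∈ univ.erase i, h (update (update v i (Y (v i))) j (X (v j)))) = x (y (h v)) := by
  rw [← hY v, map_sum]
  refine Finset.sum_congr rfl fun i _ => ?_
  have h1 := hX (update v i (Y (v i)))
  rw [← Finset.add_sum_erase _ _ (Finset.mem_univ i), update_self, update_idem] at h1
  rw [← h1]
  congr 1
  refine Finset.sum_congr rfl fun j hj => ?_
  rw [update_of_ne (Finset.ne_of_mem_erase hj)]

/-- brackets -/
theorem Same.bracket {X Y : T →ₗ[K] T} {x y : E →ₗ[K] E} {h : MultilinearMap K (fun _ : S => T) E}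
    (hX : Same X x h) (hY : Same Y y h) : Same (X * Y - Y * X) (x * y - y * x) h := by
  intro v
  have h1 := hX.double hY v
  have h2 := hY.double hX v
  rw [Finset.sum_add_distrib] at h1 h2
  have h3 : ∑ i, ∑ j ∈ univ.erase i, h (update (update v i (Y (v i))) j (X (v j))) =
      ∑ i, ∑ j ∈ univ.erase i, h (update (update v i (X (v i))) j (Y (v j))) := by
    rw [Finset.sum_comm' (s' := fun j => univ.erase j) (t' := univ) (by
      intro x y
      simp only [Finset.mem_univ, Finset.mem_erase, ne_eq, and_true, true_and]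
      exact ⟨fun h h' => h h'.symm, fun h h' => h h'.symm⟩)]
    refine Finset.sum_congr rfl fun j _ => Finset.sum_congr rfl fun i hi => ?_
    rw [update_comm (Finset.ne_of_mem_erase hi)]
  have h4 : ∀ j, h (update v j ((X * Y - Y * X) (v j))) = h (update v j (X (Y (v j)))) -
      h (update v j (Y (X (v j)))) := by
    intro j
    rw [LinearMap.sub_apply, MultilinearMap.map_update_sub]
    rfl
  rw [Finset.sum_congr rfl fun j _ => h4 j, Finset.sum_sub_distrib, LinearMap.sub_apply,
    Module.End.mul_apply, Module.End.mul_apply, ← h1, ← h2, h3]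
  abel

end same

section log

variable {K : Type} [Field K] [CharZero K] {T : Type} [AddCommGroup T] [Module K T]
  {E : Type} [AddCommGroup E] [Module K E] {S : Type} [Fintype S] [DecidableEq S]

open Polynomial in
/-- **logarithms** -/
theorem same_lg (h : MultilinearMap K (fun _ : S => T) E) {u : Module.End K T} {w : Module.End K E}
    {k : ℕ} (hk : 0 < k) (hu : (u - 1) ^ k = 0) (hw : (w - 1) ^ k = 0)
    (hinv : {m : ℕ | ∀ v, h (fun j => (u ^ m) (v j)) = (w ^ m) (h v)}.Infinite) :
    Same (lg K (u - 1) k) (lg K (w - 1) k) h := by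
  intro v
  have e1 : (1 + (u - 1) : Module.End K T) = u := by abel
  have e2 : (1 + (w - 1) : Module.End K E) = w := by abel
  have hpow := fun m => pow_eq (K := K) (u - 1) hu k (by omega) m
  have hpow' := fun m => pow_eq (K := K) (w - 1) hw k (by omega) m
  rw [e1] at hpow
  rw [e2] at hpow'
  have h3 : (fun i => (Al K (u - 1) k ((0 : Fin (k + 2)) : ℕ)) (v i)) = v := by
    funext i
    rw [Fin.val_zero, Al_zero _ hk, Module.End.one_apply]
  rw [← sub_eq_zero, ← Module.forall_dual_apply_eq_zero_iff K]
  intro φ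
  rw [map_sub, sub_eq_zero]
  have hc := pol_coeff h φ (d := k) (fun j l => Al K (u - 1) k l (v j))
  have h4 : ((1 : Fin (k + 2)) : ℕ) = 1 := by simp
  rw [h3, h4] at hc
  change (pol h φ (d := k) (fun j l => Al K (u - 1) k l (v j))).coeff 1 =
    φ (∑ j, h (update v j (lg K (u - 1) k (v j)))) at hc
  rw [← hc]
  have h5 : pol h φ (d := k) (fun j l => Al K (u - 1) k l (v j)) =
      ∑ l : Fin (k + 2), C (φ (Al K (w - 1) k l (h v))) * X ^ (l : ℕ) := by
    refine Polynomial.eq_of_infinite_eval_eq _ _ ((hinv.image (f := fun m : ℕ => (m : K))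
      (Nat.cast_injective.injOn)).mono ?_)
    rintro _ ⟨m, hm, rfl⟩
    rw [Set.mem_ofPred_eq, Pool.Agent.Y126.JB.pol_eval, Polynomial.eval_finsetSum]
    have h6 : (fun j => ∑ l : Fin (k + 2), (m : K) ^ (l : ℕ) • Al K (u - 1) k l (v j)) =
        fun j => (u ^ m) (v j) := by
      funext j
      rw [hpow m, LinearMap.sum_apply]
      rfl
    rw [h6, hm v, hpow' m, LinearMap.sum_apply, map_sum]
    refine Finset.sum_congr rfl fun l _ => ?_
    rw [LinearMap.smul_apply, map_smul, Polynomial.eval_mul, Polynomial.eval_C,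
      Polynomial.eval_pow, Polynomial.eval_X, smul_eq_mul, mul_comm]
  rw [h5, Polynomial.finsetSum_coeff]
  have h7 : ∀ l : Fin (k + 2), (C (φ (Al K (w - 1) k l (h v))) * X ^ (l : ℕ)).coeff 1 =
      if l = (1 : Fin (k + 2)) then φ (Al K (w - 1) k 1 (h v)) else 0 := by
    intro l
    rw [Polynomial.coeff_C_mul, Polynomial.coeff_X_pow]
    by_cases hl : l = 1
    · subst hl
      rw [if_pos rfl, h4, if_pos rfl, mul_one]
    · rw [if_neg hl, if_neg, mul_zero]
      intro h8
      exact hl (Fin.ext (h8.symm.trans h4.symm))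
  rw [Finset.sum_congr rfl fun l _ => h7 l, Finset.sum_ite_eq' Finset.univ (1 : Fin (k + 2)),
    if_pos (Finset.mem_univ _)]
  rfl

/-- the logarithm of a square-zero element -/
theorem lg_sq {A : Type} [Ring A] [Algebra K A] {M : A} {k : ℕ} (hk : 2 ≤ k) (hM : M * M = 0) :
    lg K M k = M := by
  rw [lg, Al, Finset.sum_eq_single 1]
  · rw [bp_one, Polynomial.coeff_X_one, one_smul, pow_one]
  · intro i _ hi
    rcases Nat.lt_or_ge i 2 with h | h
    · have h0 : i = 0 := by omega
      rw [h0, bp_zero, Polynomial.coeff_one, if_neg one_ne_zero, zero_smul]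
    · obtain ⟨l, rfl⟩ := Nat.exists_eq_add_of_le h
      rw [pow_add, pow_two, hM, zero_mul, smul_zero]
  · intro h
    exact absurd (Finset.mem_range.2 hk) h

/-- the logarithm preserves the stable subspaces, and maps them into the images -/
theorem lg_map {M : Module.End K E} {k : ℕ} {U : Submodule K E} (hU : ∀ x ∈ U, M x ∈ U) {x : E}
    (hx : x ∈ U) : lg K M k x ∈ U.map M := by
  have hpow : ∀ n, ∀ x ∈ U, (M ^ n) x ∈ U := by
    intro n
    induction n with
    | zero => exact fun x hx => hx
    | succ n ih =>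
      intro x hx
      rw [pow_succ, Module.End.mul_apply]
      exact ih _ (hU x hx)
  rw [lg, Al, LinearMap.sum_apply]
  refine Submodule.sum_mem _ fun i _ => ?_
  rw [LinearMap.smul_apply]
  rcases Nat.eq_zero_or_pos i with h | h
  · rw [h, bp_zero, Polynomial.coeff_one, if_neg one_ne_zero, zero_smul]
    exact Submodule.zero_mem _
  · refine Submodule.smul_mem _ _ ?_
    obtain ⟨l, rfl⟩ := Nat.exists_eq_add_of_le h
    rw [pow_add, pow_one, Module.End.mul_apply]
    exact ⟨_, hpow l x hx, rfl⟩

end log

end Pool.Agent.U172.SM
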