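import Mathlib
import Pool.Agent.U172.SM.Lie

/-!
# Lie algebras of pairs: the symplectic ideal acts as zero on the pieces with smaller monodromy
-/

set_option autoImplicit false
set_option linter.unusedSectionVars false

namespace Pool.Agent.U172.SM

open Module Function Finset Pool.Agent.V11219 Pool.Agent.V11219.Gk
open Pool.Agent.H204R3.SP (SS SS_apply SS_comm)

section index

variable {K : Type} [Field K] [CharZero K] {A : Type} [Ring A] [Algebra K A]

/-- powers of the commutator -/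
theorem ad_pow (n x : A) (p : ℕ) : ((LinearMap.mulLeft K n - LinearMap.mulRight K n) ^ p) x =
    ∑ i ∈ range (p + 1), (p.choose i : K) • (n ^ i * x * (-n) ^ (p - i)) := by
  have hc : Commute (LinearMap.mulLeft K n) (LinearMap.mulRight K (-n)) :=
    LinearMap.commute_mulLeft_right n (-n)
  have h0 : LinearMap.mulLeft K n - LinearMap.mulRight K n =
      LinearMap.mulLeft K n + LinearMap.mulRight K (-n) := by
    apply LinearMap.ext
    intro y
    change n * y - y * n = n * y + y * (-n)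
    rw [mul_neg, sub_eq_add_neg]
  rw [h0, hc.add_pow, LinearMap.sum_apply]
  refine Finset.sum_congr rfl fun i _ => ?_
  have h2 : ((p.choose i : A →ₗ[K] A)) x = (p.choose i : K) • x := by
    rw [Module.End.natCast_apply, Nat.cast_smul_eq_nsmul]
  rw [Module.End.mul_apply, Module.End.mul_apply, h2, map_smul, map_smul, LinearMap.pow_mulLeft,
    LinearMap.pow_mulRight, LinearMap.mulRight_apply, LinearMap.mulLeft_apply, mul_assoc]

theorem neg_pow_zero {n : A} {p : ℕ} (hn : n ^ p = 0) : (-n) ^ p = 0 := by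
  rw [neg_pow, hn, mul_zero]

theorem ad_pow_zero {n x : A} {p : ℕ} (hn : n ^ p = 0) :
    ((LinearMap.mulLeft K n - LinearMap.mulRight K n) ^ (2 * p)) x = 0 := by
  rw [ad_pow]
  refine Finset.sum_eq_zero fun i _ => ?_
  rcases le_total p i with h | h
  · obtain ⟨l, rfl⟩ := Nat.exists_eq_add_of_le h
    rw [pow_add, hn, zero_mul, zero_mul, zero_mul, smul_zero]
  · obtain ⟨l, hl⟩ : ∃ l, 2 * p - i = p + l := Nat.exists_eq_add_of_le (by omega)
    rw [hl, pow_add (-n) p l, neg_pow_zero hn, zero_mul, mul_zero, smul_zero]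

theorem ad_pow_mid {n x : A} {p : ℕ} (hn : n ^ (p + 1) = 0) :
    ((LinearMap.mulLeft K n - LinearMap.mulRight K n) ^ (2 * p)) x =
      ((2 * p).choose p : K) • (n ^ p * x * (-n) ^ p) := by
  rw [ad_pow, Finset.sum_eq_single p]
  · have h1 : 2 * p - p = p := by omega
    rw [h1]
  · intro i hi hip
    rw [Finset.mem_range] at hi
    rcases Nat.lt_or_ge p i with h | h
    · obtain ⟨l, rfl⟩ := Nat.exists_eq_add_of_le h
      rw [pow_add n (p + 1) l, hn, zero_mul, zero_mul, zero_mul, smul_zero]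
    · obtain ⟨l, hl⟩ : ∃ l, 2 * p - i = (p + 1) + l := Nat.exists_eq_add_of_le (by omega)
      rw [hl, pow_add (-n) (p + 1) l, neg_pow_zero hn, zero_mul, mul_zero, smul_zero]
  · intro h
    exact absurd (Finset.mem_range.2 (by omega)) h

end index

section idx

variable {K : Type} [Field K] [CharZero K] {T : Type} [AddCommGroup T] [Module K T]
  {E : Type} [AddCommGroup E] [Module K E] {B : T →ₗ[K] T →ₗ[K] K}

theorem sk_pow {n : End K T} (hn : Sk B n) (p : ℕ) (x y : T) :
    B ((n ^ p) x) y = (-1) ^ p * B x ((n ^ p) y) := by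
  induction p generalizing x y with
  | zero => simp
  | succ p ih =>
    rw [pow_succ, Module.End.mul_apply, ih, eq_neg_of_add_eq_zero_left (hn x _), pow_succ,
      Module.End.mul_apply]
    have h1 : n ((n ^ p) y) = (n ^ p) (n y) := by
      rw [← Module.End.mul_apply, ← Module.End.mul_apply, ← pow_succ, ← pow_succ']
    rw [h1]
    ring

/-- **Comparison of the indices of nilpotency.** -/
theorem index_false (halt : ∀ v, B v v = 0) (hnd : ∀ u, (∀ v, B u v = 0) → u = 0)
    (P : Submodule K (End K T × End K E)) {n : End K T} {m : End K E} (hn : Sk B n)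
    (hnil : IsNilpotent n) (hN : ∀ X ∈ P, (n, m) * X - X * (n, m) ∈ P)
    (h2 : ∀ X ∈ P, X.2 = 0 → X = 0) (h3 : ∀ u v, ∃ y, (SS B u v, y) ∈ P) {q : ℕ}
    (hq : n ^ q ≠ 0) (hm : m ^ q = 0) : False := by
  classical
  -- the largest nonzero power
  obtain ⟨k, hk⟩ := hnil
  obtain ⟨p, hp0, hp1, hqp⟩ : ∃ p, n ^ p ≠ 0 ∧ n ^ (p + 1) = 0 ∧ q ≤ p := by
    have hex : ∃ j, n ^ j = 0 := ⟨k, hk⟩
    have h4 := Nat.find_spec hex
    have h5 : q < Nat.find hex := by
      by_contra hcon
      push Not at hcon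
      apply hq
      obtain ⟨l, hl⟩ := Nat.exists_eq_add_of_le hcon
      rw [hl, pow_add, h4, zero_mul]
    refine ⟨Nat.find hex - 1, Nat.find_min hex (by omega), ?_, by omega⟩
    rw [Nat.sub_add_cancel (by omega)]
    exact h4
  have hmp : m ^ p = 0 := by
    obtain ⟨l, rfl⟩ := Nat.exists_eq_add_of_le hqp
    rw [pow_add, hm, zero_mul]
  obtain ⟨u, hu⟩ : ∃ u, (n ^ p) u ≠ 0 := by
    by_contra hcon
    push Not at hcon
    exact hp0 (LinearMap.ext hcon)
  obtain ⟨y, hy⟩ := h3 u u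
  -- the powers of the commutator
  obtain ⟨D, hD⟩ : ∃ D : (End K T × End K E) →ₗ[K] (End K T × End K E),
      D = LinearMap.mulLeft K (n, m) - LinearMap.mulRight K (n, m) := ⟨_, rfl⟩
  have hDP : ∀ l, ∀ X ∈ P, (D ^ l) X ∈ P := by
    intro l
    induction l with
    | zero => exact fun X hX => hX
    | succ l ih =>
      intro X hX
      rw [pow_succ, Module.End.mul_apply]
      refine ih _ ?_
      rw [hD]
      exact hN X hX
  have h12 : ∀ l X, (D ^ l) X = (((LinearMap.mulLeft K n - LinearMap.mulRight K n) ^ l) X.1,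
      ((LinearMap.mulLeft K m - LinearMap.mulRight K m) ^ l) X.2) := by
    intro l
    induction l with
    | zero => exact fun X => rfl
    | succ l ih =>
      intro X
      rw [pow_succ, Module.End.mul_apply, ih, pow_succ, Module.End.mul_apply, pow_succ,
        Module.End.mul_apply, hD]
      rfl
  have h4 := hDP (2 * p) _ hy
  have h5 := h12 (2 * p) (SS B u u, y)
  rw [ad_pow_zero hmp, ad_pow_mid hp1] at h5
  rw [h5] at h4
  have h6 := congrArg Prod.fst (h2 _ h4 rfl)
  have h7 : ((2 * p).choose p : K) ≠ 0 := Nat.cast_ne_zero.2 (Nat.choose_pos (by omega)).ne'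
  have h8 : n ^ p * SS B u u * n ^ p = 0 := by
    have h8 : n ^ p * SS B u u * (-n) ^ p = 0 := (smul_eq_zero.1 h6).resolve_left h7
    rcases Nat.even_or_odd p with he | ho
    · rwa [he.neg_pow] at h8
    · rwa [ho.neg_pow, mul_neg, neg_eq_zero] at h8
  have h9 : n ^ p * SS B u u * n ^ p = ((-1 : K) ^ p) • SS B ((n ^ p) u) ((n ^ p) u) := by
    ext x
    have h10 : B ((n ^ p) u) x = (-1) ^ p * B u ((n ^ p) x) := sk_pow hn p u x
    have h11 : ((-1 : K) ^ p) * ((-1) ^ p * B u ((n ^ p) x)) = B u ((n ^ p) x) := by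
      rw [← mul_assoc, ← mul_pow]
      simp
    simp only [Module.End.mul_apply, SS_apply, LinearMap.smul_apply, map_add, map_smul, h10,
      smul_add, smul_smul, h11]
  rw [h9] at h8
  have h10 : SS B ((n ^ p) u) ((n ^ p) u) = 0 :=
    (smul_eq_zero.1 h8).resolve_left (pow_ne_zero _ (neg_ne_zero.2 one_ne_zero))
  exact hu (SS_inj halt hnd hu h10)

end idx

section ab

variable {K Γ : Type} [Field K] [CharZero K] [IsAlgClosed K] [Group Γ] {ι : Type} {V : ι → Type}
  [∀ i, AddCommGroup (V i)] [∀ i, Module K (V i)] [∀ i, FiniteDimensional K (V i)] {M : Type}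
  [AddCommGroup M] [Module K M] [FiniteDimensional K M]
  {B : ∀ i, V i →ₗ[K] V i →ₗ[K] K} {σ : Representation K Γ M}

/-- `U` is stable under the group. -/
def StableSub (σ : Representation K Γ M) (U : Submodule K M) : Prop :=
  ∀ g, ∀ x ∈ U, σ g x ∈ U

/-- A Lie algebra of pairs. -/
structure IsLie (B : ∀ i, V i →ₗ[K] V i →ₗ[K] K) (σ : Representation K Γ M)
    (𝔊 : Submodule K ((∀ i, Module.End K (V i)) × Module.End K M)) : Prop where
  alt : ∀ i v, B i v v = 0
  nondeg : ∀ i v, (∀ w, B i v w = 0) → v = 0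
  br : ∀ X ∈ 𝔊, ∀ Y ∈ 𝔊, X * Y - Y * X ∈ 𝔊
  sk : ∀ X ∈ 𝔊, ∀ i, Sk (B i) (X.1 i)
  stab : ∀ X ∈ 𝔊, ∀ U, StableSub σ U → ∀ x ∈ U, X.2 x ∈ U

/-- The pair `(n, m)` has smaller rank, or smaller index, on `U` than on `V i`, or `U` has smaller
dimension. -/
def Cmp (i : ι) (n : ∀ i, Module.End K (V i)) (m : Module.End K M) (U : Submodule K M) : Prop :=
  (n i * n i = 0 ∧ finrank K (U.map m) < finrank K (LinearMap.range (n i))) ∨
    (IsNilpotent (n i) ∧ ∃ q, (n i) ^ q ≠ 0 ∧ ∀ x ∈ U, (m ^ q) x = 0) ∨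
    finrank K U < finrank K (V i)

/-- brackets of singles -/
theorem single_br [DecidableEq ι] {i : ι} (n : ∀ i, Module.End K (V i)) (x : Module.End K (V i)) :
    n * (Pi.single i x : ∀ i, Module.End K (V i)) - Pi.single i x * n =
      (Pi.single i (n i * x - x * n i) : ∀ i, Module.End K (V i)) := by
  funext j
  by_cases hj : j = i
  · subst hj
    simp
  · simp [hj]

variable [DecidableEq ι] {𝔊 : Submodule K ((∀ i, Module.End K (V i)) × Module.End K M)}

/-- **The step.** -/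
theorem IsLie.step (h : IsLie B σ 𝔊) (i : ι) (F : Finset (Submodule K M))
    (hF : ∀ U ∈ F, StableSub σ U) (U : Submodule K M) (hU : StableSub σ U)
    (hg : ∃ X ∈ 𝔊, Cmp i X.1 X.2 U)
    (hind : ∀ u v, ∃ y, ((Pi.single i (SS (B i) u v) : ∀ i, Module.End K (V i)), y) ∈ 𝔊 ∧
      ∀ U ∈ F, ∀ x ∈ U, y x = 0) :
    ∀ u v, ∃ y, ((Pi.single i (SS (B i) u v) : ∀ i, Module.End K (V i)), y) ∈ 𝔊 ∧
      (∀ U ∈ F, ∀ x ∈ U, y x = 0) ∧ ∀ x ∈ U, y x = 0 := by
  obtain ⟨⟨n, m⟩, hmem, hcmp⟩ := hg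
  dsimp only at hcmp
  -- the Lie algebra of the pairs
  let P : Submodule K (Module.End K (V i) × Module.End K U) :=
    { carrier := {X | ∃ y, ((Pi.single i X.1 : ∀ i, Module.End K (V i)), y) ∈ 𝔊 ∧
        (∀ U ∈ F, ∀ x ∈ U, y x = 0) ∧ ∀ z : U, y z = (X.2 z : M)}
      zero_mem' := by
        refine ⟨0, ?_, fun _ _ _ _ => rfl, fun z => rfl⟩
        rw [Prod.fst_zero, Pi.single_zero]
        exact Submodule.zero_mem _
      add_mem' := by
        rintro X Y ⟨y, h1, h2, h3⟩ ⟨y', h1', h2', h3'⟩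
        refine ⟨y + y', ?_, fun U hU x hx => ?_, fun z => ?_⟩
        · rw [Prod.fst_add, Pi.single_add]
          exact Submodule.add_mem _ h1 h1'
        · rw [LinearMap.add_apply, h2 U hU x hx, h2' U hU x hx, add_zero]
        · rw [LinearMap.add_apply, h3, h3']
          rfl
      smul_mem' := by
        rintro c X ⟨y, h1, h2, h3⟩
        refine ⟨c • y, ?_, fun U hU x hx => ?_, fun z => ?_⟩
        · have h4 := Submodule.smul_mem _ c h1
          rw [Prod.smul_mk, ← Pi.single_smul] at h4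
          exact h4
        · rw [LinearMap.smul_apply, h2 U hU x hx, smul_zero]
        · rw [LinearMap.smul_apply, h3]
          rfl }
  have hPm : ∀ X, X ∈ P ↔ ∃ y, ((Pi.single i X.1 : ∀ i, Module.End K (V i)), y) ∈ 𝔊 ∧
        (∀ U ∈ F, ∀ x ∈ U, y x = 0) ∧ ∀ z : U, y z = (X.2 z : M) := fun X => Iff.rfl
  -- the element `m` preserves `U`
  have hmU : ∀ x ∈ U, m x ∈ U := fun x hx => h.stab _ hmem U hU x hx
  obtain ⟨m', hm'⟩ : ∃ m' : Module.End K U, ∀ z : U, (m' z : M) = m z :=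
    ⟨m.restrict hmU, fun z => rfl⟩
  have hm'p : ∀ (q : ℕ) (z : U), (((m' ^ q) z : U) : M) = (m ^ q) z := by
    intro q
    induction q with
    | zero => exact fun z => rfl
    | succ q ih =>
      intro z
      rw [pow_succ, Module.End.mul_apply, ih, hm', pow_succ, Module.End.mul_apply]
  -- the rank of `m'`
  have hrank : finrank K (LinearMap.range m') ≤ finrank K (U.map m) := by
    rw [← Submodule.finrank_map_subtype_eq U (LinearMap.range m')]
    refine Submodule.finrank_mono ?_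
    rintro _ ⟨_, ⟨z, rfl⟩, rfl⟩
    change (m' z : M) ∈ _
    rw [hm']
    exact ⟨z, z.2, rfl⟩
  have hPbr : ∀ X ∈ P, ∀ Y ∈ P, X * Y - Y * X ∈ P := by
    intro X hX Y hY
    obtain ⟨y, h1, h3, h5⟩ := (hPm X).1 hX
    obtain ⟨y', h1', h3', h5'⟩ := (hPm Y).1 hY
    refine (hPm _).2 ⟨y * y' - y' * y, ?_, fun U hU x hx => ?_, fun z => ?_⟩
    · have h6 := h.br _ h1 _ h1'
      have h7 : (Pi.single i (X * Y - Y * X).1 : ∀ i, Module.End K (V i)) =
          Pi.single i X.1 * Pi.single i Y.1 - Pi.single i Y.1 * Pi.single i X.1 := by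
        rw [← Pi.single_mul, ← Pi.single_mul, ← Pi.single_sub]
        rfl
      rw [h7]
      exact h6
    · rw [LinearMap.sub_apply, Module.End.mul_apply, Module.End.mul_apply, h3 U hU x hx,
        h3' U hU x hx, map_zero, map_zero, sub_zero]
    · rw [LinearMap.sub_apply, Module.End.mul_apply, Module.End.mul_apply, h5, h5', h5, h5']
      rfl
  have hPN : ∀ X ∈ P, (n i, m') * X - X * (n i, m') ∈ P := by
    intro X hX
    obtain ⟨y, h1, h3, h5⟩ := (hPm X).1 hX
    refine (hPm _).2 ⟨m * y - y * m, ?_, fun U' hU' x hx => ?_, fun z => ?_⟩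
    · have h6 := h.br _ hmem _ h1
      have h7 := single_br n X.1
      have h8 : (n, m) * ((Pi.single i X.1 : ∀ i, Module.End K (V i)), y) -
          ((Pi.single i X.1 : ∀ i, Module.End K (V i)), y) * (n, m) =
          ((Pi.single i (n i * X.1 - X.1 * n i) : ∀ i, Module.End K (V i)), m * y - y * m) :=
        Prod.ext h7 rfl
      rw [h8] at h6
      exact h6
    · have h6 : m x ∈ U' := h.stab _ hmem U' (hF U' hU') x hx
      rw [LinearMap.sub_apply, Module.End.mul_apply, Module.End.mul_apply, h3 U' hU' x hx,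
        h3 U' hU' _ h6, map_zero, sub_zero]
    · have h6 : m (z : M) = ((m' z : U) : M) := (hm' z).symm
      rw [LinearMap.sub_apply, Module.End.mul_apply, Module.End.mul_apply, h5, h6, h5, ← hm']
      rfl
  have hPf : ∀ u v, ∃ y, (SS (B i) u v, y) ∈ P := by
    intro u v
    obtain ⟨y, h1, h3⟩ := hind u v
    have hyU : ∀ x ∈ U, y x ∈ U := fun x hx => h.stab _ h1 U hU x hx
    exact ⟨y.restrict hyU, (hPm _).2 ⟨y, h1, h3, fun z => rfl⟩⟩
  -- the kernel
  have hcase : ¬ ∀ X ∈ P, X.2 = 0 → X = 0 := by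
    intro h2
    rcases hcmp with ⟨hn2, hlt⟩ | ⟨hnil, q, hq, hmq⟩ | hdim
    · have h4 := rank_le (B := B i) (h.alt i) (h.nondeg i) P hPbr (n := n i) (m := m')
        (h.sk _ hmem i) hn2 hPN h2 hPf
      omega
    · refine index_false (h.alt i) (h.nondeg i) P (n := n i) (m := m') (h.sk _ hmem i) hnil hPN h2
        hPf hq ?_
      apply LinearMap.ext
      intro z
      apply Subtype.ext
      rw [hm'p]
      exact hmq z z.2
    · have h4 := dim_le (B := B i) (h.alt i) (h.nondeg i) P hPbr h2 hPf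
      omega
  push Not at hcase
  obtain ⟨X, hX, hX2, hX0⟩ := hcase
  obtain ⟨y, h1, h3, h5⟩ := (hPm X).1 hX
  have hX1 : X.1 ≠ 0 := fun h0 => hX0 (Prod.ext h0 hX2)
  -- the ideal
  let L : Submodule K (Module.End K (V i)) :=
    { carrier := {x | ∃ y, ((Pi.single i x : ∀ i, Module.End K (V i)), y) ∈ 𝔊 ∧
        (∀ U ∈ F, ∀ x ∈ U, y x = 0) ∧ ∀ x ∈ U, y x = 0}
      zero_mem' := by
        refine ⟨0, ?_, fun _ _ _ _ => rfl, fun _ _ => rfl⟩
        rw [Pi.single_zero]
        exact Submodule.zero_mem _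
      add_mem' := by
        rintro X Y ⟨y, h1, h2, h3⟩ ⟨y', h1', h2', h3'⟩
        refine ⟨y + y', ?_, fun U hU x hx => ?_, fun x hx => ?_⟩
        · rw [Pi.single_add]
          exact Submodule.add_mem _ h1 h1'
        · rw [LinearMap.add_apply, h2 U hU x hx, h2' U hU x hx, add_zero]
        · rw [LinearMap.add_apply, h3 x hx, h3' x hx, add_zero]
      smul_mem' := by
        rintro c X ⟨y, h1, h2, h3⟩
        refine ⟨c • y, ?_, fun U hU x hx => ?_, fun x hx => ?_⟩
        · have h4 := Submodule.smul_mem _ c h1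
          rw [Prod.smul_mk, ← Pi.single_smul] at h4
          exact h4
        · rw [LinearMap.smul_apply, h2 U hU x hx, smul_zero]
        · rw [LinearMap.smul_apply, h3 x hx, smul_zero] }
  have hLm : ∀ x, x ∈ L ↔ ∃ y, ((Pi.single i x : ∀ i, Module.End K (V i)), y) ∈ 𝔊 ∧
        (∀ U ∈ F, ∀ x ∈ U, y x = 0) ∧ ∀ x ∈ U, y x = 0 := fun x => Iff.rfl
  intro u v
  refine (hLm _).1 (ideal_full (L := L) (h.alt i) (h.nondeg i) ?_ ?_
    (A := X.1) ((hLm _).2 ⟨y, h1, h3, fun x hx => ?_⟩) hX1 u v)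
  · intro A hA
    obtain ⟨y, h1, -⟩ := (hLm A).1 hA
    have h4 := h.sk _ h1 i
    change Sk (B i) ((Pi.single i A : ∀ i, Module.End K (V i)) i) at h4
    rw [Pi.single_eq_same] at h4
    exact h4
  · intro a b A hA
    obtain ⟨y, h1, h3, h4⟩ := (hLm A).1 hA
    obtain ⟨y', h1', h3'⟩ := hind a b
    refine (hLm _).2 ⟨y' * y - y * y', ?_, fun U' hU' x hx => ?_, fun x hx => ?_⟩
    · have h6 := h.br _ h1' _ h1
      have h7 : (Pi.single i (SS (B i) a b * A - A * SS (B i) a b) : ∀ i, Module.End K (V i)) =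
          Pi.single i (SS (B i) a b) * Pi.single i A - Pi.single i A * Pi.single i (SS (B i) a b) := by
        rw [← Pi.single_mul, ← Pi.single_mul, ← Pi.single_sub]
      rw [h7]
      exact h6
    · rw [LinearMap.sub_apply, Module.End.mul_apply, Module.End.mul_apply, h3 U' hU' x hx,
        h3' U' hU' x hx, map_zero, map_zero, sub_zero]
    · have h6 : y' x ∈ U := h.stab _ h1' U hU x hx
      rw [LinearMap.sub_apply, Module.End.mul_apply, Module.End.mul_apply, h4 x hx, h4 _ h6,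
        map_zero, sub_zero]
  · have h6 := h5 ⟨x, hx⟩
    rw [hX2] at h6
    exact h6

/-- **The symplectic Lie algebra is in the Lie algebra, with the second component zero.** -/
theorem IsLie.single_mem (h : IsLie B σ 𝔊) (i : ι)
    (hbig : ∀ u v, ∃ y, ((Pi.single i (SS (B i) u v) : ∀ i, Module.End K (V i)), y) ∈ 𝔊)
    (𝒰 : Set (Submodule K M)) (h𝒰 : ∀ U ∈ 𝒰, StableSub σ U ∧ ∃ X ∈ 𝔊, Cmp i X.1 X.2 U)
    (hsup : sSup 𝒰 = ⊤) (u v : V i) :
    ((Pi.single i (SS (B i) u v) : ∀ i, Module.End K (V i)), (0 : Module.End K M)) ∈ 𝔊 := by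
  classical
  obtain ⟨F, hF, hF2⟩ := CompleteLattice.WellFoundedGT.isSupFiniteCompact (Submodule K M) 𝒰
  rw [hsup] at hF2
  have key : ∀ F : Finset (Submodule K M), (F : Set (Submodule K M)) ⊆ 𝒰 → ∀ u v, ∃ y,
      ((Pi.single i (SS (B i) u v) : ∀ i, Module.End K (V i)), y) ∈ 𝔊 ∧
      ∀ U ∈ F, ∀ x ∈ U, y x = 0 := by
    intro F
    induction F using Finset.induction_on with
    | empty =>
      intro _ u v
      obtain ⟨y, hy⟩ := hbig u v
      exact ⟨y, hy, fun U hU => absurd hU (Finset.notMem_empty U)⟩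
    | insert U F hUF ih =>
      intro hsub u v
      rw [Finset.coe_insert, Set.insert_subset_iff] at hsub
      obtain ⟨hU1, hU2⟩ := h𝒰 U hsub.1
      obtain ⟨y, h1, h2, h3⟩ := h.step i F (fun U' hU' => (h𝒰 U' (hsub.2
        (Finset.mem_coe.2 hU'))).1) U hU1 hU2 (ih hsub.2) u v
      refine ⟨y, h1, fun U' hU' => ?_⟩
      rcases Finset.mem_insert.1 hU' with rfl | hU'
      · exact h3
      · exact h2 U' hU'
  obtain ⟨y, h1, h2⟩ := key F hF u v
  have hy : y = 0 := by
    have h3 : F.sup id ≤ LinearMap.ker y := Finset.sup_le fun U hU x hx =>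
      LinearMap.mem_ker.2 (h2 U hU x hx)
    rw [← hF2] at h3
    exact LinearMap.ker_eq_top.1 (top_le_iff.1 h3)
  rw [← hy]
  exact h1

end ab

end Pool.Agent.U172.SM
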