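import Pool.Agent.V11219.BsyDefs

/-!
# Smaller monodromy: systems of varieties over a base with arbitrary bad reduction
-/

open CategoryTheory AlgebraicGeometry

universe u

namespace Pool.Agent.U172.SM

open Pool.Agent.TH125.Gal Pool.Agent.V11219.Min Pool.Agent.V11219.Bst

section Alg

variable {K A A' Γ : Type} [Field K] [Ring A] [Algebra K A] [Ring A'] [Algebra K A'] [Group Γ]

/-- `T` is contained in `U`. -/
def Inside (T U : Submodule K A) : Prop := ∀ x ∈ T, x ∈ U

/-- `U` is stable under the group. -/
def StableUnder (U : Submodule K A) (ρ : Act K A Γ) : Prop := ∀ g : Γ, ∀ x ∈ U, ρ g x ∈ U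

/-- `g` acts unipotently on `T`. -/
def UnipotentOn (T : Submodule K A) (ρ : Act K A Γ) (g : Γ) : Prop :=
  ∃ m : ℕ, ∀ t ∈ T, (dif ρ g ^ m) t = 0

/-- `g` acts unipotently on the whole space. -/
def Unipotent (ρ : Act K A Γ) (g : Γ) : Prop := UnipotentOn ⊤ ρ g

/-- The rank of `g - 1` on `T`. -/
noncomputable def rankOn (T : Submodule K A) (ρ : Act K A Γ) (g : Γ) : ℕ :=
  Module.finrank K (T.map (dif ρ g))

/-- The subspace `U` of `A'` has smaller dimension than the subspace `T` of `A`, or there is an element
`g` of `N` for which the rank of `g - 1` on `U` is smaller than the rank of `g - 1` on `T`. -/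
def Smaller (U : Submodule K A') (ρ' : Act K A' Γ) (T : Submodule K A) (ρ : Act K A Γ)
    (N : Set Γ) : Prop :=
  Module.finrank K U < Module.finrank K T ∨ ∃ g ∈ N, rankOn U ρ' g < rankOn T ρ g

/-- The subspace `T'` of `A'` is a sum of subspaces which are stable under the group and `Smaller` than
the subspace `T` of `A`. -/
def SmallerRanks (T' : Submodule K A') (ρ' : Act K A' Γ) (T : Submodule K A) (ρ : Act K A Γ)
    (N : Set Γ) : Prop :=
  ∃ 𝒰 : Set (Submodule K A'), sSup 𝒰 = T' ∧ ∀ U ∈ 𝒰, StableUnder U ρ' ∧ Smaller U ρ' T ρ N

/-- The same for the whole space `A'`. -/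
def SmallerRanksAll (ρ' : Act K A' Γ) (T : Submodule K A) (ρ : Act K A Γ) (N : Set Γ) : Prop :=
  SmallerRanks ⊤ ρ' T ρ N

end Alg

open Pool.Agent.H914 Pool.Agent.H914.VarClass Pool.Agent.H914.VarClass.Obj
  Pool.Agent.H914.WeilCohomology Pool.Agent.H281R3.HT

variable {k : Type u} [Field k] {𝒱 : VarClass k} {ops : CycleOps 𝒱}
  {W : WeilCohomology.{u, 0} ops} {Γ : Type} [Group Γ] {ι β : Type}

/-- The transcendental cohomology of `A` is in the middle degree. -/
def MiddleDegree (A : GVar W Γ) : Prop := Inside (transcendental W A.X) (W.gr A.X A.X.dim)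

/-- The transcendental cohomology of `A` is irreducible under all subgroups of finite index. -/
def IrredVar (A : GVar W Γ) : Prop := IrredAct A.act (transcendental W A.X)

/-- The element `g` acts unipotently on the transcendental cohomology of `A`. -/
def UnipotentTrans (A : GVar W Γ) (g : Γ) : Prop := UnipotentOn (transcendental W A.X) A.act g

/-- The element `g` acts unipotently on the cohomology of `A`. -/
def UnipotentAll (A : GVar W Γ) (g : Γ) : Prop := Unipotent A.act g

/-- The elements `g` of `Γ` with `χ g = 1` and with `(g - 1) ^ 2 = 0` on the transcendental cohomology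
of all `X i`, which act unipotently on the transcendental cohomology of all `Y b` and on the
cohomology of `Z`. -/
def common (χ : CharOf W Γ) (X : ι → GVar W Γ) (Y : β → GVar W Γ) (Z : GVar W Γ) : Set Γ :=
  {g | InKer χ g ∧ (∀ i, QuadVar (X i) g) ∧ (∀ b, UnipotentTrans (Y b) g) ∧ UnipotentAll Z g}

/-- The transcendental cohomology of `B` is a sum of stable subspaces of smaller dimension, or on which
elements of `N` have smaller ranks, than the transcendental cohomology of `A`. -/
def SmallerTrans (B A : GVar W Γ) (N : Set Γ) : Prop :=
  SmallerRanks (transcendental W B.X) B.act (transcendental W A.X) A.act N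

/-- The whole cohomology of `B` is a sum of stable subspaces of smaller dimension, or on which elements
of `N` have smaller ranks, than the transcendental cohomology of `A`. -/
def SmallerAll (B A : GVar W Γ) (N : Set Γ) : Prop :=
  SmallerRanksAll B.act (transcendental W A.X) A.act N

/-- The varieties `Y b₁ × (Y b₂ × ( ⋯ × Z))` for all finite sequences `b₁, b₂, …` (repetitions are
allowed), with actions on the cohomology which are compatible with the projections. -/
inductive Products (Y : β → GVar W Γ) (Z : GVar W Γ) : GVar W Γ → Prop
  | base : Products Y Z Z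
  | step (b : β) (A : GVar W Γ) (υ : ActOn W Γ ((Y b).X.prod A.X)) : Products Y Z A →
      Compatible (Y b) A υ → Products Y Z (GVar.mk ((Y b).X.prod A.X) υ)

/-- The group acts on the cohomology of the members of the class `G` like a Galois group, and `G`
is closed under products. The varieties `X i` and `Y b` are members of `G`. The `X i` have odd
dimension; the divisors `D i` on them satisfy the hard Lefschetz theorem and the standard conjectures of
Lefschetz and of Hodge type; their transcendental cohomology is in the middle degree and irreducible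
under all subgroups of finite index; no two of them are isomorphic up to scalars; and the set
`common` satisfies `SmallDefects` on `X i`. Numerical and homological equivalence coincide for the
`Y b`. For all `i` and `b`, the transcendental cohomology of `Y b` and the whole cohomology of `Z` are
sums of stable subspaces each of which has smaller dimension than the transcendental cohomology of
`X i`, or some element of `common` has a smaller rank on it. -/
structure RankSystem (χ : CharOf W Γ) (G : Set (GVar W Γ)) (X : ι → GVar W Γ)
    (D : ∀ i, (X i).X.Cycles) (Y : β → GVar W Γ) (Z : GVar W Γ) : Prop where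
  galois : ∀ A ∈ G, GaloisVar χ A
  prod : ClosedProd G
  mem : ∀ i, X i ∈ G
  mem' : ∀ b, Y b ∈ G
  odd : ∀ i, Odd (X i).X.dim
  polarization : ∀ i, IsPolarization W (X i).X (D i)
  middle : ∀ i, MiddleDegree (X i)
  irreducible : ∀ i, IrredVar (X i)
  distinct : ∀ i j, i ≠ j → ¬ IsoUpToScalars (X i) (X j)
  small : ∀ i, SmallVar (X i) (common χ X Y Z)
  homEqNum : ∀ b, HomEqNum W (Y b).X
  smaller : ∀ i b, SmallerTrans (Y b) (X i) (common χ X Y Z)
  smallerBase : ∀ i, SmallerAll Z (X i) (common χ X Y Z)

end Pool.Agent.U172.SM
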