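import Mathlib
import Pool.Agent.U172.SM.Ab
import Pool.Agent.V11219.GkMain

/-!
# The Lie algebra of the operators which act in the same way on source and target, relative version
-/

set_option autoImplicit false
set_option linter.unusedSectionVars false

namespace Pool.Agent.U172.SM

open Module Function Finset Pool.Agent.TH125.Gal Pool.Agent.V11219 Pool.Agent.V11219.Gk
  Pool.Agent.Y126.JB
open Pool.Agent.H204R3.SP (SS SS_apply SS_comm)

theorem lg_hom {K : Type} [Field K] {A C : Type} [Ring A] [Algebra K A] [Ring C] [Algebra K C]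
    (f : A →ₐ[K] C) (N : A) (k : ℕ) : f (lg K N k) = lg K (f N) k := by
  rw [lg, Al, map_sum, lg, Al]
  refine Finset.sum_congr rfl fun i _ => ?_
  rw [map_smul, map_pow]

variable {K Γ : Type} [Field K] [CharZero K] [IsAlgClosed K] [Group Γ] {ι : Type} [Fintype ι]
  [DecidableEq ι] {V : ι → Type} [∀ i, AddCommGroup (V i)] [∀ i, Module K (V i)]
  [∀ i, FiniteDimensional K (V i)] {W : Type} [AddCommGroup W] [Module K W]
  [FiniteDimensional K W] {M : Type} [AddCommGroup M] [Module K M] [FiniteDimensional K M]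
  {μ : ι → Γ →* K} {ρ : ∀ i, Representation K Γ (V i)} {B : ∀ i, V i →ₗ[K] V i →ₗ[K] K}
  {τ : Representation K Γ W} {σ : Representation K Γ M} {S : Type} [Fintype S] [DecidableEq S]

/-- The product of two representations. -/
noncomputable def sR (τ : Representation K Γ W) (σ : Representation K Γ M) :
    Representation K Γ (W × M) where
  toFun g := (τ g).prodMap (σ g)
  map_one' := by
    apply LinearMap.ext
    intro x
    rw [map_one, map_one]
    rfl
  map_mul' g g' := by
    apply LinearMap.ext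
    intro x
    rw [map_mul, map_mul]
    rfl

theorem sR_apply (g : Γ) (x : W × M) : sR τ σ g x = (τ g x.1, σ g x.2) := rfl

/-- The first diagonal component. -/
noncomputable def yW : Module.End K (W × M) →ₗ[K] Module.End K W where
  toFun y := LinearMap.fst K W M ∘ₗ y ∘ₗ LinearMap.inl K W M
  map_add' _ _ := rfl
  map_smul' _ _ := rfl

/-- The second diagonal component. -/
noncomputable def yM : Module.End K (W × M) →ₗ[K] Module.End K M where
  toFun y := LinearMap.snd K W M ∘ₗ y ∘ₗ LinearMap.inr K W M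
  map_add' _ _ := rfl
  map_smul' _ _ := rfl

theorem yW_apply (y : Module.End K (W × M)) (w : W) : yW y w = (y (w, 0)).1 := rfl

theorem yM_apply (y : Module.End K (W × M)) (m : M) : yM y m = (y (0, m)).2 := rfl

/-- The operator on the product. -/
noncomputable def dgA : ((∀ i, Module.End K (V i)) × Module.End K W) →ₐ[K]
    Module.End K ((∀ i, V i) × W) :=
  AlgHom.ofLinearMap dg (by
    apply LinearMap.ext
    intro x
    rfl) dg_mul

theorem dgA_apply (X : (∀ i, Module.End K (V i)) × Module.End K W) : dgA X = dg X := rfl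

/-- The Lie algebra. -/
noncomputable def GR (S : Type) [Fintype S] [DecidableEq S] (ρ : ∀ i, Representation K Γ (V i))
    (B : ∀ i, V i →ₗ[K] V i →ₗ[K] K) (τ : Representation K Γ W) (σ : Representation K Γ M) :
    Submodule K ((∀ i, Module.End K (V i)) × Module.End K (W × M)) where
  carrier := {X | (∀ i, Sk (B i) (X.1 i)) ∧
    (∀ U, StableSub (sR τ σ) U → ∀ x ∈ U, X.2 x ∈ U) ∧
    ∀ h : MultilinearMap K (fun _ : S => (∀ i, V i) × W) M, Eqv (rT ρ τ) σ h →
      Same (dg (X.1, yW X.2)) (yM X.2) h}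
  zero_mem' := by
    refine ⟨fun i x y => ?_, fun U _ x _ => U.zero_mem, fun h _ v => ?_⟩
    · change B i (0 : V i) y + B i x 0 = 0
      simp
    · change ∑ j, h (update v j ((dg ((0 : (∀ i, Module.End K (V i)) × Module.End K W))) (v j))) =
        (0 : M →ₗ[K] M) (h v)
      rw [map_zero, LinearMap.zero_apply]
      refine Finset.sum_eq_zero fun j _ => ?_
      rw [LinearMap.zero_apply]
      exact h.map_coord_zero j (update_self _ _ _)
  add_mem' := by
    rintro X Y ⟨h1, h2, h3⟩ ⟨h1', h2', h3'⟩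
    refine ⟨fun i x y => ?_, fun U hU x hx => U.add_mem (h2 U hU x hx) (h2' U hU x hx),
      fun h hh v => ?_⟩
    · change B i (X.1 i x + Y.1 i x) y + B i x (X.1 i y + Y.1 i y) = 0
      rw [map_add, map_add, LinearMap.add_apply]
      linear_combination h1 i x y + h1' i x y
    · have h4 := h3 h hh v
      have h5 := h3' h hh v
      have e1 : dg ((X + Y).1, yW (X + Y).2) = dg (X.1, yW X.2) + dg (Y.1, yW Y.2) := by
        rw [← map_add]
        rfl
      have e2 : yM (X + Y).2 = yM X.2 + yM Y.2 := rfl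
      rw [e1, e2, LinearMap.add_apply, ← h4, ← h5, ← Finset.sum_add_distrib]
      refine Finset.sum_congr rfl fun j _ => ?_
      rw [LinearMap.add_apply, MultilinearMap.map_update_add]
  smul_mem' := by
    rintro c X ⟨h1, h2, h3⟩
    refine ⟨fun i x y => ?_, fun U hU x hx => U.smul_mem _ (h2 U hU x hx), fun h hh v => ?_⟩
    · change B i (c • X.1 i x) y + B i x (c • X.1 i y) = 0
      rw [map_smul, map_smul, LinearMap.smul_apply, smul_eq_mul, smul_eq_mul]
      linear_combination c * h1 i x y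
    · have h4 := h3 h hh v
      have e1 : dg ((c • X).1, yW (c • X).2) = c • dg (X.1, yW X.2) := by
        rw [← map_smul]
        rfl
      have e2 : yM (c • X).2 = c • yM X.2 := rfl
      rw [e1, e2, LinearMap.smul_apply, ← h4, Finset.smul_sum]
      refine Finset.sum_congr rfl fun j _ => ?_
      rw [LinearMap.smul_apply, MultilinearMap.map_update_smul]

theorem mem_GR {X : (∀ i, Module.End K (V i)) × Module.End K (W × M)} : X ∈ GR S ρ B τ σ ↔
    (∀ i, Sk (B i) (X.1 i)) ∧ (∀ U, StableSub (sR τ σ) U → ∀ x ∈ U, X.2 x ∈ U) ∧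
    ∀ h : MultilinearMap K (fun _ : S => (∀ i, V i) × W) M, Eqv (rT ρ τ) σ h →
      Same (dg (X.1, yW X.2)) (yM X.2) h := Iff.rfl

/-- stable operators are diagonal -/
theorem diag_W {y : Module.End K (W × M)} (h : ∀ U, StableSub (sR τ σ) U → ∀ x ∈ U, y x ∈ U)
    (w : W) : y (w, 0) = (yW y w, 0) := by
  have h1 := h (LinearMap.range (LinearMap.inl K W M)) (by
    rintro g _ ⟨w, rfl⟩
    exact ⟨τ g w, by rw [sR_apply]; simp⟩) (w, 0) ⟨w, rfl⟩
  obtain ⟨w', hw'⟩ := h1
  rw [yW_apply, ← hw']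
  rfl

theorem diag_M {y : Module.End K (W × M)} (h : ∀ U, StableSub (sR τ σ) U → ∀ x ∈ U, y x ∈ U)
    (m : M) : y (0, m) = (0, yM y m) := by
  have h1 := h (LinearMap.range (LinearMap.inr K W M)) (by
    rintro g _ ⟨w, rfl⟩
    exact ⟨σ g w, by rw [sR_apply]; simp⟩) (0, m) ⟨m, rfl⟩
  obtain ⟨m', hm'⟩ := h1
  rw [yM_apply, ← hm']
  rfl

theorem GR_br {X Y : (∀ i, Module.End K (V i)) × Module.End K (W × M)} (hX : X ∈ GR S ρ B τ σ)
    (hY : Y ∈ GR S ρ B τ σ) : X * Y - Y * X ∈ GR S ρ B τ σ := by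
  rw [mem_GR] at hX hY ⊢
  obtain ⟨h1, h2, h3⟩ := hX
  obtain ⟨h1', h2', h3'⟩ := hY
  refine ⟨fun i => sk_br (h1 i) (h1' i), fun U hU x hx => ?_, fun h hh => ?_⟩
  · exact U.sub_mem (h2 U hU _ (h2' U hU x hx)) (h2' U hU _ (h2 U hU x hx))
  · have h4 := (h3 h hh).bracket (h3' h hh)
    have e1 : ∀ {y y' : Module.End K (W × M)}, (∀ U, StableSub (sR τ σ) U → ∀ x ∈ U, y' x ∈ U) →
        yW (y * y') = yW y * yW y' := by
      intro y y' hy
      apply LinearMap.ext
      intro w
      rw [yW_apply, Module.End.mul_apply, diag_W hy, Module.End.mul_apply, yW_apply]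
      rfl
    have e2 : ∀ {y y' : Module.End K (W × M)}, (∀ U, StableSub (sR τ σ) U → ∀ x ∈ U, y' x ∈ U) →
        yM (y * y') = yM y * yM y' := by
      intro y y' hy
      apply LinearMap.ext
      intro w
      rw [yM_apply, Module.End.mul_apply, diag_M hy, Module.End.mul_apply, yM_apply]
      rfl
    have e3 : dg ((X * Y - Y * X).1, yW (X * Y - Y * X).2) =
        dg (X.1, yW X.2) * dg (Y.1, yW Y.2) - dg (Y.1, yW Y.2) * dg (X.1, yW X.2) := by
      rw [← dg_mul, ← dg_mul, ← map_sub]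
      congr 1
      refine Prod.ext rfl ?_
      change yW (X.2 * Y.2 - Y.2 * X.2) = yW X.2 * yW Y.2 - yW Y.2 * yW X.2
      rw [map_sub, e1 h2', e1 h2]
    have e4 : yM (X * Y - Y * X).2 = yM X.2 * yM Y.2 - yM Y.2 * yM X.2 := by
      change yM (X.2 * Y.2 - Y.2 * X.2) = yM X.2 * yM Y.2 - yM Y.2 * yM X.2
      rw [map_sub, e2 h2', e2 h2]
    rw [e3, e4]
    exact h4

theorem GR_conj (hB : ∀ i g v w, B i (ρ i g v) (ρ i g w) = μ i g * B i v w)
    {X : (∀ i, Module.End K (V i)) × Module.End K (W × M)} (hX : X ∈ GR S ρ B τ σ) (g : Γ) :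
    ((fun i => ρ i g * X.1 i * ρ i g⁻¹), sR τ σ g * X.2 * sR τ σ g⁻¹) ∈ GR S ρ B τ σ := by
  rw [mem_GR] at hX ⊢
  obtain ⟨h1, h2, h3⟩ := hX
  refine ⟨fun i => sk_conj (hB i) (h1 i) g, fun U hU x hx => hU g _ (h2 U hU _ (hU g⁻¹ x hx)),
    fun h hh v => ?_⟩
  have h4 := h3 _ (eqv_twist hh g) (fun j => rT ρ τ g⁻¹ (v j))
  have hinv : ∀ x, rT ρ τ g (rT ρ τ g⁻¹ x) = x := by
    intro x
    rw [← Module.End.mul_apply, ← map_mul, mul_inv_cancel, map_one]
    rfl
  have h5 : ∀ w : S → (∀ i, V i) × W, ((σ g⁻¹).compMultilinearMap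
      (h.compLinearMap fun _ => rT ρ τ g)) w = σ g⁻¹ (h fun j => rT ρ τ g (w j)) := fun w => rfl
  rw [h5] at h4
  have h6 : (fun j => rT ρ τ g (rT ρ τ g⁻¹ (v j))) = v := by
    funext j
    exact hinv _
  rw [h6] at h4
  have e0 : ∀ m : M, sR τ σ g⁻¹ ((0 : W), m) = (0, σ g⁻¹ m) := fun m =>
    Prod.ext (map_zero (τ g⁻¹)) rfl
  have e0' : ∀ w : W, sR τ σ g⁻¹ (w, (0 : M)) = (τ g⁻¹ w, 0) := fun m =>
    Prod.ext rfl (map_zero (σ g⁻¹))
  have e1 : yM (sR τ σ g * X.2 * sR τ σ g⁻¹) (h v) = σ g (yM X.2 (σ g⁻¹ (h v))) := by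
    rw [yM_apply, Module.End.mul_apply, Module.End.mul_apply, e0, diag_M h2, sR_apply]
  have e2 : yW (sR τ σ g * X.2 * sR τ σ g⁻¹) = τ g * yW X.2 * τ g⁻¹ := by
    apply LinearMap.ext
    intro w
    rw [yW_apply, Module.End.mul_apply, Module.End.mul_apply, e0', diag_W h2, sR_apply]
    rfl
  dsimp only
  rw [e1, e2, ← h4, map_sum]
  refine Finset.sum_congr rfl fun j _ => ?_
  rw [h5, ← Module.End.mul_apply, ← map_mul, mul_inv_cancel, map_one, Module.End.one_apply]
  congr 1
  funext l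
  by_cases hl : l = j
  · subst hl
    rw [update_self, update_self]
    rfl
  · rw [update_of_ne hl, update_of_ne hl, hinv]

/-- unipotent elements -/
theorem GR_unip (hB : ∀ i g v w, B i (ρ i g v) (ρ i g w) = μ i g * B i v w) {g : Γ}
    (hμ : ∀ i, μ i g = 1) {k : ℕ} (hk : 0 < k) (hρ : ∀ i, (ρ i g - 1) ^ k = 0)
    (hτ : (τ g - 1) ^ k = 0) (hσ : (σ g - 1) ^ k = 0) :
    ((fun i => lg K (ρ i g - 1) k), lg K (sR τ σ g - 1) k) ∈ GR S ρ B τ σ := by
  have hsub : sR τ σ g - 1 = (LinearMap.prodMapAlgHom K W M) (τ g - 1, σ g - 1) := by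
    apply LinearMap.ext
    intro x
    rfl
  have hlgR : lg K (sR τ σ g - 1) k = (LinearMap.prodMapAlgHom K W M)
      (lg K (τ g - 1) k, lg K (σ g - 1) k) := by
    rw [hsub, ← lg_hom]
    congr 1
    refine Prod.ext ?_ ?_
    · exact lg_hom (AlgHom.fst K (Module.End K W) (Module.End K M)) (τ g - 1, σ g - 1) k
    · exact lg_hom (AlgHom.snd K (Module.End K W) (Module.End K M)) (τ g - 1, σ g - 1) k
  have hW : yW (lg K (sR τ σ g - 1 : Module.End K (W × M)) k) = lg K (τ g - 1) k := by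
    rw [hlgR]
    apply LinearMap.ext
    intro w
    rfl
  have hM : yM (lg K (sR τ σ g - 1 : Module.End K (W × M)) k) = lg K (σ g - 1) k := by
    rw [hlgR]
    apply LinearMap.ext
    intro w
    rfl
  rw [mem_GR]
  refine ⟨fun i => ?_, fun U hU x hx => ?_, fun h hh => ?_⟩
  · have h1 := lg_mem (S := Fin 0) (B := B i) (ρ := ρ i) (E := K) (σ := (1 : Γ →* (K →ₗ[K] K)))
      (g := g) (hρ i) (fun x y => by rw [hB, hμ, one_mul]) rfl
    exact h1.1
  · have h1 : ∀ x ∈ U, (sR τ σ g - 1) x ∈ U := fun x hx => U.sub_mem (hU g x hx) hx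
    obtain ⟨y, hy, hyx⟩ := lg_map (K := K) (k := k) h1 hx
    change lg K (sR τ σ g - 1) k x ∈ U
    rw [← hyx]
    exact h1 y hy
  · dsimp only
    rw [hW, hM]
    obtain ⟨a, ha⟩ : ∃ a : (∀ i, Module.End K (V i)) × Module.End K W,
        a = ((fun i => ρ i g - 1), τ g - 1) := ⟨_, rfl⟩
    have e1 : ((fun i => lg K (ρ i g - 1) k, lg K (τ g - 1) k) :
        (∀ i, Module.End K (V i)) × Module.End K W) = lg K a k := by
      refine Prod.ext ?_ ?_
      · funext i
        have h5 := lg_hom ((Pi.evalAlgHom K (fun i => Module.End K (V i)) i).comp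
          (AlgHom.fst K (∀ i, Module.End K (V i)) (Module.End K W))) a k
        rw [ha] at h5 ⊢
        exact h5.symm
      · have h5 := lg_hom (AlgHom.snd K (∀ i, Module.End K (V i)) (Module.End K W)) a k
        rw [ha] at h5 ⊢
        exact h5.symm
    have e2 : dgA a = rT ρ τ g - 1 := by
      rw [ha]
      apply LinearMap.ext
      intro x
      rfl
    rw [e1, ← dgA_apply, lg_hom, e2]
    obtain ⟨Δ, hΔ, h1⟩ := hh
    obtain ⟨n, hn, hgn⟩ := Pool.Agent.TH125.Gal.exists_pow hΔ g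
    refine same_lg h hk ?_ hσ ?_
    · rw [← e2, ← map_pow]
      have e3 : a ^ k = 0 := by
        rw [ha]
        refine Prod.ext ?_ ?_
        · rw [Prod.pow_fst]
          funext i
          exact hρ i
        · rw [Prod.pow_snd]
          exact hτ
      rw [e3, map_zero]
    · refine Set.infinite_of_injective_forall_mem (f := fun l : ℕ => n * l) ?_ ?_
      · intro l l' hl
        exact Nat.eq_of_mul_eq_mul_left hn hl
      · intro l v
        have h3 : g ^ (n * l) ∈ Δ := by
          rw [pow_mul]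
          exact Subgroup.pow_mem _ hgn _
        have h4 := h1 _ h3 v
        rw [map_pow, map_pow] at h4
        exact h4

theorem GR_isLie (halt : ∀ i v, B i v v = 0) (hnd : ∀ i v, (∀ w, B i v w = 0) → v = 0) :
    IsLie B (sR τ σ) (GR S ρ B τ σ) where
  alt := halt
  nondeg := hnd
  br := fun _ hX _ hY => GR_br hX hY
  sk := fun _ hX => (mem_GR.1 hX).1
  stab := fun _ hX => (mem_GR.1 hX).2.1

end Pool.Agent.U172.SM
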