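import Mathlib
import Pool.Agent.U172.SM.GR

/-!
# Comparison of pieces
-/

set_option autoImplicit false
set_option linter.unusedSectionVars false

namespace Pool.Agent.U172.SM

open Module Function Finset Pool.Agent.TH125.Gal Pool.Agent.V11219 Pool.Agent.V11219.Gk
  Pool.Agent.Y126.JB
open Pool.Agent.H204R3.SP (SS SS_apply SS_comm)

variable {K Γ : Type} [Field K] [CharZero K] [IsAlgClosed K] [Group Γ] {ι : Type} [Fintype ι]
  [DecidableEq ι] {V : ι → Type} [∀ i, AddCommGroup (V i)] [∀ i, Module K (V i)]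
  [∀ i, FiniteDimensional K (V i)] {W : Type} [AddCommGroup W] [Module K W]
  [FiniteDimensional K W] {M : Type} [AddCommGroup M] [Module K M] [FiniteDimensional K M]
  {μ : ι → Γ →* K} {ρ : ∀ i, Representation K Γ (V i)} {B : ∀ i, V i →ₗ[K] V i →ₗ[K] K}
  {τ : Representation K Γ W} {σ : Representation K Γ M} {N : Set Γ}

/-- `U` has smaller dimension than `V i`, or some element of `N` has a smaller rank or smaller Jordan
blocks on `U` than on `V i`. -/
def IsSh {R : Type} [AddCommGroup R] [Module K R] (ρ : ∀ i, Representation K Γ (V i))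
    (φ : Representation K Γ R) (N : Set Γ) (i : ι) (U : Submodule K R) : Prop :=
  StableSub φ U ∧ (finrank K U < finrank K (V i) ∨
    ∃ g ∈ N, ((ρ i g - 1) * (ρ i g - 1) = 0 ∧
    finrank K (U.map (φ g - 1)) < finrank K (LinearMap.range (ρ i g - 1))) ∨
    ∃ q : ℕ, (ρ i g - 1) ^ q ≠ 0 ∧ ∀ x ∈ U, ((φ g - 1) ^ q) x = 0)

variable {S : Type} [Fintype S] [DecidableEq S]

/-- The logarithms of the elements of `N` are in the Lie algebra. -/
def HasLogs (S : Type) [Fintype S] [DecidableEq S] (ρ : ∀ i, Representation K Γ (V i))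
    (B : ∀ i, V i →ₗ[K] V i →ₗ[K] K) (τ : Representation K Γ W) (σ : Representation K Γ M)
    (N : Set Γ) : Prop :=
  ∀ g ∈ N, ∃ k, 2 ≤ k ∧ (∀ i, (ρ i g - 1) ^ k = 0) ∧ (sR τ σ g - 1) ^ k = 0 ∧
    ((fun i => lg K (ρ i g - 1) k), lg K (sR τ σ g - 1) k) ∈ GR S ρ B τ σ

theorem pow_sR {g : Γ} {k : ℕ} (h1 : (τ g - 1) ^ k = 0) (h2 : (σ g - 1) ^ k = 0) :
    (sR τ σ g - 1) ^ k = 0 := by
  have hsub : sR τ σ g - 1 = (LinearMap.prodMapAlgHom K W M) (τ g - 1, σ g - 1) := by
    apply LinearMap.ext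
    intro x
    rfl
  rw [hsub, ← map_pow, Prod.pow_mk, h1, h2]
  exact map_zero _

theorem cmp_of (h : HasLogs S ρ B τ σ N) {i : ι} {U : Submodule K (W × M)}
    (hU : IsSh ρ (sR τ σ) N i U) : ∃ X ∈ GR S ρ B τ σ, Cmp i X.1 X.2 U := by
  obtain ⟨hst, hdim | ⟨g, hg, hc⟩⟩ := hU
  · exact ⟨0, Submodule.zero_mem _, Or.inr (Or.inr hdim)⟩
  obtain ⟨k, hk, hV, hR, hmem⟩ := h g hg
  refine ⟨_, hmem, ?_⟩
  rcases hc with ⟨h2, hlt⟩ | ⟨q, hq, hqU⟩
  · refine Or.inl ⟨?_, ?_⟩
    · dsimp only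
      rw [lg_sq hk h2, h2]
    · have e : finrank K (LinearMap.range (lg K (ρ i g - 1) k)) =
          finrank K (LinearMap.range (ρ i g - 1)) := by rw [lg_sq hk h2]
      refine lt_of_lt_of_eq (lt_of_le_of_lt (Submodule.finrank_mono ?_) hlt) e.symm
      rintro _ ⟨x, hx, rfl⟩
      exact lg_map (fun x hx => U.sub_mem (hst g x hx) hx) hx
  · obtain ⟨A, hA, hAc, hlg⟩ := lg_eq (K := K) (ρ i g - 1) (hV i)
    obtain ⟨A', hA', hAc', hlg'⟩ := lg_eq (K := K) (sR τ σ g - 1) hR
    refine Or.inr (Or.inl ⟨?_, q, ?_, fun x hx => ?_⟩)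
    · dsimp only
      rw [hlg]
      exact hAc.isNilpotent_mul_right ⟨k, hV i⟩
    · dsimp only
      rw [hlg, hAc.mul_pow]
      intro h0
      apply hq
      obtain ⟨a, ha⟩ := hA.pow q
      rw [← ha] at h0
      exact (Units.mul_left_eq_zero a).1 h0
    · dsimp only
      rw [hlg', hAc'.mul_pow, (hAc'.pow_pow q q).eq, Module.End.mul_apply, hqU x hx, map_zero]

/-- pieces of the first space -/
theorem sh_inl {i : ι} {U : Submodule K W} (hU : IsSh ρ τ N i U) :
    IsSh ρ (sR τ σ) N i (U.map (LinearMap.inl K W M)) := by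
  obtain ⟨hst, hc⟩ := hU
  refine ⟨?_, ?_⟩
  · rintro g _ ⟨x, hx, rfl⟩
    exact ⟨τ g x, hst g x hx, by rw [sR_apply]; simp⟩
  rcases hc with hdim | ⟨g, hg, hc⟩
  · exact Or.inl (lt_of_le_of_lt (Submodule.finrank_map_le _ _) hdim)
  refine Or.inr ⟨g, hg, ?_⟩
  · rcases hc with ⟨h2, hlt⟩ | ⟨q, hq, hqU⟩
    · refine Or.inl ⟨h2, lt_of_le_of_lt ?_ hlt⟩
      have h2 : (U.map (LinearMap.inl K W M)).map (sR τ σ g - 1) =
          (U.map (τ g - 1)).map (LinearMap.inl K W M) := by
        rw [← Submodule.map_comp, ← Submodule.map_comp]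
        congr 1
        apply LinearMap.ext
        intro x
        refine Prod.ext rfl ?_
        change σ g 0 - 0 = 0
        rw [map_zero, sub_zero]
      rw [h2]
      exact Submodule.finrank_map_le _ _
    · refine Or.inr ⟨q, hq, ?_⟩
      rintro _ ⟨x, hx, rfl⟩
      have h3 : ∀ (q : ℕ) (x : W), ((sR τ σ g - 1) ^ q) (LinearMap.inl K W M x) =
          LinearMap.inl K W M (((τ g - 1) ^ q) x) := by
        intro q
        induction q with
        | zero => exact fun x => rfl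
        | succ q ih =>
          intro x
          rw [pow_succ, Module.End.mul_apply, pow_succ, Module.End.mul_apply, ← ih]
          congr 1
          refine Prod.ext rfl ?_
          change σ g 0 - 0 = 0
          rw [map_zero, sub_zero]
      rw [h3, hqU x hx, map_zero]

/-- pieces of the second space -/
theorem sh_inr {i : ι} {U : Submodule K M} (hU : IsSh ρ σ N i U) :
    IsSh ρ (sR τ σ) N i (U.map (LinearMap.inr K W M)) := by
  obtain ⟨hst, hc⟩ := hU
  refine ⟨?_, ?_⟩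
  · rintro g _ ⟨x, hx, rfl⟩
    exact ⟨σ g x, hst g x hx, by rw [sR_apply]; simp⟩
  rcases hc with hdim | ⟨g, hg, hc⟩
  · exact Or.inl (lt_of_le_of_lt (Submodule.finrank_map_le _ _) hdim)
  refine Or.inr ⟨g, hg, ?_⟩
  · rcases hc with ⟨h2, hlt⟩ | ⟨q, hq, hqU⟩
    · refine Or.inl ⟨h2, lt_of_le_of_lt ?_ hlt⟩
      have h2 : (U.map (LinearMap.inr K W M)).map (sR τ σ g - 1) =
          (U.map (σ g - 1)).map (LinearMap.inr K W M) := by
        rw [← Submodule.map_comp, ← Submodule.map_comp]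
        congr 1
        apply LinearMap.ext
        intro x
        refine Prod.ext ?_ rfl
        change τ g 0 - 0 = 0
        rw [map_zero, sub_zero]
      rw [h2]
      exact Submodule.finrank_map_le _ _
    · refine Or.inr ⟨q, hq, ?_⟩
      rintro _ ⟨x, hx, rfl⟩
      have h3 : ∀ (q : ℕ) (x : M), ((sR τ σ g - 1) ^ q) (LinearMap.inr K W M x) =
          LinearMap.inr K W M (((σ g - 1) ^ q) x) := by
        intro q
        induction q with
        | zero => exact fun x => rfl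
        | succ q ih =>
          intro x
          rw [pow_succ, Module.End.mul_apply, pow_succ, Module.End.mul_apply, ← ih]
          congr 1
          refine Prod.ext ?_ rfl
          change τ g 0 - 0 = 0
          rw [map_zero, sub_zero]
      rw [h3, hqU x hx, map_zero]

/-- **The symplectic Lie algebras are in the Lie algebra.** -/
theorem single_mem_of (halt : ∀ i v, B i v v = 0)
    (hnd : ∀ i v, (∀ w, B i v w = 0) → v = 0) (h : HasLogs S ρ B τ σ N) (i : ι)
    (hbig : ∀ u v, ∃ y, ((Pi.single i (SS (B i) u v) : ∀ i, Module.End K (V i)), y) ∈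
      GR S ρ B τ σ) {𝒰 : Set (Submodule K W)} (h𝒰 : ∀ U ∈ 𝒰, IsSh ρ τ N i U) (h1 : sSup 𝒰 = ⊤) {𝒰' : Set (Submodule K M)}
    (h𝒰' : ∀ U ∈ 𝒰', IsSh ρ σ N i U) (h1' : sSup 𝒰' = ⊤) (u v : V i) :
    ((Pi.single i (SS (B i) u v) : ∀ i, Module.End K (V i)), (0 : Module.End K (W × M))) ∈
      GR S ρ B τ σ := by
  have hL := GR_isLie (S := S) (ρ := ρ) (B := B) (τ := τ) (σ := σ)
    halt hnd
  refine hL.single_mem i hbig
    ((fun U : Submodule K W => U.map (LinearMap.inl K W M)) '' 𝒰 ∪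
      (fun U : Submodule K M => U.map (LinearMap.inr K W M)) '' 𝒰') ?_ ?_ u v
  · rintro _ (⟨U, hU, rfl⟩ | ⟨U, hU, rfl⟩)
    · have h2 := sh_inl (σ := σ) (h𝒰 U hU)
      exact ⟨h2.1, cmp_of h h2⟩
    · have h2 := sh_inr (τ := τ) (h𝒰' U hU)
      exact ⟨h2.1, cmp_of h h2⟩
  · rw [sSup_union, sSup_image, sSup_image]
    have e1 : (⨆ U ∈ 𝒰, U.map (LinearMap.inl K W M)) =
        (⊤ : Submodule K W).map (LinearMap.inl K W M) := by
      rw [← h1, sSup_eq_iSup, Submodule.map_iSup]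
      refine iSup_congr fun U => ?_
      rw [Submodule.map_iSup]
    have e2 : (⨆ U ∈ 𝒰', U.map (LinearMap.inr K W M)) =
        (⊤ : Submodule K M).map (LinearMap.inr K W M) := by
      rw [← h1', sSup_eq_iSup, Submodule.map_iSup]
      refine iSup_congr fun U => ?_
      rw [Submodule.map_iSup]
    rw [e1, e2, ← LinearMap.range_eq_map, ← LinearMap.range_eq_map]
    exact LinearMap.sup_range_inl_inr

end Pool.Agent.U172.SM
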