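import Mathlib
import Pool.Agent.U172.SM.FamG

/-!
# Families of symplectic representations and representations with smaller ranks
-/

set_option autoImplicit false
set_option linter.unusedSectionVars false

namespace Pool.Agent.U172.SM

open Module Function Finset Pool.Agent.TH125.Gal Pool.Agent.V11219 Pool.Agent.V11219.Gk
  Pool.Agent.Y126.JB Pool.Agent.TH118.SG Pool.Agent.W528.Odd Pool.Agent.Y126.OT
open Pool.Agent.H204R3.SP (SS SS_apply SS_comm)

variable {K Γ : Type} [Field K] [CharZero K] [IsAlgClosed K] [Group Γ] {ι : Type} [Fintype ι]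
  [DecidableEq ι] {V : ι → Type} [∀ i, AddCommGroup (V i)] [∀ i, Module K (V i)]
  [∀ i, FiniteDimensional K (V i)] {W : Type} [AddCommGroup W] [Module K W]
  [FiniteDimensional K W] {M : Type} [AddCommGroup M] [Module K M] [FiniteDimensional K M]
  {μ : ι → Γ →* K} {ρ : ∀ i, Representation K Γ (V i)} {B : ∀ i, V i →ₗ[K] V i →ₗ[K] K}
  {τ : Representation K Γ W} {σ : Representation K Γ M} {N : Set Γ}

/-- A family of symplectic representations, and two other representations on which the elements of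
`N` are unipotent. -/
structure SFam (μ : ι → Γ →* K) (ρ : ∀ i, Representation K Γ (V i))
    (B : ∀ i, V i →ₗ[K] V i →ₗ[K] K) (τ : Representation K Γ W) (σ : Representation K Γ M)
    (N : Set Γ) : Prop where
  symplectic : ∀ i, IsSymplectic (μ i) (ρ i) (B i)
  irreducible : ∀ i, Sm.StronglyIrreducible (ρ i)
  distinct : ∀ i j, i ≠ j → ¬ IsoUpToScalars (ρ i) (ρ j)
  small : ∀ i, SmallDefects (ρ i) N
  mult : ∀ g ∈ N, ∀ i, μ i g = 1
  sq : ∀ g ∈ N, ∀ i, (ρ i g - 1) * (ρ i g - 1) = 0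
  nil : ∀ g ∈ N, IsNilpotent (τ g - 1)
  nil' : ∀ g ∈ N, IsNilpotent (σ g - 1)

variable {S : Type} [Fintype S] [DecidableEq S]

theorem SFam.mem (h : SFam μ ρ B τ σ N) {g : Γ} (hg : g ∈ N) : ∃ k,
    ((fun i => ρ i g - 1), lg K (sR τ σ g - 1) k) ∈ GR S ρ B τ σ := by
  obtain ⟨k, hk⟩ := h.nil g hg
  obtain ⟨l, hl⟩ := h.nil' g hg
  have hk2 : (τ g - 1) ^ (k + l + 2) = 0 := by rw [add_assoc, pow_add, hk, zero_mul]
  have hl2 : (σ g - 1) ^ (k + l + 2) = 0 := by
    rw [add_comm k l, add_assoc, pow_add, hl, zero_mul]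
  have h1 := GR_unip (S := S) (B := B) (μ := μ) (k := k + l + 2)
    (fun i => (h.symplectic i).act) (h.mult g hg) (by omega) (fun i => by
      rw [pow_add, pow_two, h.sq g hg i, mul_zero]) hk2 hl2
  have h2 : (fun i => lg K (ρ i g - 1) (k + l + 2)) = fun i => ρ i g - 1 := by
    funext i
    exact lg_sq (by omega) (h.sq g hg i)
  rw [h2] at h1
  exact ⟨_, h1⟩

/-- The projection. -/
noncomputable def pG (S : Type) [Fintype S] [DecidableEq S] (ρ : ∀ i, Representation K Γ (V i))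
    (B : ∀ i, V i →ₗ[K] V i →ₗ[K] K) (τ : Representation K Γ W) (σ : Representation K Γ M) :
    Submodule K (∀ i, Module.End K (V i)) :=
  (GR S ρ B τ σ).map (LinearMap.fst K _ _)

theorem SFam.mem_p (h : SFam μ ρ B τ σ N) {g : Γ} (hg : g ∈ N) :
    (fun i => ρ i g - 1 : ∀ i, Module.End K (V i)) ∈ pG S ρ B τ σ := by
  obtain ⟨k, hk⟩ := h.mem (S := S) hg
  exact ⟨_, hk, rfl⟩

theorem SFam.sq_p (h : SFam μ ρ B τ σ N) {g : Γ} (hg : g ∈ N) :
    (fun i => ρ i g - 1 : ∀ i, Module.End K (V i)) * (fun i => ρ i g - 1) = 0 :=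
  funext fun i => h.sq g hg i

theorem SFam.fdefect (h : SFam μ ρ B τ σ N) {i : ι} {g : Γ} {d : ℕ}
    (hd : Sm.IsDefect (ρ i) N g d) : FDefect (pG S ρ B τ σ) i (fun i => ρ i g - 1) d := by
  rcases hd with hd | ⟨g', hg', -, a, ha, hd⟩
  · exact Or.inl hd
  · exact Or.inr ⟨_, h.mem_p hg', h.sq_p hg', a, ha, hd⟩

theorem SFam.lieFam (h : SFam μ ρ B τ σ N) : LieFam μ ρ B (pG S ρ B τ σ) where
  alt := fun i => (h.symplectic i).alt
  nondeg := fun i => (h.symplectic i).nondeg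
  act := fun i => (h.symplectic i).act
  irreducible := h.irreducible
  distinct := h.distinct
  br := by
    rintro _ ⟨X, hX, rfl⟩ _ ⟨Y, hY, rfl⟩
    exact ⟨_, GR_br hX hY, rfl⟩
  conj := by
    rintro g _ ⟨X, hX, rfl⟩
    exact ⟨_, GR_conj (fun i => (h.symplectic i).act) hX g, rfl⟩
  sk := by
    rintro _ ⟨X, hX, rfl⟩ i
    exact (mem_GR.1 hX).1 i
  small := by
    intro i
    rcases h.small i with ⟨g, hg, hd⟩ | ⟨⟨g, hg, hW⟩, hd⟩
    · refine Or.inl ⟨_, h.mem_p hg, h.sq_p hg, ?_⟩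
      rcases hd with hd | hd
      · left
        intro p hp
        obtain ⟨d, hd, hpd⟩ := hd p hp
        exact ⟨d, h.fdefect hd, hpd⟩
      · exact Or.inr (h.fdefect hd)
    · refine Or.inr ⟨_, h.mem_p hg, h.sq_p hg, fun W hW' => hW W fun s x hx => ?_, ?_⟩
      · have h1 := hW' s x hx
        have h2 : ρ i (s * g * s⁻¹) x = (ρ i s * (ρ i g - 1) * ρ i s⁻¹) x + x := by
          have e1 : ρ i s * ρ i s⁻¹ = 1 := by rw [← map_mul, mul_inv_cancel, map_one]
          rw [map_mul, map_mul, mul_sub, sub_mul, mul_one, e1, LinearMap.sub_apply,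
            Module.End.one_apply]
          abel
        rw [h2]
        exact W.add_mem h1 hx
      · intro p hp
        obtain ⟨g', hg', d, hd, hpd⟩ := hd p hp
        exact ⟨_, h.mem_p hg', h.sq_p hg', d, h.fdefect hd, hpd⟩

/-- The logarithms. -/
theorem SFam.hasLogs (h : SFam μ ρ B τ σ N) : HasLogs S ρ B τ σ N := by
  intro g hg
  obtain ⟨k, hk⟩ := h.nil g hg
  obtain ⟨l, hl⟩ := h.nil' g hg
  have hk2 : (τ g - 1) ^ (k + l + 2) = 0 := by rw [add_assoc, pow_add, hk, zero_mul]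
  have hl2 : (σ g - 1) ^ (k + l + 2) = 0 := by
    rw [add_comm k l, add_assoc, pow_add, hl, zero_mul]
  have hV : ∀ i, (ρ i g - 1) ^ (k + l + 2) = 0 := fun i => by
    rw [pow_add, pow_two, h.sq g hg i, mul_zero]
  exact ⟨k + l + 2, by omega, hV, pow_sR hk2 hl2, GR_unip (S := S) (B := B) (μ := μ)
    (fun i => (h.symplectic i).act) (h.mult g hg) (by omega) hV hk2 hl2⟩

/-- **The symplectic Lie algebras are in the Lie algebra.** -/
theorem SFam.single_mem (h : SFam μ ρ B τ σ N) (i : ι) {𝒰 : Set (Submodule K W)}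
    (h𝒰 : ∀ U ∈ 𝒰, IsSh ρ τ N i U) (h1 : sSup 𝒰 = ⊤) {𝒰' : Set (Submodule K M)}
    (h𝒰' : ∀ U ∈ 𝒰', IsSh ρ σ N i U) (h1' : sSup 𝒰' = ⊤) (u v : V i) :
    ((Pi.single i (SS (B i) u v) : ∀ i, Module.End K (V i)), (0 : Module.End K (W × M))) ∈
      GR S ρ B τ σ := by
  refine single_mem_of (fun i => (h.symplectic i).alt) (fun i => (h.symplectic i).nondeg)
    h.hasLogs i (fun a b => ?_) h𝒰 h1 h𝒰' h1' u v
  obtain ⟨X, hX, hX1⟩ := (h.lieFam (S := S)).single_mem i a b
  refine ⟨X.2, ?_⟩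
  have h2 : X = (Pi.single i (SS (B i) a b), X.2) := Prod.ext hX1 rfl
  rw [← h2]
  exact hX

end Pool.Agent.U172.SM
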