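import Mathlib
import Pool.Agent.U172.SM.FamF
import Pool.Agent.U172.JT.Full

/-!
# Families of symplectic representations with unipotent elements of any kind
-/

set_option autoImplicit false
set_option linter.unusedSectionVars false

namespace Pool.Agent.U172.SM

open Module Function Finset Pool.Agent.TH125.Gal Pool.Agent.V11219 Pool.Agent.V11219.Gk
  Pool.Agent.Y126.JB Pool.Agent.TH118.SG Pool.Agent.W528.Odd Pool.Agent.Y126.OT
open Pool.Agent.H204R3.SP (SS SS_apply SS_comm)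

section one

open Pool.Agent.U172.JT

variable {K : Type} [Field K] [CharZero K] [IsAlgClosed K] {T : Type} [AddCommGroup T]
  [Module K T] [FiniteDimensional K T] {G : Type} [Group G]
  {B : T →ₗ[K] T →ₗ[K] K} {ρ : G →* (T →ₗ[K] T)} {χ : G →* K}

/-- **The whole Lie algebra**, for any Lie algebra. -/
theorem jordan_abs (halt : ∀ v, B v v = 0) (hnd : ∀ u, (∀ v, B u v = 0) → u = 0)
    (hB : ∀ g x y, B (ρ g x) (ρ g y) = χ g * B x y) (hSI : Pool.Agent.TH125.Gal.SI ρ)
    {L : Submodule K (Module.End K T)} (hconj : ∀ g : G, ∀ Y ∈ L, ρ g * Y * ρ g⁻¹ ∈ L)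
    (hbr : ∀ Y ∈ L, ∀ Z ∈ L, Y * Z - Z * Y ∈ L)
    (hsp : ∀ Y ∈ L, ∀ u w, B (Y u) w + B u (Y w) = 0) {γ : G} {k : ℕ}
    (hk : (ρ γ - 1) ^ k = 0) (hmem : lg K (ρ γ - 1) k ∈ L) (hγ : Good ρ γ) (x y : T) :
    Pool.Agent.H204R3.SP.SS B x y ∈ L := by
  obtain ⟨-, hγ⟩ := hγ
  have hne : ∃ v : T, v ≠ 0 := by
    rcases hγ with ⟨D, h⟩ | ⟨D, -, h, -⟩ | ⟨h, -⟩
    · by_contra hcon
      push Not at hcon
      have h1 := h.one
      have h2 : ∀ P : Submodule K T, finrank K P = 0 := by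
        intro P
        rw [Submodule.finrank_eq_zero, eq_bot_iff]
        intro z _
        rw [hcon z]
        exact Submodule.zero_mem _
      rw [h2, h2] at h1
      omega
    · have h1 : 0 < finrank K T := by omega
      have := Module.nontrivial_of_finrank_pos h1
      exact exists_ne 0
    · by_contra hcon
      push Not at hcon
      exact h (LinearMap.ext fun v => by rw [hcon v, map_zero, map_zero])
  have hX := SI_conv hne hSI
  obtain ⟨V, hV, hc, hlg⟩ := lg_eq (K := K) (ρ γ - 1) hk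
  have hnil' : IsNilpotent (lg K (ρ γ - 1) k) := by
    rw [hlg]
    exact hc.isNilpotent_mul_right ⟨k, hk⟩
  have hKj : ∀ j, Kj (lg K (ρ γ - 1) k) j = Kj (ρ γ - 1) j := fun j => by
    rw [hlg, Kj_mul hV hc]
  rcases hγ with ⟨D, h⟩ | ⟨D, hD, hdim, hker, hF⟩ | ⟨h0, g, hg⟩
  · exact full_of_typ2 (R := ρ) (χ := χ) halt hnd hB hconj hbr hsp hX hmem (D := D)
      ⟨h.odd, hnil', by rw [hKj, hKj]; exact h.one, fun j h1 h2 => by
        rw [hKj, hKj]; exact h.even j h1 h2, by rw [hKj, hKj]; exact h.triv⟩ x y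
  · have hker' : finrank K (LinearMap.ker (lg K (ρ γ - 1) k)) = 1 := by
      have h1 : Kj (lg K (ρ γ - 1) k) 0 = LinearMap.ker (lg K (ρ γ - 1) k) := by
        ext z
        rw [mem_Kj, LinearMap.mem_ker]
        exact ⟨fun h => h.1, fun h => ⟨h, z, by rw [pow_zero, Module.End.one_apply]⟩⟩
      have h2 : Kj (ρ γ - 1) 0 = LinearMap.ker (ρ γ - 1) := by
        ext z
        rw [mem_Kj, LinearMap.mem_ker]
        exact ⟨fun h => h.1, fun h => ⟨h, z, by rw [pow_zero, Module.End.one_apply]⟩⟩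
      rw [← h1, hKj, h2]
      exact hker
    exact full_of_single (R := ρ) halt hnd hconj hbr hsp hX hmem hnil' hD hdim
      (pow_ne_zero_of_ker _ hker' hdim) hF x y
  · have hlg0 : lg K (ρ γ - 1) k ≠ 0 := by
      intro h1
      apply h0
      rw [hlg] at h1
      obtain ⟨U, hU⟩ := hV
      rw [← hU] at h1
      have h2 := congrArg (fun z => z * ((U⁻¹ : (Module.End K T)ˣ) : Module.End K T)) h1
      simpa [mul_assoc] using h2
    obtain ⟨z, hz, hz2, hz0, hrk⟩ := exists_rank_two (F := ρ g) (F' := ρ g⁻¹) (by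
      rw [← map_mul, inv_mul_cancel, map_one]) hg (fun X hX' => hconj g X hX') hmem hlg0 hnil'
    exact full_of_N (R := ρ) (χ := χ) halt hnd hB hconj hbr hsp hX hz hz2 hz0 hrk x y

end one

variable {K Γ : Type} [Field K] [CharZero K] [IsAlgClosed K] [Group Γ] {ι : Type} [Fintype ι]
  [DecidableEq ι] {V : ι → Type} [∀ i, AddCommGroup (V i)] [∀ i, Module K (V i)]
  [∀ i, FiniteDimensional K (V i)] {W : Type} [AddCommGroup W] [Module K W]
  [FiniteDimensional K W] {M : Type} [AddCommGroup M] [Module K M] [FiniteDimensional K M]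
  {μ : ι → Γ →* K} {ρ : ∀ i, Representation K Γ (V i)} {B : ∀ i, V i →ₗ[K] V i →ₗ[K] K}
  {τ : Representation K Γ W} {σ : Representation K Γ M} {N : Set Γ}

/-- A family of symplectic representations, and two other representations on which the elements of
`N` are unipotent. -/
structure JFam (μ : ι → Γ →* K) (ρ : ∀ i, Representation K Γ (V i))
    (B : ∀ i, V i →ₗ[K] V i →ₗ[K] K) (τ : Representation K Γ W) (σ : Representation K Γ M)
    (N : Set Γ) : Prop where
  symplectic : ∀ i, IsSymplectic (μ i) (ρ i) (B i)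
  irreducible : ∀ i, Sm.StronglyIrreducible (ρ i)
  good : ∀ i, ∃ g ∈ N, Pool.Agent.U172.JT.Good (ρ i) g ∧ ∀ j, j ≠ i → ρ j g = 1
  mult : ∀ g ∈ N, ∀ i, μ i g = 1
  nilV : ∀ g ∈ N, ∀ i, IsNilpotent (ρ i g - 1)
  nil : ∀ g ∈ N, IsNilpotent (τ g - 1)
  nil' : ∀ g ∈ N, IsNilpotent (σ g - 1)

variable {S : Type} [Fintype S] [DecidableEq S]

theorem JFam.mem (h : JFam μ ρ B τ σ N) : HasLogs S ρ B τ σ N := by
  intro g hg
  obtain ⟨k, hk⟩ := h.nil g hg
  obtain ⟨l, hl⟩ := h.nil' g hg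
  choose m hm using h.nilV g hg
  have hm' : ∀ i, m i ≤ Finset.univ.sup m := fun i => Finset.le_sup (Finset.mem_univ i)
  have hk2 : (τ g - 1) ^ (k + (l + Finset.univ.sup m + 2)) = 0 := by rw [pow_add, hk, zero_mul]
  have hl2 : (σ g - 1) ^ (k + (l + Finset.univ.sup m + 2)) = 0 := by
    rw [show k + (l + Finset.univ.sup m + 2) = l + (k + Finset.univ.sup m + 2) by ring, pow_add, hl,
      zero_mul]
  have hV : ∀ i, (ρ i g - 1) ^ (k + (l + Finset.univ.sup m + 2)) = 0 := by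
    intro i
    obtain ⟨c, hc⟩ := Nat.exists_eq_add_of_le (hm' i)
    rw [show k + (l + Finset.univ.sup m + 2) = m i + (k + l + c + 2) by rw [hc]; ring, pow_add,
      hm, zero_mul]
  exact ⟨k + (l + Finset.univ.sup m + 2), by omega, hV, pow_sR hk2 hl2,
    GR_unip (S := S) (B := B) (μ := μ) (fun i => (h.symplectic i).act) (h.mult g hg) (by omega) hV
      hk2 hl2⟩

/-- The Lie algebra of the operators on `V i`. -/
noncomputable def Li (S : Type) [Fintype S] [DecidableEq S] (ρ : ∀ i, Representation K Γ (V i))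
    (B : ∀ i, V i →ₗ[K] V i →ₗ[K] K) (τ : Representation K Γ W) (σ : Representation K Γ M)
    (i : ι) : Submodule K (Module.End K (V i)) where
  carrier := {x | ∃ y, ((Pi.single i x : ∀ i, Module.End K (V i)), y) ∈ GR S ρ B τ σ}
  zero_mem' := ⟨0, by
    rw [Pi.single_zero]
    exact Submodule.zero_mem _⟩
  add_mem' := by
    rintro x x' ⟨y, hy⟩ ⟨y', hy'⟩
    refine ⟨y + y', ?_⟩
    rw [Pi.single_add]
    exact Submodule.add_mem _ hy hy'
  smul_mem' := by
    rintro c x ⟨y, hy⟩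
    refine ⟨c • y, ?_⟩
    rw [Pi.single_smul]
    exact Submodule.smul_mem _ c hy

theorem mem_Li {i : ι} {x : Module.End K (V i)} : x ∈ Li S ρ B τ σ i ↔
    ∃ y, ((Pi.single i x : ∀ i, Module.End K (V i)), y) ∈ GR S ρ B τ σ := Iff.rfl

/-- **The symplectic Lie algebras are in the projection.** -/
theorem JFam.big (h : JFam μ ρ B τ σ N) (i : ι) (u v : V i) :
    ∃ y, ((Pi.single i (SS (B i) u v) : ∀ i, Module.End K (V i)), y) ∈ GR S ρ B τ σ := by
  obtain ⟨g, hg, hgood, htriv⟩ := h.good i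
  obtain ⟨k, hk, hV, -, hmem⟩ := h.mem (S := S) g hg
  have h0 : (fun i => lg K (ρ i g - 1) k) =
      (Pi.single i (lg K (ρ i g - 1) k) : ∀ i, Module.End K (V i)) := by
    funext j
    by_cases hj : j = i
    · subst hj
      rw [Pi.single_eq_same]
    · rw [Pi.single_eq_of_ne hj, htriv j hj, sub_self]
      exact lg_sq hk (zero_mul _)
  rw [h0] at hmem
  refine (mem_Li (S := S)).1 (jordan_abs (χ := μ i) (h.symplectic i).alt (h.symplectic i).nondeg
    (h.symplectic i).act (h.irreducible i) (L := Li S ρ B τ σ i) ?_ ?_ ?_ (hV i) ⟨_, hmem⟩ hgood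
    u v)
  · rintro g' Y ⟨y, hy⟩
    have h1 := GR_conj (fun i => (h.symplectic i).act) hy g'
    have h2 : (fun j => ρ j g' * (Pi.single i Y : ∀ i, Module.End K (V i)) j * ρ j g'⁻¹) =
        (Pi.single i (ρ i g' * Y * ρ i g'⁻¹) : ∀ i, Module.End K (V i)) := by
      funext j
      by_cases hj : j = i
      · subst hj
        rw [Pi.single_eq_same, Pi.single_eq_same]
      · rw [Pi.single_eq_of_ne hj, Pi.single_eq_of_ne hj, mul_zero, zero_mul]
    dsimp only at h1
    rw [h2] at h1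
    exact ⟨_, h1⟩
  · rintro Y ⟨y, hy⟩ Z ⟨z, hz⟩
    refine ⟨y * z - z * y, ?_⟩
    have h1 := GR_br hy hz
    have h2 : (Pi.single i (Y * Z - Z * Y) : ∀ i, Module.End K (V i)) =
        Pi.single i Y * Pi.single i Z - Pi.single i Z * Pi.single i Y := by
      rw [← Pi.single_mul, ← Pi.single_mul, ← Pi.single_sub]
    rw [h2]
    exact h1
  · rintro Y ⟨y, hy⟩ u w
    have h1 := (mem_GR.1 hy).1 i u w
    dsimp only at h1
    rw [Pi.single_eq_same] at h1
    exact h1

/-- **The symplectic Lie algebras are in the Lie algebra.** -/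
theorem JFam.single_mem (h : JFam μ ρ B τ σ N) (i : ι) {𝒰 : Set (Submodule K W)}
    (h𝒰 : ∀ U ∈ 𝒰, IsSh ρ τ N i U) (h1 : sSup 𝒰 = ⊤) {𝒰' : Set (Submodule K M)}
    (h𝒰' : ∀ U ∈ 𝒰', IsSh ρ σ N i U) (h1' : sSup 𝒰' = ⊤) (u v : V i) :
    ((Pi.single i (SS (B i) u v) : ∀ i, Module.End K (V i)), (0 : Module.End K (W × M))) ∈
      GR S ρ B τ σ :=
  single_mem_of (fun i => (h.symplectic i).alt) (fun i => (h.symplectic i).nondeg)
    h.mem i (h.big i) h𝒰 h1 h𝒰' h1' u v

end Pool.Agent.U172.SM
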