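import Pool.Agent.U172.JP.Pub
import Pool.Agent.V11219.ClsDefs

/-!
# Varieties of odd dimension with bad reduction, over a base with smaller monodromy: definitions
-/

open CategoryTheory AlgebraicGeometry

universe u

namespace Pool.Agent.U172.SJ

open Pool.Agent.TH125.Gal Pool.Agent.U172.JP Pool.Agent.V11219.Cls

section Alg

variable {K A A' Γ : Type} [Field K] [Ring A] [Algebra K A] [Ring A'] [Algebra K A'] [Group Γ]

/-- The actions of `Γ` on the algebra `A`. -/
abbrev Act (K : Type) [Field K] (A : Type) [Ring A] [Algebra K A] (Γ : Type) [Group Γ] : Type :=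
  Γ →* (A ≃ₐ[K] A)

/-- `χ g = 1`. -/
def InKer (χ : Γ →* Kˣ) (g : Γ) : Prop := χ g = 1

/-- `g` acts unipotently on the whole space. -/
def Unipotent (ρ : Act K A Γ) (g : Γ) : Prop := UnipotentOn ⊤ ρ g

/-- `U` is stable under the group. -/
def StableUnder (U : Submodule K A) (ρ : Act K A Γ) : Prop := ∀ g : Γ, ∀ x ∈ U, ρ g x ∈ U

/-- Some power of `g - 1` is zero on `U` and not on `T`. -/
def Shorter (U : Submodule K A') (ρ' : Act K A' Γ) (T : Submodule K A) (ρ : Act K A Γ) (g : Γ) :
    Prop :=
  ∃ q : ℕ, (∀ x ∈ U, (dif ρ' g ^ q) x = 0) ∧ ∃ t ∈ T, (dif ρ g ^ q) t ≠ 0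

/-- `(g - 1) ^ 2 = 0` on `T`, and the rank of `g - 1` on `U` is smaller than the rank on `T`. -/
def SmallerRank (U : Submodule K A') (ρ' : Act K A' Γ) (T : Submodule K A) (ρ : Act K A Γ)
    (g : Γ) : Prop :=
  (∀ t ∈ T, (dif ρ g ^ 2) t = 0) ∧
    Module.finrank K (U.map (dif ρ' g)) < Module.finrank K (T.map (dif ρ g))

/-- The subspace `U` of `A'` has smaller dimension than the subspace `T` of `A`, or there is an element
`g` of `N` with `Shorter` or `SmallerRank`. -/
def Smaller (U : Submodule K A') (ρ' : Act K A' Γ) (T : Submodule K A) (ρ : Act K A Γ)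
    (N : Set Γ) : Prop :=
  Module.finrank K U < Module.finrank K T ∨
    ∃ g ∈ N, Shorter U ρ' T ρ g ∨ SmallerRank U ρ' T ρ g

/-- The subspace `T'` of `A'` is a sum of subspaces which are stable under the group and `Smaller` than
the subspace `T` of `A`. -/
def SumOfSmaller (T' : Submodule K A') (ρ' : Act K A' Γ) (T : Submodule K A) (ρ : Act K A Γ)
    (N : Set Γ) : Prop :=
  ∃ 𝒰 : Set (Submodule K A'), sSup 𝒰 = T' ∧ ∀ U ∈ 𝒰, StableUnder U ρ' ∧ Smaller U ρ' T ρ N

/-- The same for the whole space `A'`. -/
def SumOfSmallerAll (ρ' : Act K A' Γ) (T : Submodule K A) (ρ : Act K A Γ) (N : Set Γ) : Prop :=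
  SumOfSmaller ⊤ ρ' T ρ N

end Alg

open Pool.Agent.H914 Pool.Agent.H914.VarClass Pool.Agent.H914.VarClass.Obj
  Pool.Agent.H914.WeilCohomology Pool.Agent.H281R3.HT

variable {k : Type u} [Field k] {𝒱 : VarClass k} {ops : CycleOps 𝒱}

/-- The characters of `Γ` with values in the coefficient field of `W`. -/
abbrev CharOf (W : WeilCohomology.{u, 0} ops) (Γ : Type) [Group Γ] : Type := Γ →* W.Kˣ

/-- The actions on the cohomology of `A`. -/
abbrev ActOn (W : WeilCohomology.{u, 0} ops) (Γ : Type) [Group Γ] (A : 𝒱.Obj) : Type :=
  Act W.K (W.H A) Γ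

variable {W : WeilCohomology.{u, 0} ops} {Γ : Type} [Group Γ] {ι β : Type}

/-- The action of `Γ` on the cohomology of `A` has the formal properties of a Galois action. -/
def GaloisVar (χ : CharOf W Γ) (A : GVar W Γ) : Prop :=
  IsGaloisAct χ (W.gr A.X) A.X.dim (W.tr A.X) (algClasses W A.X) A.act

/-- The dimension of the variety `A` is odd, its transcendental cohomology is in the middle degree
and irreducible under all subgroups of finite index, and there is an element of `M` as in
`JordanCondition`. -/
def BadReduction (χ : CharOf W Γ) (A : GVar W Γ) (M : Set Γ) : Prop :=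
  Odd A.X.dim ∧ BigOn χ (transcendental W A.X) (W.gr A.X) A.X.dim A.act M

/-- The element `g` acts unipotently on the transcendental cohomology of `A`. -/
def UnipotentTrans (A : GVar W Γ) (g : Γ) : Prop := UnipotentOn (transcendental W A.X) A.act g

/-- The element `g` acts unipotently on the cohomology of `A`. -/
def UnipotentVar (A : GVar W Γ) (g : Γ) : Prop := Unipotent A.act g

/-- The elements `g` of `Γ` with `χ g = 1` which act unipotently on the transcendental cohomology of
all `X i` and `Y b` and on the cohomology of `Z`. -/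
def unipotent (χ : CharOf W Γ) (X : ι → GVar W Γ) (Y : β → GVar W Γ) (Z : GVar W Γ) : Set Γ :=
  {g | InKer χ g ∧ (∀ i, UnipotentTrans (X i) g) ∧ (∀ b, UnipotentTrans (Y b) g) ∧
    UnipotentVar Z g}

/-- The elements of `N` which act trivially on the cohomology of the `X j`, `j ≠ i`. -/
def trivialOn (X : ι → GVar W Γ) (N : Set Γ) (i : ι) : Set Γ :=
  {g | g ∈ N ∧ ∀ j, j ≠ i → TrivVar (X j) g}

/-- The transcendental cohomology of `B` is a sum of stable subspaces which are smaller (in
dimension, or for an element of `N`) than the transcendental cohomology of `A`. -/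
def SmallerTrans (B A : GVar W Γ) (N : Set Γ) : Prop :=
  SumOfSmaller (transcendental W B.X) B.act (transcendental W A.X) A.act N

/-- The whole cohomology of `B` is a sum of stable subspaces which are smaller (in dimension, or for an
element of `N`) than the transcendental cohomology of `A`. -/
def SmallerAll (B A : GVar W Γ) (N : Set Γ) : Prop :=
  SumOfSmallerAll B.act (transcendental W A.X) A.act N

/-- The group `Γ` acts on the cohomology of the `X i` and `Y b` like a Galois group, and numerical
and homological equivalence coincide for them. The `X i` satisfy `BadReduction` (odd dimension,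
irreducible transcendental cohomology in the middle degree, `JordanCondition`) for elements of
`unipotent` which act trivially on the cohomology of the other `X j`. For all `i` and `b`, the
transcendental cohomology of `Y b` and the whole cohomology of `Z` are sums of stable subspaces which
are smaller (in dimension, or for an element as in `unipotent`) than the transcendental cohomology
of `X i`. -/
structure SmallerVars (χ : CharOf W Γ) (X : ι → GVar W Γ) (Y : β → GVar W Γ) (Z : GVar W Γ) :
    Prop where
  galois : ∀ i, GaloisVar χ (X i)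
  galois' : ∀ b, GaloisVar χ (Y b)
  homEqNum : ∀ i, HomEqNum W (X i).X
  homEqNum' : ∀ b, HomEqNum W (Y b).X
  bad : ∀ i, BadReduction χ (X i) (trivialOn X (unipotent χ X Y Z) i)
  smaller : ∀ i b, SmallerTrans (Y b) (X i) (unipotent χ X Y Z)
  smallerBase : ∀ i, SmallerAll Z (X i) (unipotent χ X Y Z)

/-- The action `υ` on the cohomology of the product of `n + 1` copies of `A` and of `B` is compatible
with the projections. -/
def Compatible (A : GVar W Γ) (n : ℕ) (B : GVar W Γ)
    (υ : ActOn W Γ ((power ops A.X n).prod B.X)) : Prop :=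
  (∀ p, Intertwines (W.map (fst (power ops A.X n) B.X ≫ powerPrj ops A.X n p)) A.act υ) ∧
    Intertwines (W.map (snd (power ops A.X n) B.X)) B.act υ

/-- The varieties `Y b₁ × (Y b₂ × ( ⋯ × Z))` for all finite sequences `b₁, b₂, …` (repetitions are
allowed), with actions on the cohomology which are compatible with the projections. -/
inductive Products (Y : β → GVar W Γ) (Z : GVar W Γ) : GVar W Γ → Prop
  | base : Products Y Z Z
  | step (b : β) (A : GVar W Γ) (υ : ActOn W Γ ((power ops (Y b).X 0).prod A.X)) :
      Products Y Z A → Compatible (Y b) 0 A υ → Products Y Z (GVar.mk _ υ)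

/-- The varieties `X_1^(n_1) × (X_2^(n_2) × ( ⋯ × Z))`, where the `X_i` are pairwise different members
of the family `X` (`S` is the set of the indices which are used), with actions on the cohomology
which are compatible with the projections. -/
inductive Towers (X : ι → GVar W Γ) (Z : GVar W Γ) : Set ι → GVar W Γ → Prop
  | base : Towers X Z ∅ Z
  | step (S : Set ι) (A : GVar W Γ) (i : ι) (n : ℕ)
      (υ : ActOn W Γ ((power ops (X i).X n).prod A.X)) : Towers X Z S A → i ∉ S →
      Compatible (X i) n A υ → Towers X Z (insert i S) (GVar.mk _ υ)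

/-- The Tate conjecture for `A`: for all `j`, every class in `H^(2j)(A)` which is multiplied by
`χ g ^ j` by all `g` in a subgroup of finite index is a linear combination of classes of algebraic
cycles of codimension `j`. -/
def TateHolds (χ : CharOf W Γ) (A : GVar W Γ) : Prop :=
  TateAct χ (W.gr A.X) (algClasses W A.X) A.act

/-- For all `j`, every class in `H^(2j)(A)` which is multiplied by `χ g ^ j` by all `g` in a subgroup
of finite index belongs to `C A`. -/
def TateHoldsIn (χ : CharOf W Γ) (C : Classes W) (A : GVar W Γ) : Prop :=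
  TateInAct χ (W.gr A.X) (C A.X) A.act

end Pool.Agent.U172.SJ
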