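import Mathlib
import Pool.Agent.U172.SM.Defs
import Pool.Agent.U172.SM.FamF
import Pool.Agent.V11219.BsyMain
import Pool.Agent.V11219.DeeMain
import Pool.Agent.V11219.SstOver
import Pool.Agent.U172.JT.Full

/-!
# Smaller monodromy: varieties
-/

open CategoryTheory AlgebraicGeometry

set_option linter.unusedSectionVars false
set_option linter.unusedVariables false

universe u

namespace Pool.Agent.U172.SM

open Module Function Finset
open Pool.Agent.TH125.Gal Pool.Agent.TH118.SG Pool.Agent.V11219.Bst Pool.Agent.V11219.Sst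
  Pool.Agent.V11219.Cls Pool.Agent.V11219.IsoF Pool.Agent.V11219.Loc Pool.Agent.V11219.Quad
open Pool.Agent.V11219

section lin

variable {K Γ : Type} [Field K] [Group Γ] {β : Type} [Fintype β] [DecidableEq β] {U : β → Type}
  [∀ b, AddCommGroup (U b)] [∀ b, Module K (U b)]

theorem pR_pow (τ : ∀ b, Representation K Γ (U b)) (g : Γ) (m : ℕ) (x : ∀ b, U b) (b : β) :
    ((pR τ g - 1) ^ m) x b = ((τ b g - 1) ^ m) (x b) := by
  induction m generalizing x with
  | zero => rfl
  | succ m ih =>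
    rw [pow_succ, Module.End.mul_apply, ih, pow_succ, Module.End.mul_apply]
    rfl

theorem pR_nil {τ : ∀ b, Representation K Γ (U b)} {g : Γ} (h : ∀ b, IsNilpotent (τ b g - 1)) :
    IsNilpotent (pR τ g - 1) := by
  choose m hm using h
  refine ⟨Finset.univ.sup m, ?_⟩
  apply LinearMap.ext
  intro x
  funext b
  rw [pR_pow]
  obtain ⟨l, hl⟩ := Nat.exists_eq_add_of_le (Finset.le_sup (f := m) (Finset.mem_univ b))
  rw [hl, pow_add, hm, zero_mul]
  rfl

variable {ι : Type} {V : ι → Type} [∀ i, AddCommGroup (V i)] [∀ i, Module K (V i)]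
  {ρ : ∀ i, Representation K Γ (V i)} {N : Set Γ} {i : ι}

theorem sh_single {τ : ∀ b, Representation K Γ (U b)} {b : β} {P : Submodule K (U b)}
    [∀ b, FiniteDimensional K (U b)] (h : IsSh ρ (τ b) N i P) :
    IsSh ρ (pR τ) N i (P.map (LinearMap.single K U b)) := by
  obtain ⟨h1, hc⟩ := h
  have hs : ∀ g x, pR τ g (Pi.single b x) = Pi.single b (τ b g x) := by
    intro g x
    funext c
    rw [pR_apply]
    by_cases hc : c = b
    · subst hc
      rw [Pi.single_eq_same, Pi.single_eq_same]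
    · rw [Pi.single_eq_of_ne hc, Pi.single_eq_of_ne hc, map_zero]
  refine ⟨?_, ?_⟩
  · rintro g _ ⟨x, hx, rfl⟩
    exact ⟨τ b g x, h1 g x hx, (hs g x).symm⟩
  rcases hc with hdim | ⟨g, hg, hlt⟩
  · exact Or.inl (lt_of_le_of_lt (Submodule.finrank_map_le _ _) hdim)
  refine Or.inr ⟨g, hg, ?_⟩
  · rcases hlt with ⟨h2, hlt⟩ | ⟨q, hq, hqU⟩
    · refine Or.inl ⟨h2, lt_of_le_of_lt ?_ hlt⟩
      have h2 : (P.map (LinearMap.single K U b)).map (pR τ g - 1) =
          (P.map (τ b g - 1)).map (LinearMap.single K U b) := by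
        rw [← Submodule.map_comp, ← Submodule.map_comp]
        congr 1
        apply LinearMap.ext
        intro x
        change pR τ g (Pi.single b x) - Pi.single b x = Pi.single b (τ b g x - x)
        rw [hs, Pi.single_sub]
      rw [h2]
      exact Submodule.finrank_map_le _ _
    · refine Or.inr ⟨q, hq, ?_⟩
      rintro _ ⟨x, hx, rfl⟩
      funext c
      rw [pR_pow]
      by_cases hc : c = b
      · subst hc
        change ((τ c g - 1) ^ q) ((Pi.single c x : ∀ c, U c) c) = 0
        rw [Pi.single_eq_same]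
        exact hqU x hx
      · change ((τ c g - 1) ^ q) ((Pi.single b x : ∀ c, U c) c) = 0
        rw [Pi.single_eq_of_ne hc, map_zero]

theorem sup_single (𝒰 : ∀ b, Set (Submodule K (U b))) (h : ∀ b, sSup (𝒰 b) = ⊤) :
    sSup (⋃ b, (fun P : Submodule K (U b) => P.map (LinearMap.single K U b)) '' 𝒰 b) = ⊤ := by
  rw [sSup_iUnion, ← LinearMap.iSup_range_single K U]
  refine iSup_congr fun b => ?_
  rw [sSup_image, LinearMap.range_eq_map, ← h b, sSup_eq_iSup, Submodule.map_iSup]
  refine iSup_congr fun P => ?_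
  rw [Submodule.map_iSup]

end lin

open Pool.Agent.H914 Pool.Agent.H914.VarClass Pool.Agent.H914.VarClass.Obj
  Pool.Agent.H914.WeilCohomology Pool.Agent.H281R3.HT Pool.Agent.W552 Pool.Agent.H447

variable {k : Type u} [Field k] {𝒱 : VarClass k} {ops : CycleOps 𝒱}
  {W : WeilCohomology.{u, 0} ops} {Γ : Type} [Group Γ] {χ : Γ →* W.Kˣ} {G : Set (GVar W Γ)}
  {ι β : Type} {X : ι → GVar W Γ} {D : ∀ i, (X i).X.Cycles} {Y : β → GVar W Γ}
  {Z Z₁ : GVar W Γ}

/-- Ranks on subspaces of the transcendental cohomology. -/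
theorem rank_comap {A : GVar W Γ} (hG : IsGalois W χ A.X A.act) {P : Submodule W.K (W.H A.X)}
    (hP : P ≤ transcendental W A.X) (g : Γ) :
    finrank W.K ((P.comap (transcendental W A.X).subtype).map (rhoT hG g - 1)) =
      rankOn P A.act g := by
  have e1 : ((P.comap (transcendental W A.X).subtype).map (rhoT hG g - 1)).map
      (transcendental W A.X).subtype = P.map (Pool.Agent.V11219.Min.dif A.act g) := by
    ext z
    constructor
    · rintro ⟨_, ⟨x, hx, rfl⟩, rfl⟩
      exact ⟨x, hx, rfl⟩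
    · rintro ⟨x, hx, rfl⟩
      exact ⟨_, ⟨⟨x, hP hx⟩, hx, rfl⟩, rfl⟩
  rw [← Submodule.finrank_map_subtype_eq (transcendental W A.X), e1]
  rfl

theorem rank_range {A : GVar W Γ} (hG : IsGalois W χ A.X A.act) (g : Γ) :
    finrank W.K (LinearMap.range (rhoT hG g - 1)) = rankOn (transcendental W A.X) A.act g := by
  rw [← rank_comap hG le_rfl g, Submodule.comap_subtype_self, LinearMap.range_eq_map]

/-- Pieces of the transcendental cohomology. -/
theorem pieces_trans {A B : GVar W Γ} (hA : IsGalois W χ A.X A.act) {N : Set Γ}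
    (h : SmallerTrans A B N) : ∃ 𝒰 : Set (Submodule W.K (transcendental W A.X)), sSup 𝒰 = ⊤ ∧
      ∀ U ∈ 𝒰, StableSub (rhoT hA) U ∧ (finrank W.K U < finrank W.K (transcendental W B.X) ∨
        ∃ g ∈ N, finrank W.K (U.map (rhoT hA g - 1)) <
        rankOn (transcendental W B.X) B.act g) := by
  obtain ⟨𝒰, h1, h2⟩ := h
  refine ⟨(fun U : Submodule W.K (W.H A.X) => U.comap (transcendental W A.X).subtype) '' 𝒰, ?_, ?_⟩
  · rw [eq_top_iff]
    have h3 : ∀ P : Submodule W.K (transcendental W A.X), (∀ U ∈ 𝒰,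
        U.comap (transcendental W A.X).subtype ≤ P) → P = ⊤ := by
      intro P hP
      have h4 : transcendental W A.X ≤ P.map (transcendental W A.X).subtype := by
        conv_lhs => rw [← h1]
        refine sSup_le fun U hU x hx => ?_
        have hxT : x ∈ transcendental W A.X := by
          rw [← h1]
          exact (le_sSup hU) hx
        exact ⟨⟨x, hxT⟩, hP U hU hx, rfl⟩
      rw [eq_top_iff]
      intro x _
      obtain ⟨y, hy, hyx⟩ := h4 x.2
      have h5 : y = x := Subtype.ext hyx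
      rwa [h5] at hy
    exact top_le_iff.2 (h3 _ fun U hU => le_sSup (Set.mem_image_of_mem _ hU))
  · rintro _ ⟨U, hU, rfl⟩
    obtain ⟨hst, hc⟩ := h2 U hU
    have hUT : U ≤ transcendental W A.X := by
      rw [← h1]
      exact le_sSup hU
    refine ⟨fun g x hx => hst g x hx, ?_⟩
    rcases hc with hdim | ⟨g, hg, hlt⟩
    · left
      have h3 : (U.comap (transcendental W A.X).subtype).map (transcendental W A.X).subtype = U := by
        rw [Submodule.map_comap_subtype, inf_eq_right.2 hUT]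
      rw [← Submodule.finrank_map_subtype_eq (transcendental W A.X), h3]
      exact hdim
    refine Or.inr ⟨g, hg, ?_⟩
    rw [rank_comap hA hUT]
    exact hlt

theorem RankSystem.galoisClass (h : RankSystem χ G X D Y Z) : GaloisClass χ G where
  galois := h.galois
  prod := fun A hA B hB => by
    obtain ⟨υ, hυ, hG⟩ := h.prod A hA B hB
    exact ⟨_, hG, IsProdVar.mk υ hυ.1 hυ.2⟩

theorem RankSystem.gal (h : RankSystem χ G X D Y Z) (i : ι) :
    IsGalois W χ (X i).X (X i).act := isGalois (h.galoisClass.galois _ (h.mem i))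

theorem RankSystem.gal' (h : RankSystem χ G X D Y Z) (b : β) :
    IsGalois W χ (Y b).X (Y b).act := isGalois (h.galoisClass.galois _ (h.mem' b))

theorem RankSystem.galS (h : RankSystem χ G X D Y Z) :
    ∀ j : β ⊕ ι, IsGalois W χ (Sum.elim Y X j).X (Sum.elim Y X j).act
  | Sum.inl b => h.gal' b
  | Sum.inr i => h.gal i

theorem RankSystem.good (h : RankSystem χ G X D Y Z) (i : ι) :
    Pool.Agent.V11219.Sst.GoodVar (X i) :=
  ⟨h.odd i, homEqNum_of_pol (h.polarization i), fun x hx => h.middle i x hx⟩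

variable [Fintype ι] [DecidableEq ι] [Fintype β] [DecidableEq β]

/-- The family of representations. -/
theorem RankSystem.sfam [IsAlgClosed W.K] (h : RankSystem χ G X D Y Z)
    {lam : Γ →* W.Kˣ} (hlam : ∀ g, χ g = 1 → lam g = 1) :
    SFam (fun i => mult χ (X i).X.dim) (fun i => rhoT (h.gal i))
      (fun i => rform W (X i).X (transcendental W (X i).X)) (pR fun b => rhoT (h.gal' b))
      (twist lam Z.act) (common χ X Y Z) where
  symplectic := fun i => symp_var (h.good i) (h.gal i) rfl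
  irreducible := fun i => SI_rhoT (P := ⟨(X i).X, 0⟩) (h.gal i) (h.irreducible i)
  distinct := fun i j hij hiso => by
    obtain ⟨T, hT⟩ := hiso
    refine h.distinct i j hij ⟨T, fun g => ?_⟩
    obtain ⟨c, hc⟩ := hT g
    refine ⟨c, fun x y hy => ?_⟩
    have h1 : y = rhoT (h.gal i) g x := Subtype.ext hy
    rw [h1, hc]
    rfl
  small := fun i => small_conv (h.gal i) (Set.Subset.refl _) (h.small i)
  mult := fun g hg i => by
    have h1 : χ g = 1 := hg.1
    rw [mult_apply, h1, Units.val_one, one_pow]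
  sq := fun g hg i => (quadAct_iff (P := ⟨(X i).X, 0⟩) (h.gal i)).1 (hg.2.1 i)
  nil := fun g hg => pR_nil fun b =>
    Pool.Agent.U172.JT.nilpotent_of (P := ⟨(Y b).X, 0⟩) (h.gal' b) (hg.2.2.1 b)
  nil' := fun g hg => by
    have h1 : χ g = 1 := hg.1
    obtain ⟨m, hm⟩ := hg.2.2.2
    refine ⟨m, ?_⟩
    have h2 : twist lam Z.act g - 1 = Pool.Agent.V11219.Min.dif Z.act g := by
      apply LinearMap.ext
      intro x
      rw [LinearMap.sub_apply, twist_apply, hlam g h1, Units.val_one, one_smul]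
      rfl
    rw [h2]
    apply LinearMap.ext
    intro x
    exact hm x Submodule.mem_top

/-- **The base.** -/
theorem RankSystem.base [IsAlgClosed W.K] (h : RankSystem χ G X D Y Z) (i : ι) :
    KT h.galS Z.X Z.act (Sum.inr i) := by
  intro S _ _ lam hlam Δ hΔ f hf u v z
  -- the pieces
  have hpc : ∀ b, ∃ 𝒰 : Set (Submodule W.K (transcendental W (Y b).X)), sSup 𝒰 = ⊤ ∧
      ∀ U ∈ 𝒰, IsSh (fun i => rhoT (h.gal i)) (rhoT (h.gal' b)) (common χ X Y Z) i U := by
    intro b
    obtain ⟨𝒰, h1, h2⟩ := pieces_trans (h.gal' b) (h.smaller i b)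
    refine ⟨𝒰, h1, fun U hU => ?_⟩
    obtain ⟨hst, hc⟩ := h2 U hU
    refine ⟨hst, ?_⟩
    rcases hc with hdim | ⟨g, hg, hlt⟩
    · exact Or.inl hdim
    refine Or.inr ⟨g, hg, Or.inl ⟨(quadAct_iff (P := ⟨(X i).X, 0⟩) (h.gal i)).1 (hg.2.1 i), ?_⟩⟩
    rw [rank_range (h.gal i)]
    exact hlt
  choose 𝒰 h𝒰1 h𝒰2 using hpc
  obtain ⟨𝒰', h𝒰1', h𝒰2'⟩ := h.smallerBase i
  have hmem := (h.sfam hlam).single_mem (S := S) i
    (𝒰 := ⋃ b, (fun P : Submodule W.K (transcendental W (Y b).X) =>
      P.map (LinearMap.single W.K (fun b => transcendental W (Y b).X) b)) '' 𝒰 b)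
    (by
      intro U hU
      obtain ⟨b, hb⟩ := Set.mem_iUnion.1 hU
      obtain ⟨P, hP, rfl⟩ := hb
      exact sh_single (h𝒰2 b P hP))
    (sup_single 𝒰 h𝒰1) (𝒰' := 𝒰')
    (by
      intro U hU
      obtain ⟨hst, hc⟩ := h𝒰2' U hU
      refine ⟨fun g x hx => ?_, ?_⟩
      · rw [twist_apply]
        exact U.smul_mem _ (hst g x hx)
      rcases hc with hdim | ⟨g, hg, hlt⟩
      · exact Or.inl hdim
      refine Or.inr ⟨g, hg, Or.inl ⟨(quadAct_iff (P := ⟨(X i).X, 0⟩) (h.gal i)).1 (hg.2.1 i), ?_⟩⟩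
      · rw [rank_range (h.gal i)]
        have h1 : χ g = 1 := hg.1
        have h2 : twist lam Z.act g - 1 = Pool.Agent.V11219.Min.dif Z.act g := by
          apply LinearMap.ext
          intro x
          rw [LinearMap.sub_apply, twist_apply, hlam g h1, Units.val_one, one_smul]
          rfl
        rw [h2]
        exact hlt) h𝒰1' u v
  have h1 := (mem_GR.1 hmem).2.2
    (f.compLinearMap fun _ => joinL X Y) ⟨Δ, hΔ, fun g hg x => by
      have h2 := hf g hg fun s => joinL X Y (x s)
      rw [MultilinearMap.compLinearMap_apply, MultilinearMap.compLinearMap_apply, twist_apply]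
      refine Eq.trans (congrArg f ?_) h2
      funext s j
      rcases j with b | i <;> rfl⟩
  have h3 := h1 fun s => ((fun i => z s (Sum.inr i)), fun b => z s (Sum.inl b))
  have h0 : yM (0 : Module.End W.K ((∀ b, transcendental W (Y b).X) × W.H Z.X)) = 0 := map_zero _
  dsimp only at h3
  rw [h0, LinearMap.zero_apply, map_zero] at h3
  refine Eq.trans (Finset.sum_congr rfl fun s _ => ?_) h3
  rw [MultilinearMap.compLinearMap_apply]
  congr 1
  funext s'
  by_cases hs : s' = s
  · subst hs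
    rw [update_self, update_self, Gk.dg_apply]
    funext j
    rcases j with b | j
    · rw [Pi.single_eq_of_ne (by simp)]
      rfl
    · by_cases hj : j = i
      · subst hj
        rw [Pi.single_eq_same]
        change _ = ((Pi.single j (Pool.Agent.H204R3.SP.SS
          (rform W (X j).X (transcendental W (X j).X)) u v) :
          ∀ j, Module.End W.K (transcendental W (X j).X)) j) (z s' (Sum.inr j))
        rw [Pi.single_eq_same]
        rfl
      · rw [Pi.single_eq_of_ne (fun h => hj (Sum.inr_injective h))]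
        change _ = ((Pi.single i (Pool.Agent.H204R3.SP.SS
          (rform W (X i).X (transcendental W (X i).X)) u v) :
          ∀ j, Module.End W.K (transcendental W (X j).X)) j) (z s' (Sum.inr j))
        rw [Pi.single_eq_of_ne hj]
        rfl
  · rw [update_of_ne hs, update_of_ne hs]
    funext j
    rcases j with b | j <;> rfl

/-- The products of `Z` with the varieties `Y b`. -/
theorem RankSystem.aux [IsAlgClosed W.K] (h : RankSystem χ G X D Y Z)
    (hZ : Products Y Z Z₁) (i : ι) : KT h.galS Z₁.X Z₁.act (Sum.inr i) := by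
  induction hZ with
  | base => exact h.base i
  | step b A υ hA hc ih =>
    refine KT.step (X := Sum.elim Y X) (j := Sum.inl b) (n := 0) h.galS (by simp) ih
      (h.homEqNum b) (D := 0) ?_
    intro g
    refine ⟨fun p a => ?_, fun z => hc.2 g z⟩
    have hp : p = 0 := Subsingleton.elim (α := Fin 1) _ _
    subst hp
    have key : ∀ a : W.H (Y b).X,
        υ g (W.map (fst (Y b).X A.X) (W.map (CategoryTheory.CategoryStruct.id (Y b).X) a)) =
        W.map (fst (Y b).X A.X)
          (W.map (CategoryTheory.CategoryStruct.id (Y b).X) ((Y b).act g a)) := by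
      intro a
      rw [W.map_id, W.map_id]
      exact hc.1 g a
    exact key a

/-- The action on the towers. -/
theorem RankSystem.tower [IsAlgClosed W.K] (h : RankSystem χ G X D Y Z) (hZ : Products Y Z Z₁)
    (hZ₁ : Z₁ ∈ G) (E : Z₁.X.Cycles) (L : List (ι × ℕ)) :
    ∃ υ : Γ →* (W.H (tower' ops (fun i => ⟨(X i).X, D i⟩) ⟨Z₁.X, E⟩ L).X ≃ₐ[W.K]
        W.H (tower' ops (fun i => ⟨(X i).X, D i⟩) ⟨Z₁.X, E⟩ L).X),
      (⟨(tower' ops (fun i => ⟨(X i).X, D i⟩) ⟨Z₁.X, E⟩ L).X, υ⟩ : GVar W Γ) ∈ G ∧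
      ∀ i, i ∉ L.map Prod.fst →
        KT h.galS (tower' ops (fun i => ⟨(X i).X, D i⟩) ⟨Z₁.X, E⟩ L).X υ
          (Sum.inr i) := by
  induction L with
  | nil => exact ⟨Z₁.act, hZ₁, fun i _ => h.aux hZ i⟩
  | cons a L ih =>
    obtain ⟨τ, hτ, hK⟩ := ih
    obtain ⟨υ, hυ, hP⟩ := exists_pow_act h.galoisClass (h.mem a.1) hτ (D a.1) a.2
    refine ⟨υ, hυ, fun i hi => ?_⟩
    rw [List.map_cons, List.mem_cons, not_or] at hi
    exact KT.step (X := Sum.elim Y X) (j := Sum.inr a.1) h.galS
      (fun h => hi.1 (Sum.inr_injective h)) (hK i hi.2)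
      (homEqNum_of_pol (h.polarization a.1)) hP

/-- The conditions for one step. -/
theorem RankSystem.split [IsAlgClosed W.K] (h : RankSystem χ G X D Y Z) (i : ι)
    {A : 𝒱.Obj} {υ : Γ →* (W.H A ≃ₐ[W.K] W.H A)} (hA : (⟨A, υ⟩ : GVar W Γ) ∈ G)
    (hK : KT h.galS A υ (Sum.inr i)) : SplitData (X i) (D i) ⟨A, υ⟩ := by
  have hpol := h.polarization i
  have hmid := (h.good i).2.2
  have hDX := homEqNum_of_pol hpol
  have hfull : FullR (P := ⟨(X i).X, D i⟩) χ (h.gal i) υ :=
    fullR_of (X := Sum.elim Y X) (i := Sum.inr i) h.galS hK (D i) hmid (h.odd i)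
  have hone : (1 : W.H (X i).X) ≠ 0 :=
    one_ne_of (h.gal i) (small_conv (h.gal i) (Set.Subset.refl _) (h.small i))
  exact ⟨hpol, hmid, hone, fun s m c hc =>
    tgt_of_fullR h.galoisClass (h.mem i) hA hmid hDX (h.odd i) hfull s m c hc⟩

/-- **The conjecture D.** -/
theorem RankSystem.homEqNum_tower [IsAlgClosed W.K] (h : RankSystem χ G X D Y Z)
    (hZ : Products Y Z Z₁) (hZ₁ : Z₁ ∈ G) (E : Z₁.X.Cycles) (L : List (ι × ℕ))
    (hL : (L.map Prod.fst).Nodup) :
    HomEqNum W (nodalTower X D Z₁ E L).X ↔ HomEqNum W Z₁.X := by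
  rw [nodalTower, tower_eq]
  induction L with
  | nil => exact Iff.rfl
  | cons a L ih =>
    rw [List.map_cons, List.nodup_cons] at hL
    obtain ⟨υ, hυ, hK⟩ := h.tower hZ hZ₁ E L
    have hN := h.split a.1 hυ (hK a.1 hL.1)
    rw [← ih hL.2]
    constructor
    · intro h1
      obtain ⟨x, hx⟩ := exists_tr hN.one_ne
      have h2 : W.tr (nest ops a.2 fun _ => (⟨(X a.1).X, D a.1⟩ : Polarized 𝒱)).X
          (mono (prj ops a.2 fun _ => (⟨(X a.1).X, D a.1⟩ : Polarized 𝒱)) fun _ => x) ≠ 0 := by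
        rw [tr_mono]
        exact pow_ne_zero _ hx
      exact homEqNum_factor h2 h1
    · intro h1
      exact hN.homEqNum_prod a.2 h1

end Pool.Agent.U172.SM
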