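import Mathlib
import Pool.Agent.U172.SM.JDefs
import Pool.Agent.U172.SM.FamJ
import Pool.Agent.U172.SM.Var
import Pool.Agent.U172.JP.Br

/-!
# Varieties of odd dimension with bad reduction, over a base with smaller monodromy
-/

open CategoryTheory AlgebraicGeometry

set_option linter.unusedSectionVars false
set_option linter.unusedVariables false

universe u

namespace Pool.Agent.U172.SJ

open Module Function Finset
open Pool.Agent.TH125.Gal Pool.Agent.TH118.SG Pool.Agent.V11219.Sst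
  Pool.Agent.V11219.Cls Pool.Agent.V11219.IsoF Pool.Agent.V11219.Loc Pool.Agent.V11219.Quad
open Pool.Agent.V11219 Pool.Agent.U172.SM

section lin

variable {K Γ : Type} [Field K] [Group Γ] {β : Type} [Fintype β] [DecidableEq β] {U : β → Type}
  [∀ b, AddCommGroup (U b)] [∀ b, Module K (U b)] {ι : Type} {V : ι → Type}
  [∀ i, AddCommGroup (V i)] [∀ i, Module K (V i)]
  {ρ : ∀ i, Representation K Γ (V i)} {N : Set Γ} {i : ι}

end lin

open Pool.Agent.H914 Pool.Agent.H914.VarClass Pool.Agent.H914.VarClass.Obj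
  Pool.Agent.H914.WeilCohomology Pool.Agent.H281R3.HT Pool.Agent.W552 Pool.Agent.H447

variable {k : Type u} [Field k] {𝒱 : VarClass k} {ops : CycleOps 𝒱}
  {W : WeilCohomology.{u, 0} ops} {Γ : Type} [Group Γ] {χ : Γ →* W.Kˣ}
  {ι β : Type} {X : ι → GVar W Γ} {Y : β → GVar W Γ} {Z Z₁ : GVar W Γ}

theorem pow_dif {A : GVar W Γ} (hG : IsGalois W χ A.X A.act) (g : Γ) (n : ℕ)
    (x : transcendental W A.X) :
    ((((rhoT hG g - 1) ^ n) x : transcendental W A.X) : W.H A.X) =
      (Pool.Agent.U172.JP.dif A.act g ^ n) (x : W.H A.X) := by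
  induction n generalizing x with
  | zero => rfl
  | succ n ih =>
    rw [pow_succ, Module.End.mul_apply, ih, pow_succ, Module.End.mul_apply]
    rfl

theorem pow_dif_ne {A : GVar W Γ} (hG : IsGalois W χ A.X A.act) {g : Γ} {q : ℕ}
    {t : W.H A.X} (ht : t ∈ transcendental W A.X)
    (h : (Pool.Agent.U172.JP.dif A.act g ^ q) t ≠ 0) : (rhoT hG g - 1) ^ q ≠ 0 := by
  intro h0
  apply h
  rw [← pow_dif hG g q ⟨t, ht⟩, h0]
  rfl

theorem sq_dif {A : GVar W Γ} (hG : IsGalois W χ A.X A.act) {g : Γ}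
    (h : ∀ t ∈ transcendental W A.X, (Pool.Agent.U172.JP.dif A.act g ^ 2) t = 0) :
    (rhoT hG g - 1) * (rhoT hG g - 1) = 0 := by
  rw [← pow_two]
  apply LinearMap.ext
  intro x
  apply Subtype.ext
  rw [pow_dif hG, h x x.2]
  rfl

/-- Pieces of the transcendental cohomology. -/
theorem pieces_trans {A : GVar W Γ} (hA : IsGalois W χ A.X A.act)
    (hX : ∀ i, IsGalois W χ (X i).X (X i).act) {i : ι} {N : Set Γ}
    (h : SmallerTrans A (X i) N) : ∃ 𝒰 : Set (Submodule W.K (transcendental W A.X)), sSup 𝒰 = ⊤ ∧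
      ∀ U ∈ 𝒰, IsSh (fun i => rhoT (hX i)) (rhoT hA) N i U := by
  obtain ⟨𝒰, h1, h2⟩ := h
  refine ⟨(fun U : Submodule W.K (W.H A.X) => U.comap (transcendental W A.X).subtype) '' 𝒰, ?_, ?_⟩
  · rw [eq_top_iff]
    have h3 : ∀ P : Submodule W.K (transcendental W A.X), (∀ U ∈ 𝒰,
        U.comap (transcendental W A.X).subtype ≤ P) → P = ⊤ := by
      intro P hP
      have h4 : transcendental W A.X ≤ P.map (transcendental W A.X).subtype := by
        conv_lhs => rw [← h1]
        refine sSup_le fun U hU x hx => ?_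
        have hxT : x ∈ transcendental W A.X := by
          rw [← h1]
          exact (le_sSup hU) hx
        exact ⟨⟨x, hxT⟩, hP U hU hx, rfl⟩
      rw [eq_top_iff]
      intro x _
      obtain ⟨y, hy, hyx⟩ := h4 x.2
      have h5 : y = x := Subtype.ext hyx
      rwa [h5] at hy
    exact top_le_iff.2 (h3 _ fun U hU => le_sSup (Set.mem_image_of_mem _ hU))
  · rintro _ ⟨U, hU, rfl⟩
    obtain ⟨hst, hc⟩ := h2 U hU
    have hUT : U ≤ transcendental W A.X := by
      rw [← h1]
      exact le_sSup hU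
    refine ⟨fun g x hx => hst g x hx, ?_⟩
    rcases hc with hdim | ⟨g, hg, hc⟩
    · left
      have h3 : (U.comap (transcendental W A.X).subtype).map (transcendental W A.X).subtype = U := by
        rw [Submodule.map_comap_subtype, inf_eq_right.2 hUT]
      rw [← Submodule.finrank_map_subtype_eq (transcendental W A.X), h3]
      exact hdim
    refine Or.inr ⟨g, hg, ?_⟩
    rcases hc with ⟨q, hq, t, ht, hne⟩ | ⟨h3, hlt⟩
    · refine Or.inr ⟨q, pow_dif_ne (hX i) ht hne, fun x hx => ?_⟩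
      apply Subtype.ext
      rw [pow_dif hA, hq x hx]
      rfl
    · refine Or.inl ⟨sq_dif (hX i) h3, ?_⟩
      rw [rank_comap hA hUT, rank_range (hX i)]
      exact hlt

/-- Pieces of the whole cohomology. -/
theorem pieces_all {A : GVar W Γ} (hX : ∀ i, IsGalois W χ (X i).X (X i).act) {i : ι} {N : Set Γ}
    {lam : Γ →* W.Kˣ} (hlam : ∀ g ∈ N, lam g = 1)
    (h : SmallerAll A (X i) N) : ∃ 𝒰 : Set (Submodule W.K (W.H A.X)), sSup 𝒰 = ⊤ ∧
      ∀ U ∈ 𝒰, IsSh (fun i => rhoT (hX i)) (twist lam A.act) N i U := by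
  obtain ⟨𝒰, h1, h2⟩ := h
  refine ⟨𝒰, h1, fun U hU => ?_⟩
  obtain ⟨hst, hc⟩ := h2 U hU
  refine ⟨fun g x hx => ?_, ?_⟩
  · rw [twist_apply]
    exact U.smul_mem _ (hst g x hx)
  rcases hc with hdim | ⟨g, hg, hc⟩
  · exact Or.inl hdim
  have hd : twist lam A.act g - 1 = Pool.Agent.U172.JP.dif A.act g := by
    apply LinearMap.ext
    intro x
    rw [LinearMap.sub_apply, twist_apply, hlam g hg, Units.val_one, one_smul]
    rfl
  refine Or.inr ⟨g, hg, ?_⟩
  · rcases hc with ⟨q, hq, t, ht, hne⟩ | ⟨h3, hlt⟩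
    · refine Or.inr ⟨q, pow_dif_ne (hX i) ht hne, fun x hx => ?_⟩
      rw [hd]
      exact hq x hx
    · refine Or.inl ⟨sq_dif (hX i) h3, ?_⟩
      rw [rank_range (hX i), hd]
      exact hlt

theorem SmallerVars.gal (h : SmallerVars χ X Y Z) (i : ι) :
    IsGalois W χ (X i).X (X i).act := isGalois (h.galois i)

theorem SmallerVars.gal' (h : SmallerVars χ X Y Z) (b : β) :
    IsGalois W χ (Y b).X (Y b).act := isGalois (h.galois' b)

theorem SmallerVars.galS (h : SmallerVars χ X Y Z) :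
    ∀ j : β ⊕ ι, IsGalois W χ (Sum.elim Y X j).X (Sum.elim Y X j).act
  | Sum.inl b => h.gal' b
  | Sum.inr i => h.gal i

theorem SmallerVars.goodVar (h : SmallerVars χ X Y Z) (i : ι) :
    Pool.Agent.V11219.Sst.GoodVar (X i) :=
  ⟨(h.bad i).1, h.homEqNum i, fun x hx => (h.bad i).2.1 hx⟩

theorem triv_rhoT {A : GVar W Γ} (hG : IsGalois W χ A.X A.act) {g : Γ} (h : TrivVar A g) :
    rhoT hG g = 1 := by
  apply LinearMap.ext
  intro x
  apply Subtype.ext
  exact h x

variable [Fintype ι] [DecidableEq ι] [Fintype β] [DecidableEq β]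

/-- The family of representations. -/
theorem SmallerVars.jfam [IsAlgClosed W.K] (h : SmallerVars χ X Y Z)
    {lam : Γ →* W.Kˣ} (hlam : ∀ g, χ g = 1 → lam g = 1) :
    JFam (fun i => mult χ (X i).X.dim) (fun i => rhoT (h.gal i))
      (fun i => rform W (X i).X (transcendental W (X i).X)) (pR fun b => rhoT (h.gal' b))
      (twist lam Z.act) (unipotent χ X Y Z) where
  symplectic := fun i => symp_var (h.goodVar i) (h.gal i) rfl
  irreducible := fun i => SI_rhoT (P := ⟨(X i).X, 0⟩) (h.gal i) (h.bad i).2.2.1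
  good := fun i => by
    obtain ⟨g, hg, hχ, hu, hb⟩ := (h.bad i).2.2.2
    refine ⟨g, hg.1, ?_, fun j hj => triv_rhoT (h.gal j) (hg.2 j hj)⟩
    exact Pool.Agent.U172.JT.good_of (P := ⟨(X i).X, 0⟩) (h.gal i) (h.bad i).2.1 (h.bad i).1
      (h.homEqNum i) hu hb
  mult := fun g hg i => by
    have h1 : χ g = 1 := hg.1
    rw [mult_apply, h1, Units.val_one, one_pow]
  nilV := fun g hg i =>
    Pool.Agent.U172.JT.nilpotent_of (P := ⟨(X i).X, 0⟩) (h.gal i) (hg.2.1 i)
  nil := fun g hg => pR_nil fun b =>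
    Pool.Agent.U172.JT.nilpotent_of (P := ⟨(Y b).X, 0⟩) (h.gal' b) (hg.2.2.1 b)
  nil' := fun g hg => by
    have h1 : χ g = 1 := hg.1
    obtain ⟨m, hm⟩ := hg.2.2.2
    refine ⟨m, ?_⟩
    have h2 : twist lam Z.act g - 1 = Pool.Agent.U172.JP.dif Z.act g := by
      apply LinearMap.ext
      intro x
      rw [LinearMap.sub_apply, twist_apply, hlam g h1, Units.val_one, one_smul]
      rfl
    rw [h2]
    apply LinearMap.ext
    intro x
    exact hm x Submodule.mem_top

/-- **The base.** -/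
theorem SmallerVars.base [IsAlgClosed W.K] (h : SmallerVars χ X Y Z) (i : ι) :
    KT h.galS Z.X Z.act (Sum.inr i) := by
  intro S _ _ lam hlam Δ hΔ f hf u v z
  -- the pieces
  have hpc := fun b => pieces_trans (h.gal' b) h.gal (h.smaller i b)
  choose 𝒰 h𝒰1 h𝒰2 using hpc
  obtain ⟨𝒰', h𝒰1', h𝒰2'⟩ := pieces_all h.gal (lam := lam) (fun g hg => hlam g hg.1)
    (h.smallerBase i)
  have hmem := (h.jfam hlam).single_mem (S := S) i
    (𝒰 := ⋃ b, (fun P : Submodule W.K (transcendental W (Y b).X) =>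
      P.map (LinearMap.single W.K (fun b => transcendental W (Y b).X) b)) '' 𝒰 b)
    (by
      intro U hU
      obtain ⟨b, hb⟩ := Set.mem_iUnion.1 hU
      obtain ⟨P, hP, rfl⟩ := hb
      exact sh_single (h𝒰2 b P hP))
    (sup_single 𝒰 h𝒰1) (𝒰' := 𝒰') h𝒰2' h𝒰1' u v
  have h1 := (mem_GR.1 hmem).2.2
    (f.compLinearMap fun _ => joinL X Y) ⟨Δ, hΔ, fun g hg x => by
      have h2 := hf g hg fun s => joinL X Y (x s)
      rw [MultilinearMap.compLinearMap_apply, MultilinearMap.compLinearMap_apply, twist_apply]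
      refine Eq.trans (congrArg f ?_) h2
      funext s j
      rcases j with b | i <;> rfl⟩
  have h3 := h1 fun s => ((fun i => z s (Sum.inr i)), fun b => z s (Sum.inl b))
  have h0 : yM (0 : Module.End W.K ((∀ b, transcendental W (Y b).X) × W.H Z.X)) = 0 := map_zero _
  dsimp only at h3
  rw [h0, LinearMap.zero_apply, map_zero] at h3
  refine Eq.trans (Finset.sum_congr rfl fun s _ => ?_) h3
  rw [MultilinearMap.compLinearMap_apply]
  congr 1
  funext s'
  by_cases hs : s' = s
  · subst hs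
    rw [update_self, update_self, Gk.dg_apply]
    funext j
    rcases j with b | j
    · rw [Pi.single_eq_of_ne (by simp)]
      rfl
    · by_cases hj : j = i
      · subst hj
        rw [Pi.single_eq_same]
        change _ = ((Pi.single j (Pool.Agent.H204R3.SP.SS
          (rform W (X j).X (transcendental W (X j).X)) u v) :
          ∀ j, Module.End W.K (transcendental W (X j).X)) j) (z s' (Sum.inr j))
        rw [Pi.single_eq_same]
        rfl
      · rw [Pi.single_eq_of_ne (fun h => hj (Sum.inr_injective h))]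
        change _ = ((Pi.single i (Pool.Agent.H204R3.SP.SS
          (rform W (X i).X (transcendental W (X i).X)) u v) :
          ∀ j, Module.End W.K (transcendental W (X j).X)) j) (z s' (Sum.inr j))
        rw [Pi.single_eq_of_ne hj]
        rfl
  · rw [update_of_ne hs, update_of_ne hs]
    funext j
    rcases j with b | j <;> rfl

/-- The products of `Z` with the varieties `Y b`. -/
theorem SmallerVars.aux [IsAlgClosed W.K] (h : SmallerVars χ X Y Z)
    (hZ : Products Y Z Z₁) (i : ι) : KT h.galS Z₁.X Z₁.act (Sum.inr i) := by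
  induction hZ with
  | base => exact h.base i
  | step b A υ hA hc ih =>
    exact KT.step (X := Sum.elim Y X) (j := Sum.inl b) (n := 0) h.galS (by simp) ih
      (h.homEqNum' b) (isPowAct hc.1 hc.2)

/-- The transcendental cohomology is not zero. -/
theorem SmallerVars.one_ne (h : SmallerVars χ X Y Z) (i : ι) : (1 : W.H (X i).X) ≠ 0 := by
  obtain ⟨t, ht⟩ := Pool.Agent.U172.JT.exists_ne_of_jordan (P := ⟨(X i).X, 0⟩)
    (Pool.Agent.U172.JP.jc (h.bad i).2.2.2)
  intro h3
  apply ht
  rw [← one_mul t, h3, zero_mul]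

/-- **The Tate conjecture for towers.** -/
theorem SmallerVars.tate [IsAlgClosed W.K] (h : SmallerVars χ X Y Z)
    (hZ : Products Y Z Z₁) {S : Set ι} {T : GVar W Γ} (hT : GTower X Z₁ S T) :
    (TateConjecture χ T ↔ TateConjecture χ Z₁) ∧
      ∀ i, i ∉ S → KT h.galS T.X T.act (Sum.inr i) := by
  induction hT with
  | base => exact ⟨Iff.rfl, fun i _ => h.aux hZ i⟩
  | @step S A A' i n hT hi hn hP ih =>
    obtain ⟨ih, hK⟩ := ih
    obtain ⟨υ, h1, h2⟩ := hP
    have hfull : FullR (P := ⟨(X i).X, 0⟩) χ (h.gal i) A.act :=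
      fullR_of (X := Sum.elim Y X) (i := Sum.inr i) h.galS (hK i hi) 0 (h.goodVar i).2.2
        (h.goodVar i).1
    refine ⟨?_, fun j hj => ?_⟩
    · rw [← ih]
      constructor
      · exact tate_conv (P := ⟨(X i).X, 0⟩) (h.goodVar i).2.1 (h.one_ne i) (isPowAct h1 h2)
      · exact tate_stepR (P := ⟨(X i).X, 0⟩) (h.goodVar i).2.1 (h.goodVar i).2.2 (h.gal i)
          (isPowAct h1 h2) (h.goodVar i).1 hfull
    · rw [Set.mem_insert_iff, not_or] at hj
      exact KT.step (X := Sum.elim Y X) (j := Sum.inr i) h.galS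
        (fun h => hj.1 (Sum.inr_injective h)) (hK j hj.2) (h.goodVar i).2.1 (isPowAct h1 h2)

/-- **Systems of classes.** -/
theorem SmallerVars.cls [IsAlgClosed W.K] (h : SmallerVars χ X Y Z) {C : Classes W}
    (hC : ClassSystem W C) (hZ : Products Y Z Z₁) {S : Set ι} {T : GVar W Γ}
    (hT : GTower X Z₁ S T) : TateIn χ C T ↔ TateIn χ C Z₁ := by
  induction hT with
  | base => exact Iff.rfl
  | @step S A A' i n hT hi hn hP ih =>
    obtain ⟨υ, h1, h2⟩ := hP
    have hK := (h.tate hZ hT).2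
    have hfull : FullR (P := ⟨(X i).X, 0⟩) χ (h.gal i) A.act :=
      fullR_of (X := Sum.elim Y X) (i := Sum.inr i) h.galS (hK i hi) 0 (h.goodVar i).2.2
        (h.goodVar i).1
    rw [← ih]
    constructor
    · exact conv_cls (P := ⟨(X i).X, 0⟩) hC (h.goodVar i).2.1 (h.one_ne i) (isPowAct h1 h2)
    · exact step_cls (P := ⟨(X i).X, 0⟩) hC (h.goodVar i).2.1 (h.goodVar i).2.2 (h.gal i)
        (isPowAct h1 h2) (h.goodVar i).1 hfull

/-- The towers. -/
theorem Towers.gtower (hodd : ∀ i, Odd (X i).X.dim) {S : Set ι} {T : GVar W Γ}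
    (hT : Towers X Z₁ S T) : GTower X Z₁ S T := by
  induction hT with
  | base => exact GTower.base
  | step S A i n υ _ hi hc ih =>
    exact GTower.step i n ih hi (fun he => absurd he (Nat.not_even_iff_odd.2 (hodd i)))
      (IsPowProd.mk υ hc.1 hc.2)

end Pool.Agent.U172.SJ
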